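import Mathlib

open MeasureTheory Set
open scoped ENNReal

namespace Pool.Agent.Helper49.HRG

noncomputable section

/-- The uniform law on the unit interval. -/
def unif : Measure ℝ := volume.restrict (Icc 0 1)

instance : IsProbabilityMeasure unif := ⟨by simp [unif]⟩

lemma unif_Iic {p : ℝ} (h1 : p ≤ 1) : unif (Iic p) = ENNReal.ofReal p := by
  rw [unif, Measure.restrict_apply measurableSet_Iic]
  have : Iic p ∩ Icc 0 1 = Icc 0 p := by
    ext x
    simp only [mem_inter_iff, mem_Iic, mem_Icc]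
    constructor
    · rintro ⟨a, b, c⟩; exact ⟨b, a⟩
    · rintro ⟨a, b⟩; exact ⟨b, a, b.trans h1⟩
  rw [this, Real.volume_Icc, sub_zero]

lemma unif_Ioi {p : ℝ} (h0 : 0 ≤ p) : unif (Ioi p) = ENNReal.ofReal (1 - p) := by
  rw [unif, Measure.restrict_apply measurableSet_Ioi]
  have : Ioi p ∩ Icc 0 1 = Ioc p 1 := by
    ext x
    simp only [mem_inter_iff, mem_Ioi, mem_Icc, mem_Ioc]
    constructor
    · rintro ⟨a, b, c⟩; exact ⟨a, c⟩
    · rintro ⟨a, b⟩; exact ⟨a, h0.trans a.le, b⟩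
  rw [this, Real.volume_Ioc]

lemma edge_prob {ι : Type*} [Fintype ι] [DecidableEq ι] (pe : ι → ℝ) (h0 : ∀ e, 0 ≤ pe e)
    (h1 : ∀ e, pe e ≤ 1) (T F : Finset ι) (hd : Disjoint T F) :
    (Measure.pi fun _ : ι => unif).real
      {U | (∀ e ∈ T, U e ≤ pe e) ∧ (∀ e ∈ F, pe e < U e)} =
      (∏ e ∈ T, pe e) * ∏ e ∈ F, (1 - pe e) := by
  classical
  have hset : {U : ι → ℝ | (∀ e ∈ T, U e ≤ pe e) ∧ (∀ e ∈ F, pe e < U e)} =
      Set.pi univ (fun e => if e ∈ T then Iic (pe e) else if e ∈ F then Ioi (pe e) else univ) := by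
    ext U
    simp only [mem_ofPred_eq, Set.mem_pi, mem_univ, true_implies]
    constructor
    · rintro ⟨a, b⟩ e
      by_cases hT : e ∈ T
      · simp [hT, a e hT]
      · by_cases hF : e ∈ F
        · simp [hT, hF, b e hF]
        · simp [hT, hF]
    · intro h
      refine ⟨fun e he => ?_, fun e he => ?_⟩
      · have := h e
        simpa [he] using this
      · have hT : e ∉ T := fun hT => (Finset.disjoint_left.1 hd hT he)
        have := h e
        simpa [he, hT] using this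
  rw [hset, measureReal_def, Measure.pi_pi, ENNReal.toReal_prod]
  have hterm : ∀ e, (unif (if e ∈ T then Iic (pe e) else if e ∈ F then Ioi (pe e) else univ)).toReal
      = (if e ∈ T then pe e else 1) * (if e ∈ F then 1 - pe e else 1) := by
    intro e
    by_cases hT : e ∈ T
    · have hF : e ∉ F := fun hF => (Finset.disjoint_left.1 hd hT hF)
      simp [hT, hF, unif_Iic (h1 e), h0 e]
    · by_cases hF : e ∈ F
      · simp [hT, hF, unif_Ioi (h0 e), h1 e]
      · simp [hT, hF]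
  rw [Finset.prod_congr rfl (fun e _ => hterm e), Finset.prod_mul_distrib]
  simp [Finset.prod_ite_mem]

variable {𝒳 : Type*} [MeasurableSpace 𝒳]

/-- a symmetric measurable connection function with values in the unit interval -/
structure Conn (p : 𝒳 → 𝒳 → ℝ) : Prop where
  meas : Measurable (Function.uncurry p)
  nonneg : ∀ a b, 0 ≤ p a b
  le_one : ∀ a b, p a b ≤ 1
  symm : ∀ a b, p a b = p b a

lemma Conn.meas_comp {p : 𝒳 → 𝒳 → ℝ} (hp : Conn p) {β : Type*} [MeasurableSpace β]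
    {f g : β → 𝒳} (hf : Measurable f) (hg : Measurable g) :
    Measurable (fun b => p (f b) (g b)) := by
  have h : Measurable (fun b => Function.uncurry p (f b, g b)) := hp.meas.comp (hf.prodMk hg)
  exact h

/-- the connection probability attached to an unordered pair -/
def pe {n : ℕ} (p : 𝒳 → 𝒳 → ℝ) (hp : ∀ a b, p a b = p b a) (x : Fin n → 𝒳) :
    Sym2 (Fin n) → ℝ :=
  Sym2.lift ⟨fun u v => p (x u) (x v), fun _ _ => hp _ _⟩

omit [MeasurableSpace 𝒳] in
@[simp] lemma pe_mk {n : ℕ} (p : 𝒳 → 𝒳 → ℝ) (hp : ∀ a b, p a b = p b a) (x : Fin n → 𝒳)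
    (u v : Fin n) : pe p hp x s(u, v) = p (x u) (x v) := rfl

/-- law of the positions and of the auxiliary uniform variables -/
def law (ν : Measure 𝒳) (n : ℕ) : Measure ((Fin n → 𝒳) × (Sym2 (Fin n) → ℝ)) :=
  (Measure.pi fun _ => ν).prod (Measure.pi fun _ => unif)

instance (ν : Measure 𝒳) [IsProbabilityMeasure ν] (n : ℕ) : IsProbabilityMeasure (law ν n) := by
  unfold law; infer_instance

/-- the graph -/
def gr {n : ℕ} (p : 𝒳 → 𝒳 → ℝ) (hp : ∀ a b, p a b = p b a)
    (ω : (Fin n → 𝒳) × (Sym2 (Fin n) → ℝ)) : SimpleGraph (Fin n) where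
  Adj u v := u ≠ v ∧ ω.2 s(u, v) ≤ p (ω.1 u) (ω.1 v)
  symm := ⟨by
    intro u v h
    refine ⟨h.1.symm, ?_⟩
    rw [Sym2.eq_swap, hp]
    exact h.2⟩
  loopless := ⟨fun u h => h.1 rfl⟩

section joint

variable (ν : Measure 𝒳) [IsProbabilityMeasure ν] {p : 𝒳 → 𝒳 → ℝ} (hp : Conn p)

include hp

lemma pe_nonneg {n : ℕ} (x : Fin n → 𝒳) (e : Sym2 (Fin n)) : 0 ≤ pe p hp.symm x e := by
  induction e using Sym2.ind with
  | _ u v => exact hp.nonneg _ _

lemma pe_le_one {n : ℕ} (x : Fin n → 𝒳) (e : Sym2 (Fin n)) : pe p hp.symm x e ≤ 1 := by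
  induction e using Sym2.ind with
  | _ u v => exact hp.le_one _ _

lemma pe_meas {n : ℕ} (e : Sym2 (Fin n)) : Measurable (fun x : Fin n → 𝒳 => pe p hp.symm x e) := by
  induction e using Sym2.ind with
  | _ u v =>
    have : Measurable (fun x : Fin n → 𝒳 => Function.uncurry p (x u, x v)) :=
      hp.meas.comp ((measurable_pi_apply u).prodMk (measurable_pi_apply v))
    exact this

lemma joint_prob {n : ℕ} (A : Set (Fin n → 𝒳)) (hA : MeasurableSet A)
    (T F : Finset (Sym2 (Fin n))) (hd : Disjoint T F) :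
    (law ν n).real {ω | ω.1 ∈ A ∧ (∀ e ∈ T, ω.2 e ≤ pe p hp.symm ω.1 e) ∧
        (∀ e ∈ F, pe p hp.symm ω.1 e < ω.2 e)} =
      ∫ x in A, (∏ e ∈ T, pe p hp.symm x e) * ∏ e ∈ F, (1 - pe p hp.symm x e)
        ∂(Measure.pi fun _ : Fin n => ν) := by
  have hm : MeasurableSet {ω : (Fin n → 𝒳) × (Sym2 (Fin n) → ℝ) |
      ω.1 ∈ A ∧ (∀ e ∈ T, ω.2 e ≤ pe p hp.symm ω.1 e) ∧
        (∀ e ∈ F, pe p hp.symm ω.1 e < ω.2 e)} := by
    have h1 : MeasurableSet (⋂ e ∈ T, {ω : (Fin n → 𝒳) × (Sym2 (Fin n) → ℝ) |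
        ω.2 e ≤ pe p hp.symm ω.1 e}) := by
      refine Finset.measurableSet_biInter T fun e _ => ?_
      exact measurableSet_le ((measurable_pi_apply e).comp measurable_snd)
        ((pe_meas hp e).comp measurable_fst)
    have h2 : MeasurableSet (⋂ e ∈ F, {ω : (Fin n → 𝒳) × (Sym2 (Fin n) → ℝ) |
        pe p hp.symm ω.1 e < ω.2 e}) := by
      refine Finset.measurableSet_biInter F fun e _ => ?_
      exact measurableSet_lt ((pe_meas hp e).comp measurable_fst)
        ((measurable_pi_apply e).comp measurable_snd)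
    have h3 := (measurable_fst hA).inter (h1.inter h2)
    refine (congrArg MeasurableSet ?_).mp h3
    ext ω
    simp
  rw [measureReal_def, law, Measure.prod_apply hm, ← integral_toReal, ← integral_indicator hA]
  · refine integral_congr_ae (Filter.Eventually.of_forall fun x => ?_)
    by_cases hx : x ∈ A
    · simp only [indicator_of_mem hx]
      rw [← edge_prob (pe p hp.symm x) (pe_nonneg hp x) (pe_le_one hp x) T F hd, measureReal_def]
      congr 2
      ext U
      simp [hx]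
    · simp only [indicator_of_notMem hx]
      have : Prod.mk x ⁻¹' {ω : (Fin n → 𝒳) × (Sym2 (Fin n) → ℝ) |
      ω.1 ∈ A ∧ (∀ e ∈ T, ω.2 e ≤ pe p hp.symm ω.1 e) ∧
        (∀ e ∈ F, pe p hp.symm ω.1 e < ω.2 e)} = ∅ := by
        ext U
        simp [hx]
      rw [this]
      simp
  · exact (measurable_measure_prodMk_left hm).aemeasurable
  · exact Filter.Eventually.of_forall fun x => measure_lt_top _ _

end joint

end

end Pool.Agent.Helper49.HRG
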