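import Pool.Agent.Helper49.HRG.Defs

open MeasureTheory Set
open scoped ENNReal

namespace Pool.Agent.Helper49.HRG

noncomputable section

instance : IsProbabilityMeasure angleLaw := by
  constructor
  unfold angleLaw
  rw [withDensity_const, Measure.smul_apply, Measure.restrict_apply_univ, Real.volume_Ioc,
    smul_eq_mul, ← ENNReal.ofReal_mul (by positivity)]
  rw [show 1 / (2 * Real.pi) * (2 * Real.pi - 0) = 1 by
    have := Real.pi_pos
    field_simp
    ring]
  simp

lemma integral_angle (f : ℝ → ℝ) :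
    ∫ θ, f θ ∂angleLaw = 1 / (2 * Real.pi) * ∫ θ in (0 : ℝ)..(2 * Real.pi), f θ := by
  have hpi := Real.pi_pos
  unfold angleLaw
  rw [withDensity_const, integral_smul_measure,
    intervalIntegral.integral_of_le (by positivity), ENNReal.toReal_ofReal (by positivity),
    smul_eq_mul]

lemma sn_periodic (g : ℝ → ℝ) (θ0 : ℝ) :
    Function.Periodic (fun θ => g (sn θ θ0)) (2 * Real.pi) := by
  intro θ
  simp only [sn]
  rw [show (θ + 2 * Real.pi - θ0) / 2 = (θ - θ0) / 2 + Real.pi by ring, Real.sin_add_pi, abs_neg]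

lemma angle_avg (g : ℝ → ℝ) (hg : Continuous g) (θ0 : ℝ) :
    ∫ θ, g (sn θ θ0) ∂angleLaw = 2 / Real.pi * ∫ x in (0 : ℝ)..(Real.pi / 2), g (Real.sin x) := by
  have hpi := Real.pi_pos
  rw [integral_angle]
  have h1 : ∫ θ in (0 : ℝ)..(2 * Real.pi), g (sn θ θ0) =
      ∫ θ in θ0..(θ0 + 2 * Real.pi), g (sn θ θ0) := by
    have := (sn_periodic g θ0).intervalIntegral_add_eq 0 θ0
    rwa [zero_add] at this
  have h2 : ∫ θ in θ0..(θ0 + 2 * Real.pi), g (sn θ θ0) =
      ∫ φ in (0 : ℝ)..(2 * Real.pi), g |Real.sin (φ / 2)| := by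
    have := intervalIntegral.integral_comp_add_right (a := 0) (b := 2 * Real.pi)
      (fun θ => g (sn θ θ0)) θ0
    rw [zero_add, add_comm (2 * Real.pi)] at this
    rw [← this]
    refine intervalIntegral.integral_congr fun x _ => ?_
    simp [sn]
  have h3 : ∫ φ in (0 : ℝ)..(2 * Real.pi), g |Real.sin (φ / 2)| =
      2 * ∫ x in (0 : ℝ)..Real.pi, g |Real.sin x| := by
    have := intervalIntegral.integral_comp_div (a := 0) (b := 2 * Real.pi)
      (fun x => g |Real.sin x|) (c := 2) (by norm_num)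
    rw [this, smul_eq_mul, zero_div, show 2 * Real.pi / 2 = Real.pi by ring]
  have h4 : ∫ x in (0 : ℝ)..Real.pi, g |Real.sin x| =
      2 * ∫ x in (0 : ℝ)..(Real.pi / 2), g (Real.sin x) := by
    have hint : ∀ a b, IntervalIntegrable (fun x => g |Real.sin x|) volume a b := fun a b =>
      (hg.comp (Real.continuous_sin.abs)).intervalIntegrable a b
    rw [← intervalIntegral.integral_add_adjacent_intervals (hint 0 (Real.pi / 2))
      (hint (Real.pi / 2) Real.pi)]
    have e1 : ∫ x in (Real.pi / 2)..Real.pi, g |Real.sin x| =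
        ∫ x in (0 : ℝ)..(Real.pi / 2), g |Real.sin x| := by
      have := intervalIntegral.integral_comp_sub_left (a := 0) (b := Real.pi / 2)
        (fun x => g |Real.sin x|) Real.pi
      rw [sub_zero, show Real.pi - Real.pi / 2 = Real.pi / 2 by ring] at this
      rw [← this]
      refine intervalIntegral.integral_congr fun x _ => ?_
      simp [Real.sin_pi_sub]
    rw [e1, ← two_mul]
    congr 1
    refine intervalIntegral.integral_congr fun x hx => ?_
    rw [uIcc_of_le (by positivity)] at hx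
    rw [abs_of_nonneg (Real.sin_nonneg_of_nonneg_of_le_pi hx.1 (by linarith [hx.2]))]
  rw [h1, h2, h3, h4]
  field_simp

lemma cont_aux {A K : ℝ} (hA : 0 < A) (hK : 0 ≤ K) :
    Continuous (fun t : ℝ => 1 / (A + K * |t|)) := by
  refine continuous_const.div (by fun_prop) fun t => ?_
  have : 0 ≤ K * |t| := by positivity
  positivity

lemma angle_avg_abs (A K : ℝ) (hA : 0 < A) (hK : 0 ≤ K) (θ0 : ℝ) :
    ∫ θ, 1 / (A + K * sn θ θ0) ∂angleLaw =
      2 / Real.pi * ∫ x in (0 : ℝ)..(Real.pi / 2), 1 / (A + K * Real.sin x) := by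
  have h := angle_avg (fun t => 1 / (A + K * |t|)) (cont_aux hA hK) θ0
  have e1 : ∀ θ, 1 / (A + K * sn θ θ0) = 1 / (A + K * |sn θ θ0|) := by
    intro θ; rw [abs_of_nonneg (sn_nonneg _ _)]
  simp only [e1]
  rw [h]
  congr 1
  refine intervalIntegral.integral_congr fun x hx => ?_
  rw [uIcc_of_le (by have := Real.pi_pos; positivity)] at hx
  rw [abs_of_nonneg (Real.sin_nonneg_of_nonneg_of_le_pi hx.1 (by linarith [hx.2, Real.pi_pos]))]

lemma integral_inv_lin (A K b : ℝ) (hA : 0 < A) (hK : 0 < K) (hb : 0 ≤ b) :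
    ∫ x in (0 : ℝ)..b, 1 / (A + K * x) = 1 / K * Real.log (1 + K * b / A) := by
  have h1 : ∀ x ∈ uIcc 0 b, HasDerivAt (fun x => 1 / K * Real.log (A + K * x))
      (1 / (A + K * x)) x := by
    intro x hx
    rw [uIcc_of_le hb] at hx
    have hpos : 0 < A + K * x := by have := mul_nonneg hK.le hx.1; linarith
    have h2 : HasDerivAt (fun x => A + K * x) K x := by
      simpa using ((hasDerivAt_id x).const_mul K).const_add A
    have h3 := (h2.log hpos.ne').const_mul (1 / K)
    have e : 1 / K * (K / (A + K * x)) = 1 / (A + K * x) := by field_simp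
    rw [e] at h3
    exact h3
  rw [intervalIntegral.integral_eq_sub_of_hasDerivAt h1]
  · rw [mul_zero, add_zero, ← mul_sub, ← Real.log_div (by positivity) (by positivity)]
    congr 2
    field_simp
  · apply ContinuousOn.intervalIntegrable
    intro x hx
    rw [uIcc_of_le hb] at hx
    have hpos : 0 < A + K * x := by have := mul_nonneg hK.le hx.1; linarith
    have hc : ContinuousAt (fun x => 1 / (A + K * x)) x :=
      ContinuousAt.div continuousAt_const (by fun_prop) hpos.ne'
    exact hc.continuousWithinAt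

lemma integ_sin (A K : ℝ) (hA : 0 < A) (hK : 0 ≤ K) :
    IntervalIntegrable (fun x => 1 / (A + K * Real.sin x)) volume 0 (Real.pi / 2) := by
  apply ContinuousOn.intervalIntegrable
  intro x hx
  rw [uIcc_of_le (by have := Real.pi_pos; positivity)] at hx
  have h0 := Real.sin_nonneg_of_nonneg_of_le_pi hx.1 (by linarith [hx.2, Real.pi_pos])
  have hpos : 0 < A + K * Real.sin x := by positivity
  have hc : ContinuousAt (fun x => 1 / (A + K * Real.sin x)) x :=
    ContinuousAt.div continuousAt_const (by fun_prop) hpos.ne'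
  exact hc.continuousWithinAt

lemma integ_lin (A K : ℝ) (hA : 0 < A) (hK : 0 ≤ K) :
    IntervalIntegrable (fun x => 1 / (A + K * x)) volume 0 (Real.pi / 2) := by
  apply ContinuousOn.intervalIntegrable
  intro x hx
  rw [uIcc_of_le (by have := Real.pi_pos; positivity)] at hx
  have h0 := hx.1
  have hpos : 0 < A + K * x := by positivity
  have hc : ContinuousAt (fun x => 1 / (A + K * x)) x :=
    ContinuousAt.div continuousAt_const (by fun_prop) hpos.ne'
  exact hc.continuousWithinAt

/-- lower bound of the angular average -/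
lemma angle_lower (A K : ℝ) (hA : 0 < A) (hK : 0 < K) (θ0 : ℝ) :
    2 / (Real.pi * K) * Real.log (1 + Real.pi * K / (2 * A)) ≤
      ∫ θ, 1 / (A + K * sn θ θ0) ∂angleLaw := by
  have hpi := Real.pi_pos
  rw [angle_avg_abs A K hA hK.le θ0]
  have h1 : ∫ x in (0 : ℝ)..(Real.pi / 2), 1 / (A + K * x) ≤
      ∫ x in (0 : ℝ)..(Real.pi / 2), 1 / (A + K * Real.sin x) := by
    apply intervalIntegral.integral_mono_on (by positivity) (integ_lin A K hA hK.le)
      (integ_sin A K hA hK.le)
    intro x hx
    have h0 := Real.sin_nonneg_of_nonneg_of_le_pi hx.1 (by linarith [hx.2])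
    apply one_div_le_one_div_of_le (by positivity)
    have := Real.sin_le hx.1
    nlinarith
  rw [integral_inv_lin A K _ hA hK (by positivity)] at h1
  calc _ = 2 / Real.pi * (1 / K * Real.log (1 + K * (Real.pi / 2) / A)) := by
        rw [show K * (Real.pi / 2) / A = Real.pi * K / (2 * A) by field_simp]
        field_simp
    _ ≤ _ := mul_le_mul_of_nonneg_left h1 (by positivity)

lemma sin_aux {x : ℝ} (h0 : 0 ≤ x) (h1 : x ≤ Real.pi / 2) : x - Real.sin x ≤ x * Real.sin x := by
  have hpi := Real.pi_pos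
  have hpi3 := Real.pi_gt_three
  have hpi4 := Real.pi_lt_d2
  have h2 := Real.mul_le_sin h0 h1
  rcases h0.eq_or_lt with rfl | h0
  · simp
  have h3 : x * (2 / Real.pi * x) ≤ x * Real.sin x := mul_le_mul_of_nonneg_left h2 h0.le
  refine le_trans ?_ h3
  have h4 := Real.sin_gt_sub_cube h0
  have h5 : x / 6 ≤ 2 / Real.pi := by
    rw [div_le_div_iff₀ (by norm_num) hpi]
    norm_num at hpi4
    nlinarith
  have h6 : x * (x / 6 * x) ≤ x * (2 / Real.pi * x) := by
    apply mul_le_mul_of_nonneg_left _ h0.le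
    exact mul_le_mul_of_nonneg_right h5 h0.le
  nlinarith [mul_pos h0 h0]

/-- sharp upper bound of the angular average -/
lemma angle_upper (K : ℝ) (hK : 0 < K) (θ0 : ℝ) :
    ∫ θ, 1 / (1 + K * sn θ θ0) ∂angleLaw ≤
      2 / (Real.pi * K) * Real.log (1 + Real.pi * K / 2) + 1 / K := by
  have hpi := Real.pi_pos
  rw [angle_avg_abs 1 K one_pos hK.le θ0]
  have h1 : ∫ x in (0 : ℝ)..(Real.pi / 2), 1 / (1 + K * Real.sin x) ≤
      ∫ x in (0 : ℝ)..(Real.pi / 2), (1 / (1 + K * x) + 1 / K) := by
    apply intervalIntegral.integral_mono_on (by positivity) (integ_sin 1 K one_pos hK.le)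
      ((integ_lin 1 K one_pos hK.le).add (by simp))
    intro x hx
    have h0 := Real.sin_nonneg_of_nonneg_of_le_pi hx.1 (by linarith [hx.2])
    have h2 := sin_aux hx.1 hx.2
    have hx0 := hx.1
    rw [← sub_le_iff_le_add', div_sub_div _ _ (by positivity) (by positivity),
      div_le_div_iff₀ (by positivity) hK]
    nlinarith [mul_nonneg hK.le h0, mul_nonneg hK.le hx0, mul_nonneg (mul_nonneg hK.le h0)
      (mul_nonneg hK.le hx0), mul_nonneg (mul_nonneg hK.le hK.le) (sub_nonneg.2 h2)]
  rw [intervalIntegral.integral_add (integ_lin 1 K one_pos hK.le) (by simp),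
    integral_inv_lin 1 K _ one_pos hK (by positivity), intervalIntegral.integral_const] at h1
  have h3 := mul_le_mul_of_nonneg_left h1 (show 0 ≤ 2 / Real.pi by positivity)
  refine h3.trans (le_of_eq ?_)
  rw [smul_eq_mul, show 1 + K * (Real.pi / 2) / 1 = 1 + Real.pi * K / 2 by ring]
  field_simp
  ring

/-- crude upper bound of the angular average -/
lemma angle_crude (K : ℝ) (hK : 0 < K) (θ0 : ℝ) :
    ∫ θ, 1 / (1 + K * sn θ θ0) ∂angleLaw ≤ 1 / K * Real.log (1 + K) := by
  have hpi := Real.pi_pos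
  rw [angle_avg_abs 1 K one_pos hK.le θ0]
  have hK' : 0 < K * (2 / Real.pi) := by positivity
  have h1 : ∫ x in (0 : ℝ)..(Real.pi / 2), 1 / (1 + K * Real.sin x) ≤
      ∫ x in (0 : ℝ)..(Real.pi / 2), 1 / (1 + K * (2 / Real.pi) * x) := by
    apply intervalIntegral.integral_mono_on (by positivity) (integ_sin 1 K one_pos hK.le)
      (integ_lin 1 _ one_pos hK'.le)
    intro x hx
    have hx0 := hx.1
    apply one_div_le_one_div_of_le (by positivity)
    have := Real.mul_le_sin hx.1 hx.2
    nlinarith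
  rw [integral_inv_lin 1 _ _ one_pos hK' (by positivity)] at h1
  have h3 := mul_le_mul_of_nonneg_left h1 (show 0 ≤ 2 / Real.pi by positivity)
  refine h3.trans (le_of_eq ?_)
  rw [show K * (2 / Real.pi) * (Real.pi / 2) / 1 = K by field_simp]
  field_simp

end

end Pool.Agent.Helper49.HRG
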