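import Pool.Agent.Helper49.HRG.LargeProb

open MeasureTheory Set Filter Topology
open scoped ENNReal

namespace Pool.Agent.Helper49.HRG

noncomputable section

/-- arc constant -/
def Lam : ℝ := Real.exp 384

/-- small exponent -/
def gam : ℝ := (1 - Real.exp (-(1 / 16))) / (2 * Lam)

lemma Lam_ge : 385 ≤ Lam := by
  have := Real.add_one_le_exp (384 : ℝ)
  unfold Lam; linarith

lemma gam_pos : 0 < gam := by
  unfold gam
  have h1 := Lam_ge
  have h2 : Real.exp (-(1 / 16)) < 1 :=
    (Real.exp_lt_exp.2 (by norm_num : (-(1 / 16) : ℝ) < 0)).trans_eq Real.exp_zero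
  have : 0 < 1 - Real.exp (-(1 / 16)) := by linarith
  positivity

lemma gam_le : gam ≤ 1 / 64 := by
  unfold gam
  have h1 := Lam_ge
  have h2 := Real.exp_pos (-(1 / 16 : ℝ))
  rw [div_le_div_iff₀ (by positivity) (by norm_num)]
  linarith

/-- number of arcs -/
def numArc (N : ℕ) : ℕ := ⌈Lam * N / Real.log N⌉₊

/-- good positions -/
def Good (ζ : ℝ) (N : ℕ) (hA : 0 < numArc N) : Set (Fin N → ℝ × ℝ) :=
  {x | (∀ u, (x u).1 ∈ Icc 0 (discRadius ζ N)) ∧ (∀ u, (x u).2 ∈ Ioc 0 (2 * Real.pi)) ∧
    (∀ u, ¬ (∑ w ∈ Finset.univ.erase u, 1 / (2 * Real.log N + N * sn (x u).2 (x w).2) <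
      Real.log N / 8)) ∧
    (∀ j, ¬ (Real.log N / 128 ≤ (arc (fun u => bidx (numArc N) hA (x u).2) j).card)) ∧
    ¬ (Real.exp ((1 - gam / 2) * Real.log N) ≤
      ∑ j, Real.exp (-((arc (fun u => bidx (numArc N) hA (x u).2) j).card / 16)))}

lemma good_meas {ζ α : ℝ} (hζ : 0 < ζ) (hα : 0 < α) {N : ℕ} (hN : 2 ≤ N) (hA : 0 < numArc N) :
    MeasurableSet (Good ζ N hA) := by
  have hL : 0 < Real.log N := Real.log_pos (by exact_mod_cast (by omega : 1 < N))
  have e1 : ∀ u : Fin N, Measurable (fun x : Fin N → ℝ × ℝ => (x u).1) := fun u => by fun_prop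
  have e2 : ∀ u : Fin N, Measurable (fun x : Fin N → ℝ × ℝ => (x u).2) := fun u => by fun_prop
  have h1 : MeasurableSet (⋂ u : Fin N, {x : Fin N → ℝ × ℝ | (x u).1 ∈ Icc 0 (discRadius ζ N)}) :=
    MeasurableSet.iInter fun u => e1 u measurableSet_Icc
  have h2 : MeasurableSet (⋂ u : Fin N, {x : Fin N → ℝ × ℝ | (x u).2 ∈ Ioc 0 (2 * Real.pi)}) :=
    MeasurableSet.iInter fun u => e2 u measurableSet_Ioc
  have h3 : MeasurableSet (⋂ u : Fin N, {x : Fin N → ℝ × ℝ |
      ¬ (∑ w ∈ Finset.univ.erase u, 1 / (2 * Real.log N + N * sn (x u).2 (x w).2) <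
      Real.log N / 8)}) := by
    refine MeasurableSet.iInter fun u => ?_
    have e3 : Measurable (fun x : Fin N → ℝ × ℝ =>
        ∑ w ∈ Finset.univ.erase u, 1 / (2 * Real.log N + N * sn (x u).2 (x w).2)) := by
      refine Finset.measurable_sum _ fun w _ => ?_
      unfold sn
      fun_prop
    have e4 : MeasurableSet {x : Fin N → ℝ × ℝ |
        ∑ w ∈ Finset.univ.erase u, 1 / (2 * Real.log N + N * sn (x u).2 (x w).2) <
        Real.log N / 8} := measurableSet_lt e3 measurable_const
    exact e4.compl
  have h4 : MeasurableSet (⋂ j : Fin (numArc N), {x : Fin N → ℝ × ℝ |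
      ¬ (Real.log N / 128 ≤ (arc (fun u => bidx (numArc N) hA (x u).2) j).card)}) := by
    refine MeasurableSet.iInter fun j => ?_
    have e3 := arc_card_meas hζ hα hN hA j
    have e4 : MeasurableSet {x : Fin N → ℝ × ℝ |
        Real.log N / 128 ≤ (arc (fun u => bidx (numArc N) hA (x u).2) j).card} :=
      measurableSet_le measurable_const e3
    exact e4.compl
  have h5 : MeasurableSet {x : Fin N → ℝ × ℝ |
      ¬ (Real.exp ((1 - gam / 2) * Real.log N) ≤
      ∑ j, Real.exp (-((arc (fun u => bidx (numArc N) hA (x u).2) j).card / 16)))} := by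
    have e3 : Measurable (fun x : Fin N → ℝ × ℝ =>
        ∑ j, Real.exp (-((arc (fun u => bidx (numArc N) hA (x u).2) j).card / 16))) := by
      refine Finset.measurable_sum _ fun j _ => ?_
      exact Real.measurable_exp.comp ((arc_card_meas hζ hα hN hA j).div_const _).neg
    have e4 : MeasurableSet {x : Fin N → ℝ × ℝ | Real.exp ((1 - gam / 2) * Real.log N) ≤
        ∑ j, Real.exp (-((arc (fun u => bidx (numArc N) hA (x u).2) j).card / 16))} :=
      measurableSet_le measurable_const e3
    exact e4.compl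
  have h6 := h1.inter (h2.inter (h3.inter (h4.inter h5)))
  refine (congrArg MeasurableSet ?_).mp h6
  ext x
  simp [Good]

/-- bound for the large sets -/
def Blarge (N : ℕ) : ℝ :=
  (Real.exp (Real.log N - Real.log N ^ 2 / 8) + Real.exp (-Real.log N) +
    Real.exp (-(gam / 2 * Real.log N))) +
    Real.exp (-Real.exp ((1 - gam / 2) * Real.log N))

lemma Blarge_tendsto : Tendsto Blarge atTop (𝓝 0) := by
  have hg := gam_pos
  have hg2 := gam_le
  have h1 : Tendsto (fun N : ℕ => Real.exp (Real.log N - Real.log N ^ 2 / 8)) atTop (𝓝 0) := by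
    have : Tendsto (fun x : ℝ => x - x ^ 2 / 8) atTop atBot := by
      have e1 : Tendsto (fun x : ℝ => x * (x / 8 - 1)) atTop atTop := by
        refine tendsto_id.atTop_mul_atTop₀ ?_
        exact tendsto_atTop_add_const_right _ _ (tendsto_id.atTop_div_const (by norm_num))
      have e2 := tendsto_neg_atTop_atBot.comp e1
      refine e2.congr fun x => ?_
      simp only [Function.comp]
      ring
    exact Real.tendsto_exp_atBot.comp (this.comp log_tendsto)
  have h2 : Tendsto (fun N : ℕ => Real.exp (-Real.log N)) atTop (𝓝 0) :=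
    Real.tendsto_exp_neg_atTop_nhds_zero.comp log_tendsto
  have h3 : Tendsto (fun N : ℕ => Real.exp (-(gam / 2 * Real.log N))) atTop (𝓝 0) :=
    Real.tendsto_exp_neg_atTop_nhds_zero.comp (log_tendsto.const_mul_atTop (by positivity))
  have h4 : Tendsto (fun N : ℕ => Real.exp (-Real.exp ((1 - gam / 2) * Real.log N))) atTop
      (𝓝 0) :=
    Real.tendsto_exp_neg_atTop_nhds_zero.comp (Real.tendsto_exp_atTop.comp
      (log_tendsto.const_mul_atTop (by linarith)))
  have h5 := ((h1.add h2).add h3).add h4
  have h6 : (0 : ℝ) + 0 + 0 + 0 = 0 := by norm_num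
  rw [h6] at h5
  exact h5

lemma large_tendsto {ζ α : ℝ} (hζ : 0 < ζ) (hα : 0 < α) :
    Tendsto (fun N : ℕ => (muN ζ α N).real {ω | ∃ S : Finset (Fin N),
      Real.exp ((1 - gam / 4) * Real.log N) < S.card ∧ 2 * S.card ≤ N ∧ Iso (GG ζ N ω) S})
      atTop (𝓝 0) := by
  classical
  have hg := gam_pos
  have hg2 := gam_le
  have hLam := Lam_ge
  refine tendsto_of_tendsto_of_tendsto_of_le_of_le' tendsto_const_nhds Blarge_tendsto
    (Eventually.of_forall fun N => measureReal_nonneg) ?_
  have hF6 : ∀ᶠ N : ℕ in atTop, Real.log N / 2 ≤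
      2 / Real.pi * Real.log (1 + Real.pi * N / (2 * (2 * Real.log N))) := by
    have h2 : (fun x : ℝ => Real.log x) =o[atTop] (fun x : ℝ => x) := Real.isLittleO_log_id_atTop
    have h4 : Tendsto (fun x : ℝ => Real.log x / x) atTop (𝓝 0) := h2.tendsto_div_nhds_zero
    have h5 := h4.comp log_tendsto
    filter_upwards [h5.eventually (ge_mem_nhds (show (0 : ℝ) < 1 / 100 by norm_num)),
      log_tendsto.eventually_ge_atTop 1000, eventually_ge_atTop 2] with N hN1 hN2 hN3
    have hN' : (0 : ℝ) < N := by exact_mod_cast (by omega : 0 < N)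
    have hL : 0 < Real.log N := by linarith
    have hpi := Real.pi_gt_three
    have hpi2 := Real.pi_lt_d2
    simp only [Function.comp] at hN1
    rw [div_le_iff₀ hL] at hN1
    have h6 : Real.log N - Real.log (Real.log N) - 1 ≤
        Real.log (1 + Real.pi * N / (2 * (2 * Real.log N))) := by
      have h7 : Real.log (N / (Real.exp 1 * Real.log N)) =
          Real.log N - Real.log (Real.log N) - 1 := by
        rw [Real.log_div hN'.ne' (by positivity), Real.log_mul (by positivity) hL.ne',
          Real.log_exp]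
        ring
      rw [← h7]
      apply Real.log_le_log (by positivity)
      have : N / (Real.exp 1 * Real.log N) ≤ Real.pi * N / (2 * (2 * Real.log N)) := by
        rw [div_le_div_iff₀ (by positivity) (by positivity)]
        have h8 : 4 ≤ Real.pi * Real.exp 1 := by
          have := Real.exp_one_gt_d9
          nlinarith
        have h9 : 0 < N * Real.log N := by positivity
        nlinarith
      linarith
    have h10 : (0.63 : ℝ) ≤ 2 / Real.pi := by
      rw [le_div_iff₀ (by positivity)]; norm_num at hpi2 ⊢; linarith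
    have h11 : 0.9 * Real.log N ≤ Real.log (1 + Real.pi * N / (2 * (2 * Real.log N))) := by
      refine le_trans ?_ h6
      norm_num
      linarith
    calc Real.log N / 2 ≤ 0.63 * (0.9 * Real.log N) := by norm_num; linarith
      _ ≤ _ := mul_le_mul h10 h11 (by positivity) (by positivity)
  filter_upwards [hF6, log_tendsto.eventually_ge_atTop (2 * Lam), eventually_ge_atTop 4,
    (Real.tendsto_exp_atTop.comp (log_tendsto.const_mul_atTop (show 0 < gam / 4 by
      positivity))).eventually_ge_atTop 48] with N hlog hL2 hN4 h48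
  simp only [Function.comp] at h48
  have hN : 2 ≤ N := by omega
  have hN1 : 1 ≤ N := by omega
  have hN' : (0 : ℝ) < N := by exact_mod_cast hN1
  have hp := point_prob hζ hα hN
  have hr := rad_prob hζ hα hN
  have hcn := conn ζ 1 N
  set L := Real.log N with hLdef
  have hL3 : 700 ≤ L := by linarith
  have hL0 : 0 < L := by linarith
  have hexpL : Real.exp L = N := Real.exp_log hN'
  -- number of arcs
  set A := numArc N with hAdef
  have hLN : L ≤ N := by
    have := Real.log_le_sub_one_of_pos hN'
    linarith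
  have hA1 : Lam * N / L ≤ A := Nat.le_ceil _
  have hone : 1 ≤ Lam * N / L := by
    rw [one_le_div hL0]
    exact hLN.trans (le_mul_of_one_le_left hN'.le (by linarith))
  have hA' : (0 : ℝ) < A := by linarith
  have hA : 0 < A := by exact_mod_cast hA'
  have hA2 : (A : ℝ) ≤ 2 * (Lam * N / L) := by
    have := Nat.ceil_lt_add_one (show 0 ≤ Lam * N / L by positivity)
    have e : (A : ℝ) < Lam * N / L + 1 := this
    linarith
  have hF2 : (N : ℝ) / A ≤ L / Lam := by
    rw [div_le_div_iff₀ hA' (by positivity)]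
    rw [div_le_iff₀ hL0] at hA1
    linarith
  have hF3 : L / (2 * Lam) ≤ N / A := by
    rw [div_le_div_iff₀ (by positivity) hA']
    have : (A : ℝ) * L ≤ 2 * (Lam * N) := by
      have := mul_le_mul_of_nonneg_right hA2 hL0.le
      have e : 2 * (Lam * N / L) * L = 2 * (Lam * N) := by field_simp
      linarith
    linarith
  have hF4 : (A : ℝ) ≤ N := by
    refine hA2.trans ?_
    rw [← mul_div_assoc, div_le_iff₀ hL0]
    have := mul_le_mul_of_nonneg_left hL2 hN'.le
    linarith
  have hpi := Real.pi_lt_d2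
  have hpi0 := Real.pi_pos
  have hF5 : 3 + N * Real.pi / A ≤ 2 * L := by
    have e1 : N * Real.pi / A = N / A * Real.pi := by ring
    have e2 : N / A * Real.pi ≤ L / Lam * Real.pi := mul_le_mul_of_nonneg_right hF2 hpi0.le
    have e3 : L / Lam * Real.pi ≤ L := by
      rw [div_mul_eq_mul_div, div_le_iff₀ (by positivity)]
      norm_num at hpi
      exact mul_le_mul_of_nonneg_left (by linarith) hL0.le
    linarith
  -- probability of bad positions
  have hbad : (Measure.pi fun _ : Fin N => pointLaw ζ α N).real (Good ζ N hA)ᶜ ≤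
      Real.exp (L - L ^ 2 / 8) + Real.exp (-L) + Real.exp (-(gam / 2 * L)) := by
    have hsub : (Good ζ N hA)ᶜ ⊆
        ({x | ¬ ∀ u, (x u).1 ∈ Icc 0 (discRadius ζ N)} ∪ {x | ¬ ∀ u, (x u).2 ∈ Ioc 0 (2 * Real.pi)})
        ∪ (((⋃ u ∈ (Finset.univ : Finset (Fin N)),
            {x | ∑ w ∈ Finset.univ.erase u, 1 / (2 * L + N * sn (x u).2 (x w).2) < L / 8}) ∪
          (⋃ j ∈ (Finset.univ : Finset (Fin A)),
            {x | L / 128 ≤ (arc (fun u => bidx A hA (x u).2) j).card})) ∪
          {x | Real.exp ((1 - gam / 2) * L) ≤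
            ∑ j, Real.exp (-((arc (fun u => bidx A hA (x u).2) j).card / 16))}) := by
      intro x hx
      simp only [mem_union, mem_iUnion, mem_ofPred_eq, Finset.mem_univ, exists_prop, true_and]
      by_contra hcon
      push Not at hcon
      apply hx
      obtain ⟨⟨c1, c2⟩, ⟨c3, c4⟩, c5⟩ := hcon
      exact ⟨c1, c2, fun u => not_lt.2 (c3 u), fun j => not_le.2 (c4 j), not_le.2 c5⟩
    have m1 : (Measure.pi fun _ : Fin N => pointLaw ζ α N).real
        {x | ¬ ∀ u, (x u).1 ∈ Icc 0 (discRadius ζ N)} = 0 := by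
      rw [measureReal_def, (ae_iff.1 (pi_support hζ hα hN)), ENNReal.toReal_zero]
    have m2 : (Measure.pi fun _ : Fin N => pointLaw ζ α N).real
        {x | ¬ ∀ u, (x u).2 ∈ Ioc 0 (2 * Real.pi)} = 0 := by
      rw [measureReal_def, (ae_iff.1 (pi_support2 hζ hα hN)), ENNReal.toReal_zero]
    have m3 : (Measure.pi fun _ : Fin N => pointLaw ζ α N).real
        (⋃ u ∈ (Finset.univ : Finset (Fin N)),
            {x | ∑ w ∈ Finset.univ.erase u, 1 / (2 * L + N * sn (x u).2 (x w).2) < L / 8}) ≤
        Real.exp (L - L ^ 2 / 8) := by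
      refine (measureReal_biUnion_finset_le _ _).trans ?_
      refine (Finset.sum_le_sum fun u _ => low_prob hζ hα hN hL0 hN4 hlog u).trans ?_
      rw [Finset.sum_const, Finset.card_univ, Fintype.card_fin, nsmul_eq_mul]
      refine le_of_eq ?_
      nth_rw 1 [← hexpL]
      rw [← Real.exp_add]
      congr 1
    have m4 : (Measure.pi fun _ : Fin N => pointLaw ζ α N).real
        (⋃ j ∈ (Finset.univ : Finset (Fin A)),
            {x | L / 128 ≤ (arc (fun u => bidx A hA (x u).2) j).card}) ≤ Real.exp (-L) := by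
      refine (measureReal_biUnion_finset_le _ _).trans ?_
      refine (Finset.sum_le_sum fun j _ => full_prob hζ hα hN hA j (c := 384) (t := L / 128)
        (by norm_num)).trans ?_
      rw [Finset.sum_const, Finset.card_univ, Fintype.card_fin, nsmul_eq_mul]
      have e1 : (Real.exp 384 - 1) * (N / A) ≤ L := by
        have : (Real.exp 384 - 1) * (N / A) ≤ Lam * (L / Lam) := by
          apply mul_le_mul _ hF2 (by positivity) (by positivity)
          unfold Lam; linarith
        rwa [mul_div_cancel₀] at this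
        positivity
      calc (A : ℝ) * Real.exp ((Real.exp 384 - 1) * (N / A) - 384 * (L / 128))
          ≤ Real.exp L * Real.exp (L - 384 * (L / 128)) := by
            apply mul_le_mul (by rw [hexpL]; exact hF4) (Real.exp_le_exp.2 (by linarith))
              (Real.exp_pos _).le (Real.exp_pos _).le
        _ = Real.exp (-L) := by rw [← Real.exp_add]; congr 1; ring
    have m5 : (Measure.pi fun _ : Fin N => pointLaw ζ α N).real
        {x | Real.exp ((1 - gam / 2) * L) ≤
            ∑ j, Real.exp (-((arc (fun u => bidx A hA (x u).2) j).card / 16))} ≤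
        Real.exp (-(gam / 2 * L)) := by
      refine (light_prob hζ hα hN hA (Real.exp_pos _)).trans ?_
      have e1 : (Real.exp (-(1 / 16)) - 1) * (N / A) ≤ -(gam * L) := by
        have e2 : gam * L = (1 - Real.exp (-(1 / 16))) * (L / (2 * Lam)) := by
          unfold gam; ring
        rw [e2]
        have e3 : 0 ≤ 1 - Real.exp (-(1 / 16 : ℝ)) := by
          have : Real.exp (-(1 / 16 : ℝ)) < 1 :=
              (Real.exp_lt_exp.2 (by norm_num : (-(1 / 16) : ℝ) < 0)).trans_eq Real.exp_zero
          linarith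
        have := mul_le_mul_of_nonneg_left hF3 e3
        linarith
      calc (A : ℝ) * Real.exp ((Real.exp (-(1 / 16)) - 1) * (N / A)) /
            Real.exp ((1 - gam / 2) * L) ≤
          Real.exp L * Real.exp (-(gam * L)) / Real.exp ((1 - gam / 2) * L) := by
            apply div_le_div_of_nonneg_right _ (Real.exp_pos _).le
            apply mul_le_mul (by rw [hexpL]; exact hF4) (Real.exp_le_exp.2 e1)
              (Real.exp_pos _).le (Real.exp_pos _).le
        _ = Real.exp (-(gam / 2 * L)) := by
            rw [← Real.exp_add, ← Real.exp_sub]; congr 1; ring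
    calc _ ≤ _ := measureReal_mono hsub (measure_ne_top _ _)
      _ ≤ _ := measureReal_union_le _ _
      _ ≤ (0 + 0) + ((Real.exp (L - L ^ 2 / 8) + Real.exp (-L)) + Real.exp (-(gam / 2 * L))) := by
          refine add_le_add ((measureReal_union_le _ _).trans (by rw [m1, m2])) ?_
          refine (measureReal_union_le _ _).trans (add_le_add ?_ m5)
          exact (measureReal_union_le _ _).trans (add_le_add m3 m4)
      _ = _ := by ring
  -- main union bound
  set P : Finset (Finset (Fin N)) := Finset.univ.filter fun S =>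
    Real.exp ((1 - gam / 4) * L) < S.card ∧ 2 * S.card ≤ N with hP
  have hsub2 : {ω | ∃ S : Finset (Fin N), Real.exp ((1 - gam / 4) * L) < S.card ∧
      2 * S.card ≤ N ∧ Iso (GG ζ N ω) S} ⊆
      {ω | ω.1 ∈ (Good ζ N hA)ᶜ} ∪ ⋃ S ∈ P, {ω | ω.1 ∈ Good ζ N hA ∧
        (∀ u ∈ (∅ : Finset (Fin N)), (GG ζ N ω).Adj u (id u)) ∧ Iso (GG ζ N ω) S} := by
    rintro ω ⟨S, h1, h2, h3⟩
    by_cases hω : ω.1 ∈ Good ζ N hA
    · right
      simp only [mem_iUnion]
      exact ⟨S, Finset.mem_filter.2 ⟨Finset.mem_univ _, h1, h2⟩, hω, by simp, h3⟩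
    · left; exact hω
  have hfst : (muN ζ α N).real {ω | ω.1 ∈ (Good ζ N hA)ᶜ} =
      (Measure.pi fun _ : Fin N => pointLaw ζ α N).real (Good ζ N hA)ᶜ := by
    have e1 : MeasurePreserving (Prod.fst : (Fin N → ℝ × ℝ) × (Sym2 (Fin N) → ℝ) → _)
        (muN ζ α N) (Measure.pi fun _ : Fin N => pointLaw ζ α N) := by
      unfold muN law
      exact measurePreserving_fst
    exact e1.measureReal_preimage (good_meas hζ hα hN hA).compl.nullMeasurableSet
  have hmain : ∑ S ∈ P, (muN ζ α N).real {ω | ω.1 ∈ Good ζ N hA ∧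
        (∀ u ∈ (∅ : Finset (Fin N)), (GG ζ N ω).Adj u (id u)) ∧ Iso (GG ζ N ω) S} ≤
      Real.exp (-Real.exp ((1 - gam / 2) * L)) := by
    have e1 : ∀ S ∈ P, (muN ζ α N).real {ω | ω.1 ∈ Good ζ N hA ∧
        (∀ u ∈ (∅ : Finset (Fin N)), (GG ζ N ω).Adj u (id u)) ∧ Iso (GG ζ N ω) S} =
        ∫ x in Good ζ N hA, ∏ v ∈ Sᶜ, ∏ u ∈ S, (1 - edgeProb ζ 1 N (x u) (x v))
          ∂(Measure.pi fun _ : Fin N => pointLaw ζ α N) := by
      intro S _
      have := iso_prob (pointLaw ζ α N) hcn (Good ζ N hA) (good_meas hζ hα hN hA) S ∅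
        (by simp) id (by simp)
      simp only [Finset.prod_empty, one_mul] at this
      exact this
    have hterm01 : ∀ (S : Finset (Fin N)) (x : Fin N → ℝ × ℝ),
        ∏ v ∈ Sᶜ, ∏ u ∈ S, (1 - edgeProb ζ 1 N (x u) (x v)) ∈ Icc (0 : ℝ) 1 := by
      intro S x
      have h0 : ∀ v, 0 ≤ ∏ u ∈ S, (1 - edgeProb ζ 1 N (x u) (x v)) := fun v =>
        Finset.prod_nonneg fun u _ => by linarith [hcn.le_one (x u) (x v)]
      refine ⟨Finset.prod_nonneg fun v _ => h0 v, Finset.prod_le_one (fun v _ => h0 v) fun v _ => ?_⟩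
      exact Finset.prod_le_one (fun u _ => by linarith [hcn.le_one (x u) (x v)])
        fun u _ => by linarith [hcn.nonneg (x u) (x v)]
    have hint : ∀ S ∈ P, Integrable (fun x : Fin N → ℝ × ℝ =>
        ∏ v ∈ Sᶜ, ∏ u ∈ S, (1 - edgeProb ζ 1 N (x u) (x v)))
        ((Measure.pi fun _ : Fin N => pointLaw ζ α N).restrict (Good ζ N hA)) := by
      intro S _
      refine Integrable.of_bound (C := 1) ?_ (Eventually.of_forall fun x => ?_)
      · refine Measurable.aestronglyMeasurable ?_
        refine Finset.measurable_prod _ fun v _ => Finset.measurable_prod _ fun u _ => ?_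
        exact measurable_const.sub
          (hcn.meas_comp (measurable_pi_apply u) (measurable_pi_apply v))
      · rw [Real.norm_of_nonneg (hterm01 S x).1]
        exact (hterm01 S x).2
    rw [Finset.sum_congr rfl e1, ← integral_finsetSum _ hint]
    have hpt : ∀ x ∈ Good ζ N hA, ∑ S ∈ P, ∏ v ∈ Sᶜ, ∏ u ∈ S,
        (1 - edgeProb ζ 1 N (x u) (x v)) ≤ Real.exp (-Real.exp ((1 - gam / 2) * L)) := by
      intro x hx
      obtain ⟨g1, g2, g3, g4, g5⟩ := hx
      have hsumle := large_sum (fun u => bidx A hA (x u).2) (fun u => (x u).2)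
        (fun u v => edgeProb ζ 1 N (x u) (x v)) L (by omega)
        (fun u v => by
          refine le_trans ?_ (edge_lower hζ hN1 (x u) (x v) (g1 u) (g1 v))
          have w1 := one_le_wt hζ hN1 (g1 u).2
          have w2 := one_le_wt hζ hN1 (g1 v).2
          have s0 := sn_nonneg (x u).2 (x v).2
          apply one_div_le_one_div_of_le (by positivity)
          have : N * sn (x u).2 (x v).2 / (wt ζ N (x u).1 * wt ζ N (x v).1) ≤
              N * sn (x u).2 (x v).2 := by
            apply div_le_self (by positivity)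
            exact one_le_mul_of_one_le_of_one_le w1 w2
          linarith)
        (fun u v => hcn.le_one _ _) (fun u v => hcn.symm _ _)
        (fun u v huv => bidx_close hA (g2 u).1 (g2 u).2 (g2 v).1 (g2 v).2 huv) hA
        (by linarith) hF5 (fun u => not_lt.1 (g3 u)) (Real.exp ((1 - gam / 4) * L)) P
        (fun S hS => by
          have := (Finset.mem_filter.1 hS).2
          exact ⟨this.1.le, this.2⟩)
      refine hsumle.trans (Real.exp_le_exp.2 ?_)
      rw [Finset.sum_add_distrib]
      have s1 := not_le.1 g5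
      have s2 : ∑ j : Fin A, (2 : ℝ) ^ (arc (fun u => bidx A hA (x u).2) j).card *
          Real.exp (-(L / 64)) ≤ Real.exp ((1 - gam / 2) * L) := by
        have s3 : ∀ j ∈ (Finset.univ : Finset (Fin A)),
            (2 : ℝ) ^ (arc (fun u => bidx A hA (x u).2) j).card * Real.exp (-(L / 64)) ≤
            Real.exp (-(L / 128)) := by
          intro j _
          have s4 := not_le.1 (g4 j)
          have s5 : (2 : ℝ) ^ (arc (fun u => bidx A hA (x u).2) j).card ≤ Real.exp (L / 128) := by
            have s6 : (2 : ℝ) ≤ Real.exp 1 := by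
              have := Real.exp_one_gt_d9; linarith
            calc (2 : ℝ) ^ (arc (fun u => bidx A hA (x u).2) j).card ≤
                Real.exp 1 ^ (arc (fun u => bidx A hA (x u).2) j).card :=
                  pow_le_pow_left₀ (by norm_num) s6 _
              _ = Real.exp ((arc (fun u => bidx A hA (x u).2) j).card) := by
                  rw [← Real.exp_nat_mul, mul_one]
              _ ≤ _ := Real.exp_le_exp.2 s4.le
          calc _ ≤ Real.exp (L / 128) * Real.exp (-(L / 64)) :=
                mul_le_mul_of_nonneg_right s5 (Real.exp_pos _).le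
            _ = _ := by rw [← Real.exp_add]; congr 1; ring
        refine (Finset.sum_le_sum s3).trans ?_
        rw [Finset.sum_const, Finset.card_univ, Fintype.card_fin, nsmul_eq_mul]
        calc (A : ℝ) * Real.exp (-(L / 128)) ≤ Real.exp L * Real.exp (-(L / 128)) := by
              apply mul_le_mul_of_nonneg_right _ (Real.exp_pos _).le
              rw [hexpL]; exact hF4
          _ ≤ _ := by
              rw [← Real.exp_add]
              apply Real.exp_le_exp.2
              have := mul_le_mul_of_nonneg_right hg2 hL0.le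
              linarith
      have s7 : Real.exp ((1 - gam / 4) * L) =
          Real.exp ((1 - gam / 2) * L) * Real.exp (gam / 4 * L) := by
        rw [← Real.exp_add]; congr 1; ring
      have s8 := Real.exp_pos ((1 - gam / 2) * L)
      have s9 : Real.exp ((1 - gam / 2) * L) * 48 ≤
          Real.exp ((1 - gam / 2) * L) * Real.exp (gam / 4 * L) :=
        mul_le_mul_of_nonneg_left h48 s8.le
      rw [s7]
      linarith
    calc _ ≤ ∫ _x in Good ζ N hA, Real.exp (-Real.exp ((1 - gam / 2) * L))
          ∂(Measure.pi fun _ : Fin N => pointLaw ζ α N) := by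
          refine setIntegral_mono_on (integrable_finsetSum _ hint) (integrable_const _)
            (good_meas hζ hα hN hA) hpt
      _ ≤ _ := by
          rw [setIntegral_const, smul_eq_mul]
          exact mul_le_of_le_one_left (Real.exp_pos _).le measureReal_le_one
  calc _ ≤ _ := measureReal_mono hsub2 (measure_ne_top _ _)
    _ ≤ _ := measureReal_union_le _ _
    _ ≤ (Real.exp (L - L ^ 2 / 8) + Real.exp (-L) + Real.exp (-(gam / 2 * L))) +
        Real.exp (-Real.exp ((1 - gam / 2) * L)) := by
        refine add_le_add (hfst.le.trans hbad) ?_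
        exact (measureReal_biUnion_finset_le _ _).trans hmain
    _ = Blarge N := rfl

end

end Pool.Agent.Helper49.HRG
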