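import Pool.Agent.Helper49.HRG.SmallSum
import Pool.Agent.Helper49.HRG.LargeSum

open MeasureTheory Set Filter Topology
open scoped ENNReal

namespace Pool.Agent.Helper49.HRG

noncomputable section

/-- domination lemma: a set without internally isolated vertices has a subset of at least half its
size each vertex of which has a neighbour outside the subset -/
lemma exists_half {N : ℕ} (G : SimpleGraph (Fin N)) (S : Finset (Fin N))
    (h : ∀ u ∈ S, ∃ v ∈ S, G.Adj u v) :
    ∃ D ⊆ S, S.card ≤ 2 * D.card ∧ ∀ u ∈ D, ∃ v ∈ S \ D, G.Adj u v := by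
  classical
  set P : Finset (Finset (Fin N)) := S.powerset.filter
    (fun D => ∀ v ∈ S \ D, ∃ w ∈ D, G.Adj v w) with hP
  have hne : P.Nonempty := by
    refine ⟨S, ?_⟩
    rw [hP, Finset.mem_filter, Finset.mem_powerset]
    refine ⟨subset_rfl, fun v hv => ?_⟩
    simp at hv
  obtain ⟨D, hD, hmin⟩ := Finset.exists_min_image P Finset.card hne
  rw [hP, Finset.mem_filter, Finset.mem_powerset] at hD
  obtain ⟨hDS, hdom⟩ := hD
  -- every vertex of `D` has a neighbour outside `D`
  have hout : ∀ u ∈ D, ∃ v ∈ S \ D, G.Adj u v := by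
    intro u hu
    by_contra hcon
    push Not at hcon
    have hmem : D.erase u ∈ P := by
      rw [hP, Finset.mem_filter, Finset.mem_powerset]
      refine ⟨(Finset.erase_subset _ _).trans hDS, ?_⟩
      intro v hv
      rw [Finset.mem_sdiff] at hv
      by_cases hvu : v = u
      · subst hvu
        obtain ⟨w, hw, hvw⟩ := h v hv.1
        refine ⟨w, ?_, hvw⟩
        rw [Finset.mem_erase]
        refine ⟨hvw.ne', ?_⟩
        by_contra hwD
        exact hcon w (Finset.mem_sdiff.2 ⟨hw, hwD⟩) hvw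
      · have hvD : v ∉ D := fun hvD => hv.2 (Finset.mem_erase.2 ⟨hvu, hvD⟩)
        have hvSD : v ∈ S \ D := Finset.mem_sdiff.2 ⟨hv.1, hvD⟩
        obtain ⟨w, hw, hvw⟩ := hdom v hvSD
        refine ⟨w, ?_, hvw⟩
        rw [Finset.mem_erase]
        refine ⟨?_, hw⟩
        rintro rfl
        exact hcon v hvSD hvw.symm
    have h1 := hmin _ hmem
    have h2 := Finset.card_erase_lt_of_mem hu
    omega
  have hcard : (S \ D).card + D.card = S.card := Finset.card_sdiff_add_card_eq_card hDS
  by_cases hc : S.card ≤ 2 * D.card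
  · exact ⟨D, hDS, hc, hout⟩
  · refine ⟨S \ D, Finset.sdiff_subset, by omega, ?_⟩
    intro u hu
    obtain ⟨w, hw, huw⟩ := hdom u hu
    refine ⟨w, ?_, huw⟩
    rw [Finset.sdiff_sdiff_eq_self hDS]
    exact hw

lemma exists_iso {N : ℕ} (hN : 1 ≤ N) (G : SimpleGraph (Fin N)) (h : ¬ G.Connected) :
    ∃ S : Finset (Fin N), 1 ≤ S.card ∧ 2 * S.card ≤ N ∧ Iso G S := by
  classical
  have : Nonempty (Fin N) := ⟨⟨0, by omega⟩⟩
  rw [SimpleGraph.connected_iff] at h
  have h1 : ¬ G.Preconnected := fun hp => h ⟨hp, this⟩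
  unfold SimpleGraph.Preconnected at h1
  push Not at h1
  obtain ⟨u, v, huv⟩ := h1
  set Cu : Finset (Fin N) := Finset.univ.filter fun w => G.Reachable u w with hCu
  set Cv : Finset (Fin N) := Finset.univ.filter fun w => G.Reachable v w with hCv
  have hd : Disjoint Cu Cv := by
    rw [Finset.disjoint_left]
    intro w hw hw'
    rw [hCu, Finset.mem_filter] at hw
    rw [hCv, Finset.mem_filter] at hw'
    exact huv (hw.2.trans hw'.2.symm)
  have hcard : Cu.card + Cv.card ≤ N := by
    have := Finset.card_le_univ (Cu ∪ Cv)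
    rw [Finset.card_union_of_disjoint hd, Fintype.card_fin] at this
    exact this
  have hiso : ∀ z : Fin N, Iso G (Finset.univ.filter fun w => G.Reachable z w) := by
    intro z a ha b hb hab
    rw [Finset.mem_filter] at ha hb
    exact hb ⟨Finset.mem_univ _, ha.2.trans hab.reachable⟩
  have hnu : u ∈ Cu := by rw [hCu, Finset.mem_filter]; exact ⟨Finset.mem_univ _, .refl _⟩
  have hnv : v ∈ Cv := by rw [hCv, Finset.mem_filter]; exact ⟨Finset.mem_univ _, .refl _⟩
  have hcu := Finset.card_pos.2 ⟨u, hnu⟩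
  have hcv := Finset.card_pos.2 ⟨v, hnv⟩
  by_cases hc : 2 * Cu.card ≤ N
  · exact ⟨Cu, hcu, hc, hiso u⟩
  · exact ⟨Cv, hcv, by omega, hiso v⟩

lemma not_connected_cases {N : ℕ} (hN : 1 ≤ N) (δ : ℝ) (G : SimpleGraph (Fin N))
    (h : ¬ G.Connected) :
    (∃ u, Iso G {u}) ∨ BadSmall N δ G ∨
      ∃ S : Finset (Fin N), Real.exp ((1 - δ) * Real.log N) < S.card ∧ 2 * S.card ≤ N ∧
        Iso G S := by
  classical
  obtain ⟨S, h1, h2, h3⟩ := exists_iso hN G h
  by_cases hu : ∃ u, Iso G {u}
  · left; exact hu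
  right
  by_cases hS : Real.exp ((1 - δ) * Real.log N) < S.card
  · right; exact ⟨S, hS, h2, h3⟩
  · left
    push Not at hu hS
    have h4 : ∀ u ∈ S, ∃ v ∈ S, G.Adj u v := by
      intro u huS
      have := hu u
      unfold Iso at this
      push Not at this
      obtain ⟨w, hw, v, hv, hadj⟩ := this
      rw [Finset.mem_singleton] at hw
      subst hw
      refine ⟨v, ?_, hadj⟩
      by_contra hvS
      exact h3 w huS v hvS hadj
    obtain ⟨D, hD, hc, hout⟩ := exists_half G S h4
    exact ⟨S, D, hD, h1, hc, hS, h3, hout⟩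

lemma measurable_graph_event {ζ : ℝ} {N : ℕ} (Q : SimpleGraph (Fin N) → Prop) :
    MeasurableSet {ω : (Fin N → ℝ × ℝ) × (Sym2 (Fin N) → ℝ) | Q (GG ζ N ω)} := by
  classical
  have hcn := conn ζ 1 N
  -- the adjacency pattern as a measurable map to a finite space
  have h1 : ∀ u v : Fin N, MeasurableSet {ω : (Fin N → ℝ × ℝ) × (Sym2 (Fin N) → ℝ) |
      (GG ζ N ω).Adj u v} := by
    intro u v
    by_cases huv : u = v
    · subst huv
      simp
    · have h2 : Measurable (fun ω : (Fin N → ℝ × ℝ) × (Sym2 (Fin N) → ℝ) =>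
          edgeProb ζ 1 N (ω.1 u) (ω.1 v)) :=
        hcn.meas_comp ((measurable_pi_apply u).comp measurable_fst)
          ((measurable_pi_apply v).comp measurable_fst)
      have h3 : Measurable (fun ω : (Fin N → ℝ × ℝ) × (Sym2 (Fin N) → ℝ) => ω.2 s(u, v)) :=
        (measurable_pi_apply _).comp measurable_snd
      have h4 := measurableSet_le h3 h2
      convert h4 using 1
      ext ω
      simp only [mem_ofPred_eq, gr]
      exact ⟨fun h => h.2, fun h => ⟨huv, h⟩⟩
  have h5 : {ω : (Fin N → ℝ × ℝ) × (Sym2 (Fin N) → ℝ) | Q (GG ζ N ω)} =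
      ⋃ H ∈ (Finset.univ.filter fun H : SimpleGraph (Fin N) => Q H),
        ⋂ u : Fin N, ⋂ v : Fin N, {ω | (GG ζ N ω).Adj u v ↔ H.Adj u v} := by
    ext ω
    simp only [mem_ofPred_eq, mem_iUnion, mem_iInter, Finset.mem_filter, Finset.mem_univ,
      true_and, exists_prop]
    constructor
    · intro h
      exact ⟨_, h, fun u v => Iff.rfl⟩
    · rintro ⟨H, hH, hadj⟩
      have : GG ζ N ω = H := by
        ext u v
        exact hadj u v
      rw [this]; exact hH
  rw [h5]
  refine Finset.measurableSet_biUnion _ fun H _ => ?_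
  refine MeasurableSet.iInter fun u => MeasurableSet.iInter fun v => ?_
  by_cases hH : H.Adj u v
  · have e : {ω : (Fin N → ℝ × ℝ) × (Sym2 (Fin N) → ℝ) | (GG ζ N ω).Adj u v ↔ H.Adj u v} =
        {ω | (GG ζ N ω).Adj u v} := by
      ext ω
      simp only [mem_ofPred_eq]
      exact iff_true_right hH
    rw [e]; exact h1 u v
  · have e : {ω : (Fin N → ℝ × ℝ) × (Sym2 (Fin N) → ℝ) | (GG ζ N ω).Adj u v ↔ H.Adj u v} =
        {ω | (GG ζ N ω).Adj u v}ᶜ := by
      ext ω
      simp only [mem_ofPred_eq, mem_compl_iff]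
      exact iff_false_right hH
    rw [e]; exact (h1 u v).compl

theorem connected_tendsto {ζ α : ℝ} (hζ : 0 < ζ) (hα : 0 < α) (h : ζ / 2 < α)
    (hc : 1 ≤ cc ζ α) :
    Tendsto (fun N : ℕ => (muN ζ α N).real {ω | (GG ζ N ω).Connected}) atTop (𝓝 1) := by
  have hg := gam_pos
  have hg2 := gam_le
  have h1 := iso_vertex_tendsto hζ hα h hc
  have h2 := badSmall_tendsto hζ hα h hc (δ := gam / 4) (by positivity) (by linarith)
  have h3 := large_tendsto hζ hα (ζ := ζ) (α := α)
  have h4 := (h1.add h2).add h3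
  have h5 : Tendsto (fun N : ℕ => 1 - ((∑ u : Fin N, (muN ζ α N).real {ω | Iso (GG ζ N ω) {u}}) +
      (muN ζ α N).real {ω | BadSmall N (gam / 4) (GG ζ N ω)} +
      (muN ζ α N).real {ω | ∃ S : Finset (Fin N),
      Real.exp ((1 - gam / 4) * Real.log N) < S.card ∧ 2 * S.card ≤ N ∧ Iso (GG ζ N ω) S}))
      atTop (𝓝 1) := by
    have := h4.const_sub 1
    simpa using this
  refine tendsto_of_tendsto_of_tendsto_of_le_of_le' h5 tendsto_const_nhds ?_ ?_
  · filter_upwards [eventually_ge_atTop 2] with N hN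
    have := point_prob hζ hα hN
    have hm := measurable_graph_event (ζ := ζ) (N := N) (fun G => ¬ G.Connected)
    have e1 : {ω : (Fin N → ℝ × ℝ) × (Sym2 (Fin N) → ℝ) | (GG ζ N ω).Connected} =
        {ω | ¬ (GG ζ N ω).Connected}ᶜ := by
      ext ω; simp
    rw [e1, probReal_compl_eq_one_sub hm]
    have e2 : {ω : (Fin N → ℝ × ℝ) × (Sym2 (Fin N) → ℝ) | ¬ (GG ζ N ω).Connected} ⊆
        ((⋃ u ∈ (Finset.univ : Finset (Fin N)), {ω | Iso (GG ζ N ω) {u}}) ∪
          {ω | BadSmall N (gam / 4) (GG ζ N ω)}) ∪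
        {ω | ∃ S : Finset (Fin N),
      Real.exp ((1 - gam / 4) * Real.log N) < S.card ∧ 2 * S.card ≤ N ∧ Iso (GG ζ N ω) S} := by
      intro ω hω
      rcases not_connected_cases (by omega) (gam / 4) _ hω with h6 | h6 | h6
      · left; left
        simp only [mem_iUnion]
        obtain ⟨u, hu⟩ := h6
        exact ⟨u, Finset.mem_univ _, hu⟩
      · left; right; exact h6
      · right; exact h6
    have e3 := (measureReal_mono e2 (measure_ne_top (muN ζ α N) _)).trans
      ((measureReal_union_le _ _).trans (add_le_add_left ((measureReal_union_le _ _).trans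
        (add_le_add_left (measureReal_biUnion_finset_le _ _) _)) _))
    linarith
  · filter_upwards [eventually_ge_atTop 2] with N hN
    have := point_prob hζ hα hN
    exact measureReal_le_one

end

end Pool.Agent.Helper49.HRG
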