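import Pool.Agent.Helper49.HRG.Abs

open MeasureTheory Set
open scoped ENNReal

namespace Pool.Agent.Helper49.HRG

noncomputable section

/-- The radius `R = 2 log N / ζ` of the disc. -/
def discRadius (ζ : ℝ) (N : ℕ) : ℝ := 2 * Real.log N / ζ

/-- Hyperbolic distance (curvature `-ζ^2`) of two points given in native polar coordinates
`(r, θ)`: `cosh (ζ d) = cosh (ζ r_u) cosh (ζ r_v) - sinh (ζ r_u) sinh (ζ r_v) cos (θ_u - θ_v)`. -/
def hypDist (ζ : ℝ) (u v : ℝ × ℝ) : ℝ :=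
  Real.arcosh (Real.cosh (ζ * u.1) * Real.cosh (ζ * v.1) -
    Real.sinh (ζ * u.1) * Real.sinh (ζ * v.1) * Real.cos (u.2 - v.2)) / ζ

/-- Connection probability. -/
def edgeProb (ζ β : ℝ) (N : ℕ) (u v : ℝ × ℝ) : ℝ :=
  1 / (Real.exp (β * (ζ / 2) * (hypDist ζ u v - discRadius ζ N)) + 1)

/-- Law of the radius. -/
def radiusLaw (ζ α : ℝ) (N : ℕ) : Measure ℝ :=
  (volume.restrict (Icc 0 (discRadius ζ N))).withDensity fun r =>
    ENNReal.ofReal (α * Real.sinh (α * r) / (Real.cosh (α * discRadius ζ N) - 1))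

/-- Law of the angle. -/
def angleLaw : Measure ℝ :=
  (volume.restrict (Ioc 0 (2 * Real.pi))).withDensity fun _ =>
    ENNReal.ofReal (1 / (2 * Real.pi))

/-- Law of one point. -/
def pointLaw (ζ α : ℝ) (N : ℕ) : Measure (ℝ × ℝ) := (radiusLaw ζ α N).prod angleLaw

/-- weight of a radius -/
def wt (ζ : ℝ) (N : ℕ) (r : ℝ) : ℝ := N * Real.exp (-(ζ * r / 2))

/-- the absolute value of the sine of half the relative angle -/
def sn (x y : ℝ) : ℝ := |Real.sin ((x - y) / 2)|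

lemma sn_nonneg (x y : ℝ) : 0 ≤ sn x y := abs_nonneg _
lemma sn_le_one (x y : ℝ) : sn x y ≤ 1 := Real.abs_sin_le_one _
lemma sn_comm (x y : ℝ) : sn x y = sn y x := by
  unfold sn
  rw [show (x - y) / 2 = -((y - x) / 2) by ring, Real.sin_neg, abs_neg]

lemma cosh_arg (a b t : ℝ) : Real.cosh a * Real.cosh b - Real.sinh a * Real.sinh b * Real.cos t =
    Real.cosh (a - b) + 2 * Real.sinh a * Real.sinh b * Real.sin (t / 2) ^ 2 := by
  have h := Real.cos_sq (t / 2)
  have h2 := Real.sin_sq (t / 2)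
  rw [show 2 * (t / 2) = t by ring] at h
  rw [Real.cosh_sub, h2, h]
  ring

lemma one_le_arg (a b t : ℝ) (ha : 0 ≤ a) (hb : 0 ≤ b) :
    1 ≤ Real.cosh a * Real.cosh b - Real.sinh a * Real.sinh b * Real.cos t := by
  rw [cosh_arg]
  have h1 := Real.one_le_cosh (a - b)
  have h2 : 0 ≤ Real.sinh a := Real.sinh_nonneg_iff.2 ha
  have h3 : 0 ≤ Real.sinh b := Real.sinh_nonneg_iff.2 hb
  have : 0 ≤ 2 * Real.sinh a * Real.sinh b * Real.sin (t / 2) ^ 2 := by positivity
  linarith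

lemma edgeProb_pos (ζ β : ℝ) (N : ℕ) (u v : ℝ × ℝ) : 0 < edgeProb ζ β N u v := by
  unfold edgeProb; positivity

lemma edgeProb_le_one (ζ β : ℝ) (N : ℕ) (u v : ℝ × ℝ) : edgeProb ζ β N u v ≤ 1 := by
  unfold edgeProb
  rw [div_le_one (by positivity)]
  have := Real.exp_pos (β * (ζ / 2) * (hypDist ζ u v - discRadius ζ N))
  linarith

lemma hypDist_symm (ζ : ℝ) (u v : ℝ × ℝ) : hypDist ζ u v = hypDist ζ v u := by
  unfold hypDist
  rw [← Real.cos_neg (u.2 - v.2), neg_sub]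
  congr 2
  ring

lemma edgeProb_symm (ζ β : ℝ) (N : ℕ) (u v : ℝ × ℝ) :
    edgeProb ζ β N u v = edgeProb ζ β N v u := by
  unfold edgeProb
  rw [hypDist_symm]

lemma hypDist_meas (ζ : ℝ) : Measurable (Function.uncurry (hypDist ζ)) := by
  unfold Function.uncurry hypDist Real.arcosh
  fun_prop

lemma conn (ζ β : ℝ) (N : ℕ) : Conn (edgeProb ζ β N) where
  meas := by
    have h := hypDist_meas ζ
    have : Function.uncurry (edgeProb ζ β N) = fun w : (ℝ × ℝ) × (ℝ × ℝ) =>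
      1 / (Real.exp (β * (ζ / 2) * (Function.uncurry (hypDist ζ) w - discRadius ζ N)) + 1) := rfl
    rw [this]
    fun_prop
  nonneg a b := (edgeProb_pos ζ β N a b).le
  le_one a b := edgeProb_le_one ζ β N a b
  symm a b := edgeProb_symm ζ β N a b

section det

variable {ζ : ℝ} (hζ : 0 < ζ) {N : ℕ} (hN : 1 ≤ N)

include hζ hN

lemma exp_R : Real.exp (ζ * discRadius ζ N / 2) = N := by
  unfold discRadius
  rw [show ζ * (2 * Real.log N / ζ) / 2 = Real.log N by field_simp, Real.exp_log]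
  exact_mod_cast hN

lemma wt_eq (r : ℝ) : wt ζ N r = Real.exp (ζ * (discRadius ζ N - r) / 2) := by
  rw [show ζ * (discRadius ζ N - r) / 2 = ζ * discRadius ζ N / 2 + -(ζ * r / 2) by ring,
    Real.exp_add, exp_R hζ hN, wt]

lemma wt_pos (r : ℝ) : 0 < wt ζ N r := by
  rw [wt_eq hζ hN]; positivity

lemma one_le_wt {r : ℝ} (hr : r ≤ discRadius ζ N) : 1 ≤ wt ζ N r := by
  rw [wt_eq hζ hN]
  apply Real.one_le_exp
  have : 0 ≤ discRadius ζ N - r := by linarith
  positivity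

omit hN in
lemma wt_le {r : ℝ} (hr : 0 ≤ r) : wt ζ N r ≤ N := by
  unfold wt
  have : Real.exp (-(ζ * r / 2)) ≤ 1 := by
    apply Real.exp_le_one_iff.2
    have : 0 ≤ ζ * r / 2 := by positivity
    linarith
  have h2 : (0 : ℝ) ≤ N := by positivity
  nlinarith

omit hN in
lemma two_cosh (u v : ℝ × ℝ) (hu : 0 ≤ u.1) (hv : 0 ≤ v.1) :
    Real.exp (ζ * hypDist ζ u v) + Real.exp (-(ζ * hypDist ζ u v)) =
      2 * Real.cosh (ζ * u.1 - ζ * v.1) +
        4 * Real.sinh (ζ * u.1) * Real.sinh (ζ * v.1) * sn u.2 v.2 ^ 2 := by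
  have h1 : ζ * hypDist ζ u v = Real.arcosh (Real.cosh (ζ * u.1) * Real.cosh (ζ * v.1) -
    Real.sinh (ζ * u.1) * Real.sinh (ζ * v.1) * Real.cos (u.2 - v.2)) := by
    unfold hypDist; field_simp
  have h2 := Real.cosh_arcosh (one_le_arg (ζ * u.1) (ζ * v.1) (u.2 - v.2) (by positivity)
    (by positivity))
  rw [← h1, cosh_arg, Real.cosh_eq] at h2
  have h3 : sn u.2 v.2 ^ 2 = Real.sin ((u.2 - v.2) / 2) ^ 2 := by
    unfold sn; rw [sq_abs]
  rw [h3]
  linarith

omit hN in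
lemma hypDist_nonneg (u v : ℝ × ℝ) (hu : 0 ≤ u.1) (hv : 0 ≤ v.1) : 0 ≤ hypDist ζ u v := by
  unfold hypDist
  exact div_nonneg (Real.arcosh_nonneg (one_le_arg _ _ _ (by positivity) (by positivity))) hζ.le

lemma exp_edge (u v : ℝ × ℝ) :
    Real.exp (1 * (ζ / 2) * (hypDist ζ u v - discRadius ζ N)) =
      Real.exp (ζ * hypDist ζ u v / 2) / N := by
  rw [← exp_R hζ hN, ← Real.exp_sub]
  congr 1
  ring

/-- lower bound for the connection probability -/
lemma edge_lower (u v : ℝ × ℝ) (hu : u.1 ∈ Icc 0 (discRadius ζ N))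
    (hv : v.1 ∈ Icc 0 (discRadius ζ N)) :
    1 / (3 + N * sn u.2 v.2 / (wt ζ N u.1 * wt ζ N v.1)) ≤ edgeProb ζ 1 N u v := by
  have hN' : (0 : ℝ) < N := by exact_mod_cast hN
  have hwu := wt_pos hζ hN u.1
  have hwv := wt_pos hζ hN v.1
  set a := ζ * u.1 with ha
  set b := ζ * v.1 with hb
  have ha0 : 0 ≤ a := mul_nonneg hζ.le hu.1
  have hb0 : 0 ≤ b := mul_nonneg hζ.le hv.1
  have h1 := two_cosh hζ u v hu.1 hv.1
  have hs := sn_nonneg u.2 v.2
  set s := sn u.2 v.2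
  set D := hypDist ζ u v
  have h2 : Real.cosh (a - b) ≤ Real.exp |a - b| := by
    rw [← Real.cosh_abs, Real.cosh_eq]
    have : Real.exp (-|a - b|) ≤ Real.exp |a - b| := Real.exp_le_exp.2 (by
      have := abs_nonneg (a - b); linarith)
    linarith
  have h3 : 2 * Real.sinh a ≤ Real.exp a := by
    rw [Real.sinh_eq]; have := Real.exp_pos (-a); linarith
  have h4 : 2 * Real.sinh b ≤ Real.exp b := by
    rw [Real.sinh_eq]; have := Real.exp_pos (-b); linarith
  have h3' : 0 ≤ Real.sinh a := Real.sinh_nonneg_iff.2 ha0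
  have h4' : 0 ≤ Real.sinh b := Real.sinh_nonneg_iff.2 hb0
  have h5 : 4 * Real.sinh a * Real.sinh b ≤ Real.exp (a + b) := by
    rw [Real.exp_add]; nlinarith
  have h6 : Real.exp (ζ * D) ≤ 2 * Real.exp |a - b| + Real.exp (a + b) * s ^ 2 := by
    have := Real.exp_pos (-(ζ * D))
    nlinarith [sq_nonneg s]
  have h7 : Real.exp (ζ * D / 2) ≤ 2 * Real.exp (|a - b| / 2) + Real.exp ((a + b) / 2) * s := by
    apply le_of_sq_le_sq _ (by positivity)
    have e1 : Real.exp (ζ * D / 2) ^ 2 = Real.exp (ζ * D) := by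
      rw [← Real.exp_nat_mul]; congr 1; push_cast; ring
    have e2 : Real.exp (|a - b| / 2) ^ 2 = Real.exp |a - b| := by
      rw [← Real.exp_nat_mul]; congr 1; push_cast; ring
    have e3 : Real.exp ((a + b) / 2) ^ 2 = Real.exp (a + b) := by
      rw [← Real.exp_nat_mul]; congr 1; push_cast; ring
    have e4 := Real.exp_pos |a - b|
    have e5 : 0 ≤ 2 * Real.exp (|a - b| / 2) * (Real.exp ((a + b) / 2) * s) := by positivity
    rw [e1]
    calc Real.exp (ζ * D) ≤ 2 * Real.exp |a - b| + Real.exp (a + b) * s ^ 2 := h6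
      _ ≤ (2 * Real.exp (|a - b| / 2) + Real.exp ((a + b) / 2) * s) ^ 2 := by
        rw [add_sq, mul_pow, mul_pow, e2, e3]; nlinarith
  have h8 : Real.exp (|a - b| / 2) ≤ N := by
    rw [← exp_R hζ hN]
    apply Real.exp_le_exp.2
    have : |a - b| ≤ ζ * discRadius ζ N := by
      rw [abs_le]
      constructor
      · nlinarith [hu.1, hv.2, mul_nonneg hζ.le hu.1, mul_le_mul_of_nonneg_left hv.2 hζ.le]
      · nlinarith [hv.1, hu.2, mul_nonneg hζ.le hv.1, mul_le_mul_of_nonneg_left hu.2 hζ.le]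
    linarith
  have h9 : Real.exp ((a + b) / 2) = N ^ 2 / (wt ζ N u.1 * wt ζ N v.1) := by
    unfold wt
    rw [show (a + b) / 2 = ζ * u.1 / 2 + ζ * v.1 / 2 by rw [ha, hb]; ring, Real.exp_add,
      Real.exp_neg, Real.exp_neg]
    field_simp
  unfold edgeProb
  rw [exp_edge hζ hN]
  apply one_div_le_one_div_of_le (by positivity)
  have h10 : Real.exp (ζ * D / 2) / N ≤ 2 + N * s / (wt ζ N u.1 * wt ζ N v.1) := by
    rw [div_le_iff₀ hN']
    calc _ ≤ 2 * Real.exp (|a - b| / 2) + Real.exp ((a + b) / 2) * s := h7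
      _ ≤ 2 * N + N ^ 2 / (wt ζ N u.1 * wt ζ N v.1) * s := by rw [h9]; nlinarith
      _ = _ := by field_simp
  linarith

/-- sharp upper bound for the connection probability -/
lemma edge_upper (u v : ℝ × ℝ) (hu : 0 ≤ u.1) (hv : 0 ≤ v.1) :
    edgeProb ζ 1 N u v ≤ 1 / (1 + Real.sqrt ((1 - Real.exp (-(2 * (ζ * u.1)))) *
      (1 - Real.exp (-(2 * (ζ * v.1))))) * (N * sn u.2 v.2 / (wt ζ N u.1 * wt ζ N v.1))) := by
  have hN' : (0 : ℝ) < N := by exact_mod_cast hN
  have hwu := wt_pos hζ hN u.1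
  have hwv := wt_pos hζ hN v.1
  set a := ζ * u.1 with ha
  set b := ζ * v.1 with hb
  have ha0 : 0 ≤ a := mul_nonneg hζ.le hu
  have hb0 : 0 ≤ b := mul_nonneg hζ.le hv
  have h1 := two_cosh hζ u v hu hv
  have hs := sn_nonneg u.2 v.2
  have hD := hypDist_nonneg hζ u v hu hv
  set s := sn u.2 v.2
  set D := hypDist ζ u v
  have h2 : Real.exp (-(ζ * D)) ≤ 1 := by
    apply Real.exp_le_one_iff.2
    have : 0 ≤ ζ * D := by positivity
    linarith
  have h3 := Real.one_le_cosh (a - b)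
  have h4 : 4 * Real.sinh a * Real.sinh b = Real.exp (a + b) *
      ((1 - Real.exp (-(2 * a))) * (1 - Real.exp (-(2 * b)))) := by
    rw [Real.sinh_eq, Real.sinh_eq, show -(2 * a) = -a + -a by ring,
      show -(2 * b) = -b + -b by ring, Real.exp_add, Real.exp_add, Real.exp_add]
    have e1 : Real.exp a * Real.exp (-a) = 1 := by rw [← Real.exp_add]; simp
    have e2 : Real.exp b * Real.exp (-b) = 1 := by rw [← Real.exp_add]; simp
    linear_combination (Real.exp b * Real.exp (-a) - Real.exp (-a) * Real.exp b * Real.exp (-b) ^ 2) * e1 * 1 + (Real.exp a * Real.exp (-b) - Real.exp (-b) * Real.exp (-a)) * e2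
  set ρ2 := (1 - Real.exp (-(2 * a))) * (1 - Real.exp (-(2 * b))) with hρ2
  have hρ0 : 0 ≤ ρ2 := by
    apply mul_nonneg
    · have : Real.exp (-(2 * a)) ≤ 1 := Real.exp_le_one_iff.2 (by linarith)
      linarith
    · have : Real.exp (-(2 * b)) ≤ 1 := Real.exp_le_one_iff.2 (by linarith)
      linarith
  have h5 : Real.exp (a + b) * ρ2 * s ^ 2 ≤ Real.exp (ζ * D) := by
    rw [h4] at h1
    linarith
  have h6 : Real.exp ((a + b) / 2) * Real.sqrt ρ2 * s ≤ Real.exp (ζ * D / 2) := by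
    apply le_of_sq_le_sq _ (by positivity)
    have e1 : Real.exp (ζ * D / 2) ^ 2 = Real.exp (ζ * D) := by
      rw [← Real.exp_nat_mul]; congr 1; push_cast; ring
    have e3 : Real.exp ((a + b) / 2) ^ 2 = Real.exp (a + b) := by
      rw [← Real.exp_nat_mul]; congr 1; push_cast; ring
    rw [e1, mul_pow, mul_pow, e3, Real.sq_sqrt hρ0]
    exact h5
  have h9 : Real.exp ((a + b) / 2) = N ^ 2 / (wt ζ N u.1 * wt ζ N v.1) := by
    unfold wt
    rw [show (a + b) / 2 = ζ * u.1 / 2 + ζ * v.1 / 2 by rw [ha, hb]; ring, Real.exp_add,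
      Real.exp_neg, Real.exp_neg]
    field_simp
  unfold edgeProb
  rw [exp_edge hζ hN]
  apply one_div_le_one_div_of_le (by positivity)
  have h10 : Real.sqrt ρ2 * (N * s / (wt ζ N u.1 * wt ζ N v.1)) ≤ Real.exp (ζ * D / 2) / N := by
    rw [le_div_iff₀ hN']
    calc _ = N ^ 2 / (wt ζ N u.1 * wt ζ N v.1) * Real.sqrt ρ2 * s := by field_simp
      _ ≤ _ := by rw [← h9]; exact h6
  linarith

/-- crude upper bound for the connection probability -/
lemma edge_crude (u v : ℝ × ℝ) (hu : u.1 ∈ Icc 0 (discRadius ζ N))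
    (hv : v.1 ∈ Icc 0 (discRadius ζ N)) :
    edgeProb ζ 1 N u v ≤ 3 / (1 + N * sn u.2 v.2 / (wt ζ N u.1 * wt ζ N v.1)) := by
  have hN' : (0 : ℝ) < N := by exact_mod_cast hN
  have hwu := one_le_wt hζ hN hu.2
  have hwv := one_le_wt hζ hN hv.2
  have hs := sn_nonneg u.2 v.2
  have hs1 := sn_le_one u.2 v.2
  set X := N * sn u.2 v.2 / (wt ζ N u.1 * wt ζ N v.1) with hX
  have hX0 : 0 ≤ X := by positivity
  have he1 : Real.exp (-2 : ℝ) ≤ 1 / 2 := by
    rw [show (-2 : ℝ) = -(2 : ℝ) by norm_num, Real.exp_neg]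
    have := Real.add_one_le_exp (2 : ℝ)
    rw [inv_eq_one_div]
    apply one_div_le_one_div_of_le (by norm_num) (by linarith)
  have he2 : Real.exp (1 / 2 : ℝ) ≤ 2 := by
    have h1 : Real.exp (1 / 2 : ℝ) ^ 2 = Real.exp 1 := by
      rw [← Real.exp_nat_mul]; norm_num
    have h2 := Real.exp_one_lt_d9
    nlinarith [Real.exp_pos (1 / 2 : ℝ)]
  have small : ∀ r w : ℝ, ζ * r < 1 → 1 ≤ w → N / (wt ζ N r * w) ≤ 2 := by
    intro r w hr hw
    have hwr := wt_pos hζ hN r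
    rw [div_le_iff₀ (by positivity)]
    have : (N : ℝ) ≤ 2 * wt ζ N r := by
      unfold wt
      have h1 : Real.exp (1 / 2) * Real.exp (-(ζ * r / 2)) ≥ 1 := by
        rw [← Real.exp_add]
        apply Real.one_le_exp
        linarith
      have h2 : 1 ≤ 2 * Real.exp (-(ζ * r / 2)) := by
        nlinarith [Real.exp_pos (-(ζ * r / 2))]
      nlinarith
    nlinarith
  by_cases h1 : ζ * u.1 < 1
  · have hX2 : X ≤ 2 := by
      have := small u.1 (wt ζ N v.1) h1 hwv
      rw [hX, show N * sn u.2 v.2 / (wt ζ N u.1 * wt ζ N v.1) =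
        N / (wt ζ N u.1 * wt ζ N v.1) * sn u.2 v.2 by ring]
      nlinarith
    refine (edgeProb_le_one _ _ _ _ _).trans ?_
    rw [le_div_iff₀ (by positivity)]
    linarith
  by_cases h2 : ζ * v.1 < 1
  · have hX2 : X ≤ 2 := by
      have := small v.1 (wt ζ N u.1) h2 hwu
      rw [hX, show N * sn u.2 v.2 / (wt ζ N u.1 * wt ζ N v.1) =
        N / (wt ζ N v.1 * wt ζ N u.1) * sn u.2 v.2 by ring]
      nlinarith
    refine (edgeProb_le_one _ _ _ _ _).trans ?_
    rw [le_div_iff₀ (by positivity)]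
    linarith
  · push Not at h1 h2
    refine (edge_upper hζ hN u v hu.1 hv.1).trans ?_
    have e1 : Real.exp (-(2 * (ζ * u.1))) ≤ 1 / 2 :=
      (Real.exp_le_exp.2 (by linarith)).trans he1
    have e2 : Real.exp (-(2 * (ζ * v.1))) ≤ 1 / 2 :=
      (Real.exp_le_exp.2 (by linarith)).trans he1
    have e3 : (1 / 2 : ℝ) ≤ Real.sqrt ((1 - Real.exp (-(2 * (ζ * u.1)))) *
      (1 - Real.exp (-(2 * (ζ * v.1))))) := by
      apply Real.le_sqrt_of_sq_le
      nlinarith
    rw [div_le_div_iff₀ (by positivity) (by positivity)]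
    nlinarith

end det

end

end Pool.Agent.Helper49.HRG
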