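import Pool.Agent.Helper49.HRG.Small

open MeasureTheory Set Filter Topology
open scoped ENNReal

namespace Pool.Agent.Helper49.HRG

noncomputable section

lemma choose_beta {N : ℕ} (hN : 2 ≤ N) (δ : ℝ) {k : ℕ} (hk : 1 ≤ k) :
    (N.choose k : ℝ) * (2 ^ k * beta N δ k) ≤ Real.exp (-(3 / 10 * δ * Real.log N)) ^ k := by
  have hN' : (0 : ℝ) < N := by exact_mod_cast (by omega : 0 < N)
  have hk' : (0 : ℝ) < k := by exact_mod_cast (by omega : 0 < k)
  have h1 : (N.choose k : ℝ) ≤ (N : ℝ) ^ k / k.factorial := by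
    exact_mod_cast Nat.choose_le_pow_div (α := ℝ) k N
  have h2 := Real.pow_div_factorial_le_exp (x := (k : ℝ)) hk'.le k
  have h3 : (N : ℝ) ^ k / k.factorial ≤ (N / k : ℝ) ^ k * Real.exp k := by
    have e : (N : ℝ) ^ k / k.factorial = (N / k : ℝ) ^ k * ((k : ℝ) ^ k / k.factorial) := by
      rw [div_pow]
      field_simp
    rw [e]
    exact mul_le_mul_of_nonneg_left h2 (by positivity)
  have h4 : (N / k : ℝ) ^ k * Real.exp k * (2 ^ k * beta N δ k) =
      Real.exp (-(3 / 10 * δ * Real.log N)) ^ k := by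
    have e1 : (N / k : ℝ) ^ k = Real.exp (k * (Real.log N - Real.log k)) := by
      rw [← Real.log_div hN'.ne' hk'.ne', Real.exp_nat_mul, Real.exp_log (by positivity)]
    have e2 : (2 : ℝ) ^ k = Real.exp (k * Real.log 2) := by
      rw [Real.exp_nat_mul, Real.exp_log (by norm_num)]
    unfold beta
    rw [e1, e2, ← Real.exp_add, ← Real.exp_add, ← Real.exp_add, ← Real.exp_nat_mul]
    congr 1
    ring
  have h5 : 0 ≤ 2 ^ k * beta N δ k := by unfold beta; positivity
  calc _ ≤ (N / k : ℝ) ^ k * Real.exp k * (2 ^ k * beta N δ k) :=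
        mul_le_mul_of_nonneg_right (h1.trans h3) h5
    _ = _ := h4

/-- the small-set event -/
def BadSmall (N : ℕ) (δ : ℝ) (G : SimpleGraph (Fin N)) : Prop :=
  ∃ S D : Finset (Fin N), D ⊆ S ∧ 1 ≤ S.card ∧ S.card ≤ 2 * D.card ∧
    (S.card : ℝ) ≤ Real.exp ((1 - δ) * Real.log N) ∧ Iso G S ∧
    ∀ u ∈ D, ∃ v ∈ S \ D, G.Adj u v

lemma badSmall_tendsto {ζ α : ℝ} (hζ : 0 < ζ) (hα : 0 < α) (h : ζ / 2 < α) (hc : 1 ≤ cc ζ α)
    {δ : ℝ} (hδ0 : 0 < δ) (hδ1 : δ < 1) :
    Tendsto (fun N : ℕ => (muN ζ α N).real {ω | BadSmall N δ (GG ζ N ω)}) atTop (𝓝 0) := by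
  classical
  have hρ : Tendsto (fun N : ℕ => Real.exp (-(3 / 10 * δ * Real.log N))) atTop (𝓝 0) :=
    Real.tendsto_exp_neg_atTop_nhds_zero.comp (log_tendsto.const_mul_atTop (by positivity))
  have hρ2 : Tendsto (fun N : ℕ => 2 * Real.exp (-(3 / 10 * δ * Real.log N))) atTop
      (𝓝 (2 * 0)) := hρ.const_mul 2
  rw [mul_zero] at hρ2
  refine tendsto_of_tendsto_of_tendsto_of_le_of_le' tendsto_const_nhds hρ2
    (Eventually.of_forall fun N => measureReal_nonneg) ?_
  filter_upwards [small_event_sum hζ hα h hc hδ0 hδ1, eventually_ge_atTop 2,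
    hρ.eventually (ge_mem_nhds (show (0 : ℝ) < 1 / 2 by norm_num))] with N hsum hN hρN
  have hp := point_prob hζ hα hN
  set ρ := Real.exp (-(3 / 10 * δ * Real.log N)) with hρdef
  have hρ0 : 0 < ρ := Real.exp_pos _
  set P1 : Finset (Finset (Fin N)) := Finset.univ.filter fun S => 1 ≤ S.card ∧
    (S.card : ℝ) ≤ Real.exp ((1 - δ) * Real.log N) with hP1
  set P2 : Finset (Fin N) → Finset (Finset (Fin N)) := fun S =>
    S.powerset.filter fun D => S.card ≤ 2 * D.card with hP2
  have hsub : {ω | BadSmall N δ (GG ζ N ω)} ⊆ ⋃ S ∈ P1, ⋃ D ∈ P2 S,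
      ⋃ g ∈ Fintype.piFinset (tset S D),
        {ω | (∀ u ∈ D, (GG ζ N ω).Adj u (g u)) ∧ Iso (GG ζ N ω) S} := by
    rintro ω ⟨S, D, hDS, hS1, hSD, hSk, hiso, hadj⟩
    choose! g hg hg' using hadj
    simp only [mem_iUnion]
    refine ⟨S, Finset.mem_filter.2 ⟨Finset.mem_univ _, hS1, hSk⟩, D,
      Finset.mem_filter.2 ⟨Finset.mem_powerset.2 hDS, hSD⟩,
      fun u => if u ∈ D then g u else u, ?_, ?_⟩
    · rw [Fintype.mem_piFinset]
      intro u
      unfold tset
      by_cases hu : u ∈ D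
      · simp only [hu, if_true]; exact hg u hu
      · simp [hu]
    · refine ⟨fun u hu => ?_, hiso⟩
      simp only [hu, if_true]
      exact hg' u hu
  calc (muN ζ α N).real {ω | BadSmall N δ (GG ζ N ω)}
      ≤ (muN ζ α N).real (⋃ S ∈ P1, ⋃ D ∈ P2 S, ⋃ g ∈ Fintype.piFinset (tset S D),
        {ω | (∀ u ∈ D, (GG ζ N ω).Adj u (g u)) ∧ Iso (GG ζ N ω) S}) :=
        measureReal_mono hsub (measure_ne_top _ _)
    _ ≤ ∑ S ∈ P1, (muN ζ α N).real (⋃ D ∈ P2 S, ⋃ g ∈ Fintype.piFinset (tset S D),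
        {ω | (∀ u ∈ D, (GG ζ N ω).Adj u (g u)) ∧ Iso (GG ζ N ω) S}) :=
        measureReal_biUnion_finset_le _ _
    _ ≤ ∑ S ∈ P1, ∑ D ∈ P2 S, (muN ζ α N).real (⋃ g ∈ Fintype.piFinset (tset S D),
        {ω | (∀ u ∈ D, (GG ζ N ω).Adj u (g u)) ∧ Iso (GG ζ N ω) S}) :=
        Finset.sum_le_sum fun S _ => measureReal_biUnion_finset_le _ _
    _ ≤ ∑ S ∈ P1, ∑ D ∈ P2 S, ∑ g ∈ Fintype.piFinset (tset S D), (muN ζ α N).real
        {ω | (∀ u ∈ D, (GG ζ N ω).Adj u (g u)) ∧ Iso (GG ζ N ω) S} :=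
        Finset.sum_le_sum fun S _ => Finset.sum_le_sum fun D _ =>
          measureReal_biUnion_finset_le _ _
    _ ≤ ∑ S ∈ P1, ∑ D ∈ P2 S, beta N δ S.card := by
        refine Finset.sum_le_sum fun S hS => Finset.sum_le_sum fun D hD => ?_
        simp only [hP1, Finset.mem_filter, Finset.mem_univ, true_and] at hS
        simp only [hP2, Finset.mem_filter, Finset.mem_powerset] at hD
        exact hsum S D hD.1 hS.1 hD.2 hS.2
    _ ≤ ∑ S ∈ P1, (2 ^ S.card * beta N δ S.card) := by
        refine Finset.sum_le_sum fun S hS => ?_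
        rw [Finset.sum_const, nsmul_eq_mul]
        apply mul_le_mul_of_nonneg_right _ (Real.exp_pos _).le
        have : (P2 S).card ≤ 2 ^ S.card := by
          rw [← Finset.card_powerset]
          exact Finset.card_filter_le _ _
        exact_mod_cast this
    _ ≤ ∑ S ∈ (Finset.univ : Finset (Fin N)).powerset,
        (if 1 ≤ S.card then 2 ^ S.card * beta N δ S.card else 0) := by
        rw [Finset.powerset_univ]
        calc _ = ∑ S ∈ P1, (if 1 ≤ S.card then 2 ^ S.card * beta N δ S.card else 0) := by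
              refine Finset.sum_congr rfl fun S hS => ?_
              simp only [hP1, Finset.mem_filter, Finset.mem_univ, true_and] at hS
              rw [if_pos hS.1]
          _ ≤ _ := by
              refine Finset.sum_le_sum_of_subset_of_nonneg (Finset.subset_univ _) fun S _ _ => ?_
              split_ifs
              · unfold beta; positivity
              · exact le_rfl
    _ = ∑ k ∈ Finset.range (N + 1), (N.choose k) •
        (if 1 ≤ k then 2 ^ k * beta N δ k else 0) := by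
        have := Finset.sum_powerset_apply_card (fun k : ℕ =>
          (if 1 ≤ k then 2 ^ k * beta N δ k else 0)) (x := (Finset.univ : Finset (Fin N)))
        rw [Finset.card_univ, Fintype.card_fin] at this
        exact this
    _ ≤ ∑ k ∈ Finset.range (N + 1), (if k = 0 then 0 else ρ ^ k) := by
        refine Finset.sum_le_sum fun k _ => ?_
        by_cases hk : k = 0
        · simp [hk]
        · have hk1 : 1 ≤ k := by omega
          rw [if_pos hk1, if_neg hk, nsmul_eq_mul]
          exact choose_beta hN δ hk1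
    _ = ∑ k ∈ Finset.range N, ρ ^ (k + 1) := by
        rw [Finset.sum_range_succ']
        simp
    _ = ρ * ∑ k ∈ Finset.range N, ρ ^ k := by
        rw [Finset.mul_sum]
        refine Finset.sum_congr rfl fun k _ => by ring
    _ ≤ ρ * 2 := by
        apply mul_le_mul_of_nonneg_left _ hρ0.le
        have h1 : ∑ k ∈ Finset.range N, ρ ^ k ≤ (1 - ρ)⁻¹ :=
          (Summable.sum_le_tsum _ (fun k _ => by positivity)
            (summable_geometric_of_lt_one hρ0.le (by linarith))).trans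
            (le_of_eq (tsum_geometric_of_lt_one hρ0.le (by linarith)))
        refine h1.trans ?_
        rw [inv_le_comm₀ (by linarith) (by norm_num)]
        linarith
    _ = 2 * ρ := by ring

end

end Pool.Agent.Helper49.HRG
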