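import Pool.Agent.Helper49.HRG.LargeDet
import Pool.Agent.Helper49.HRG.SmallSum

open MeasureTheory Set Filter Topology
open scoped ENNReal

namespace Pool.Agent.Helper49.HRG

noncomputable section

/-- index of the arc containing an angle -/
def bidx (A : ℕ) (hA : 0 < A) (θ : ℝ) : Fin A :=
  ⟨min (⌈θ * A / (2 * Real.pi)⌉₊ - 1) (A - 1), by omega⟩

lemma bidx_meas (A : ℕ) (hA : 0 < A) : Measurable (bidx A hA) := by
  have h1 : Measurable (fun n : ℕ => (⟨min (n - 1) (A - 1), by omega⟩ : Fin A)) :=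
    measurable_of_countable _
  have h2 : Measurable (fun θ : ℝ => ⌈θ * A / (2 * Real.pi)⌉₊) :=
    Nat.measurable_ceil.comp (by fun_prop)
  exact h1.comp h2

lemma bidx_eq_iff {A : ℕ} (hA : 0 < A) {θ : ℝ} (h0 : 0 < θ) (h1 : θ ≤ 2 * Real.pi) (j : Fin A) :
    bidx A hA θ = j ↔ θ ∈ Ioc (2 * Real.pi * j / A) (2 * Real.pi * (j + 1) / A) := by
  have hpi := Real.pi_pos
  have hA' : (0 : ℝ) < A := by exact_mod_cast hA
  have hc1 : 0 < θ * A / (2 * Real.pi) := by positivity
  have hc : 1 ≤ ⌈θ * A / (2 * Real.pi)⌉₊ := Nat.one_le_ceil_iff.2 hc1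
  have hc2 : ⌈θ * A / (2 * Real.pi)⌉₊ ≤ A := by
    rw [Nat.ceil_le, div_le_iff₀ (by positivity)]
    nlinarith
  have hmin : min (⌈θ * A / (2 * Real.pi)⌉₊ - 1) (A - 1) = ⌈θ * A / (2 * Real.pi)⌉₊ - 1 := by
    omega
  have h2 : bidx A hA θ = j ↔ ⌈θ * A / (2 * Real.pi)⌉₊ = (j : ℕ) + 1 := by
    unfold bidx
    rw [Fin.ext_iff]
    simp only [hmin]
    omega
  rw [h2, Nat.ceil_eq_iff (by omega)]
  simp only [Nat.add_sub_cancel, mem_Ioc]
  push_cast
  rw [lt_div_iff₀ (by positivity), div_le_iff₀ (by positivity), div_lt_iff₀ hA',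
    le_div_iff₀ hA']
  constructor
  · rintro ⟨a, b⟩; constructor <;> linarith
  · rintro ⟨a, b⟩; constructor <;> linarith

lemma bidx_close {A : ℕ} (hA : 0 < A) {θ φ : ℝ} (h0 : 0 < θ) (h1 : θ ≤ 2 * Real.pi)
    (h2 : 0 < φ) (h3 : φ ≤ 2 * Real.pi) (h : bidx A hA θ = bidx A hA φ) :
    |θ - φ| ≤ 2 * Real.pi / A := by
  have hA' : (0 : ℝ) < A := by exact_mod_cast hA
  have e1 := (bidx_eq_iff hA h0 h1 (bidx A hA φ)).1 h
  have e2 := (bidx_eq_iff hA h2 h3 (bidx A hA φ)).1 rfl
  set j : ℝ := ((bidx A hA φ : ℕ) : ℝ)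
  have e3 : 2 * Real.pi * (j + 1) / A = 2 * Real.pi * j / A + 2 * Real.pi / A := by ring
  rw [abs_le]
  constructor
  · linarith [e1.1, e2.2]
  · linarith [e1.2, e2.1]

lemma angle_support : ∀ᵐ θ ∂angleLaw, θ ∈ Ioc 0 (2 * Real.pi) := by
  unfold angleLaw
  exact (withDensity_absolutelyContinuous _ _).ae_le (ae_restrict_mem measurableSet_Ioc)

lemma angle_arc {A : ℕ} (hA : 0 < A) (j : Fin A) :
    angleLaw.real {θ | bidx A hA θ = j} = 1 / A := by
  have hpi := Real.pi_pos
  have hA' : (0 : ℝ) < A := by exact_mod_cast hA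
  have h1 : angleLaw {θ | bidx A hA θ = j} =
      angleLaw (Ioc (2 * Real.pi * j / A) (2 * Real.pi * (j + 1) / A)) := by
    apply measure_congr
    filter_upwards [angle_support] with θ hθ
    exact propext (bidx_eq_iff hA hθ.1 hθ.2 j)
  rw [measureReal_def, h1]
  have hsub : Ioc (2 * Real.pi * j / A) (2 * Real.pi * (j + 1) / A) ∩ Ioc 0 (2 * Real.pi) =
      Ioc (2 * Real.pi * j / A) (2 * Real.pi * (j + 1) / A) := by
    apply inter_eq_left.2
    apply Ioc_subset_Ioc
    · positivity
    · rw [div_le_iff₀ hA']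
      have : (j : ℝ) + 1 ≤ A := by exact_mod_cast j.2
      nlinarith
  unfold angleLaw
  rw [withDensity_const, Measure.smul_apply, Measure.restrict_apply measurableSet_Ioc, hsub,
    Real.volume_Ioc, smul_eq_mul, ← ENNReal.ofReal_mul (by positivity), ENNReal.toReal_ofReal]
  · field_simp
    ring
  · have : 2 * Real.pi * (j + 1) / A - 2 * Real.pi * j / A = 2 * Real.pi / A := by ring
    rw [this]
    positivity

section

variable {ζ α : ℝ} (hζ : 0 < ζ) (hα : 0 < α) {N : ℕ} (hN : 2 ≤ N)

include hζ hα hN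

lemma point_integral_snd (F : ℝ → ℝ) (hF : Measurable F) :
    ∫ y, F y.2 ∂(pointLaw ζ α N) = ∫ θ, F θ ∂angleLaw := by
  have := rad_prob hζ hα hN
  have h : (pointLaw ζ α N).map Prod.snd = angleLaw := by
    unfold pointLaw
    exact measurePreserving_snd.map_eq
  rw [← h, integral_map measurable_snd.aemeasurable]
  exact hF.aestronglyMeasurable

lemma point_support2 : ∀ᵐ y ∂(pointLaw ζ α N), y.2 ∈ Ioc 0 (2 * Real.pi) := by
  have := rad_prob hζ hα hN
  unfold pointLaw
  exact Measure.quasiMeasurePreserving_snd.ae angle_support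

lemma pi_support2 : ∀ᵐ x ∂(Measure.pi fun _ : Fin N => pointLaw ζ α N),
    ∀ u, (x u).2 ∈ Ioc 0 (2 * Real.pi) := by
  have := point_prob hζ hα hN
  rw [ae_all_iff]
  intro u
  exact (measurePreserving_eval (fun _ : Fin N => pointLaw ζ α N) u).quasiMeasurePreserving.ae
    (point_support2 hζ hα hN)

lemma arc_moment {A : ℕ} (hA : 0 < A) (j : Fin A) (c : ℝ) :
    ∫ x, Real.exp (c * (arc (fun u => bidx A hA (x u).2) j).card)
      ∂(Measure.pi fun _ : Fin N => pointLaw ζ α N) = (1 + (Real.exp c - 1) / A) ^ N := by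
  have := point_prob hζ hα hN
  set F : ℝ → ℝ := fun θ => if bidx A hA θ = j then Real.exp c else 1 with hF
  have hset : MeasurableSet {θ | bidx A hA θ = j} :=
    bidx_meas A hA (measurableSet_singleton j)
  have hFm : Measurable F := Measurable.ite hset measurable_const measurable_const
  have h1 : ∀ x : Fin N → ℝ × ℝ, Real.exp (c * (arc (fun u => bidx A hA (x u).2) j).card) =
      ∏ u, F (x u).2 := by
    intro x
    have : ((arc (fun u => bidx A hA (x u).2) j).card : ℝ) =
        ∑ u, (if bidx A hA (x u).2 = j then (1 : ℝ) else 0) := by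
      unfold arc
      rw [Finset.card_filter]
      push_cast
      rfl
    rw [this, Finset.mul_sum, Real.exp_sum]
    refine Finset.prod_congr rfl fun u _ => ?_
    simp only [hF]
    split_ifs <;> simp
  simp only [h1]
  have h2 := integral_fintype_prod_eq_pow (ι := Fin N) (μ := pointLaw ζ α N)
    (fun y : ℝ × ℝ => F y.2)
  rw [Fintype.card_fin] at h2
  rw [h2, point_integral_snd hζ hα hN F hFm]
  congr 1
  have h3 : ∀ θ, F θ = 1 + {θ | bidx A hA θ = j}.indicator (fun _ => Real.exp c - 1) θ := by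
    intro θ
    by_cases hθ : bidx A hA θ = j
    · simp only [hF, hθ, if_true]
      rw [indicator_of_mem (by simpa using hθ)]
      ring
    · simp only [hF, hθ, if_false]
      rw [indicator_of_notMem (by simpa using hθ)]
      ring
  simp only [h3]
  rw [integral_add (integrable_const _) ((integrable_const _).indicator hset),
    integral_indicator hset, integral_const, setIntegral_const, angle_arc hA j]
  simp only [probReal_univ, smul_eq_mul, one_mul]
  ring

lemma arc_moment_le {A : ℕ} (hA : 0 < A) (j : Fin A) (c : ℝ) :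
    ∫ x, Real.exp (c * (arc (fun u => bidx A hA (x u).2) j).card)
      ∂(Measure.pi fun _ : Fin N => pointLaw ζ α N) ≤ Real.exp ((Real.exp c - 1) * (N / A)) := by
  have hA' : (1 : ℝ) ≤ A := by exact_mod_cast hA
  rw [arc_moment hζ hα hN hA j c]
  have h1 : 0 ≤ 1 + (Real.exp c - 1) / A := by
    have h2 : -1 ≤ (Real.exp c - 1) / A := by
      rw [le_div_iff₀ (by linarith)]
      have := Real.exp_pos c
      linarith
    linarith
  have h2 : 1 + (Real.exp c - 1) / A ≤ Real.exp ((Real.exp c - 1) / A) := by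
    have := Real.add_one_le_exp ((Real.exp c - 1) / A)
    linarith
  calc _ ≤ Real.exp ((Real.exp c - 1) / A) ^ N := pow_le_pow_left₀ h1 h2 N
    _ = _ := by
      rw [← Real.exp_nat_mul]
      congr 1
      ring

lemma arc_card_meas {A : ℕ} (hA : 0 < A) (j : Fin A) :
    Measurable (fun x : Fin N → ℝ × ℝ =>
      ((arc (fun u => bidx A hA (x u).2) j).card : ℝ)) := by
  have : (fun x : Fin N → ℝ × ℝ => ((arc (fun u => bidx A hA (x u).2) j).card : ℝ)) =
      fun x => ∑ u, (if bidx A hA (x u).2 = j then (1 : ℝ) else 0) := by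
    funext x
    unfold arc
    rw [Finset.card_filter]
    push_cast
    rfl
  rw [this]
  refine Finset.measurable_sum _ fun u _ => Measurable.ite ?_ measurable_const measurable_const
  have h1 : Measurable (fun x : Fin N → ℝ × ℝ => bidx A hA (x u).2) :=
    (bidx_meas A hA).comp (measurable_snd.comp (measurable_pi_apply u))
  exact h1 (measurableSet_singleton j)

lemma arc_exp_integrable {A : ℕ} (hA : 0 < A) (j : Fin A) (c : ℝ) :
    Integrable (fun x : Fin N → ℝ × ℝ =>
      Real.exp (c * (arc (fun u => bidx A hA (x u).2) j).card))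
      (Measure.pi fun _ : Fin N => pointLaw ζ α N) := by
  have := point_prob hζ hα hN
  refine Integrable.of_bound (C := Real.exp (|c| * N)) ?_ (Eventually.of_forall fun x => ?_)
  · exact (Real.measurable_exp.comp
      (measurable_const.mul (arc_card_meas hζ hα hN hA j))).aestronglyMeasurable
  · rw [Real.norm_of_nonneg (Real.exp_pos _).le]
    apply Real.exp_le_exp.2
    have h1 : ((arc (fun u => bidx A hA (x u).2) j).card : ℝ) ≤ N := by
      have := Finset.card_le_univ (arc (fun u => bidx A hA (x u).2) j)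
      rw [Fintype.card_fin] at this
      exact_mod_cast this
    have h2 := le_abs_self c
    have h3 := abs_nonneg c
    have h4 : (0 : ℝ) ≤ (arc (fun u => bidx A hA (x u).2) j).card := by positivity
    nlinarith

/-- probability that an arc is too full -/
lemma full_prob {A : ℕ} (hA : 0 < A) (j : Fin A) {c t : ℝ} (hc : 0 ≤ c) :
    (Measure.pi fun _ : Fin N => pointLaw ζ α N).real
      {x | t ≤ (arc (fun u => bidx A hA (x u).2) j).card} ≤
      Real.exp ((Real.exp c - 1) * (N / A) - c * t) := by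
  have := point_prob hζ hα hN
  have h1 := mul_meas_ge_le_integral_of_nonneg (μ := Measure.pi fun _ : Fin N => pointLaw ζ α N)
    (f := fun x : Fin N → ℝ × ℝ => Real.exp (c * (arc (fun u => bidx A hA (x u).2) j).card))
    (Eventually.of_forall fun x => (Real.exp_pos _).le) (arc_exp_integrable hζ hα hN hA j c)
    (Real.exp (c * t))
  have h2 : (Measure.pi fun _ : Fin N => pointLaw ζ α N).real
      {x | t ≤ (arc (fun u => bidx A hA (x u).2) j).card} ≤
      (Measure.pi fun _ : Fin N => pointLaw ζ α N).real {x : Fin N → ℝ × ℝ | Real.exp (c * t) ≤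
        Real.exp (c * (arc (fun u => bidx A hA (x u).2) j).card)} := by
    refine measureReal_mono ?_ (measure_ne_top _ _)
    intro x hx
    exact Real.exp_le_exp.2 (mul_le_mul_of_nonneg_left hx hc)
  have h3 := arc_moment_le hζ hα hN hA j c
  have h4 : Real.exp (c * t) * (Measure.pi fun _ : Fin N => pointLaw ζ α N).real
      {x | t ≤ (arc (fun u => bidx A hA (x u).2) j).card} ≤
      Real.exp ((Real.exp c - 1) * (N / A)) :=
    (mul_le_mul_of_nonneg_left h2 (Real.exp_pos _).le).trans (h1.trans h3)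
  rw [Real.exp_sub, le_div_iff₀ (Real.exp_pos _), mul_comm]
  exact h4

/-- probability that there are many light arcs -/
lemma light_prob {A : ℕ} (hA : 0 < A) {t : ℝ} (ht : 0 < t) :
    (Measure.pi fun _ : Fin N => pointLaw ζ α N).real
      {x | t ≤ ∑ j : Fin A, Real.exp (-((arc (fun u => bidx A hA (x u).2) j).card / 16))} ≤
      A * Real.exp ((Real.exp (-(1 / 16)) - 1) * (N / A)) / t := by
  have := point_prob hζ hα hN
  have e : ∀ (x : Fin N → ℝ × ℝ) (j : Fin A),
      Real.exp (-((arc (fun u => bidx A hA (x u).2) j).card / 16)) =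
      Real.exp (-(1 / 16) * (arc (fun u => bidx A hA (x u).2) j).card) := by
    intro x j; congr 1; ring
  simp only [e]
  have hi : Integrable (fun x : Fin N → ℝ × ℝ => ∑ j : Fin A,
      Real.exp (-(1 / 16) * (arc (fun u => bidx A hA (x u).2) j).card))
      (Measure.pi fun _ : Fin N => pointLaw ζ α N) :=
    integrable_finsetSum _ fun j _ => arc_exp_integrable hζ hα hN hA j _
  have h1 := mul_meas_ge_le_integral_of_nonneg (μ := Measure.pi fun _ : Fin N => pointLaw ζ α N)
    (f := fun x : Fin N → ℝ × ℝ => ∑ j : Fin A,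
      Real.exp (-(1 / 16) * (arc (fun u => bidx A hA (x u).2) j).card))
    (Eventually.of_forall fun x => Finset.sum_nonneg fun j _ => (Real.exp_pos _).le) hi t
  rw [le_div_iff₀ ht, mul_comm]
  refine h1.trans ?_
  rw [integral_finsetSum _ fun j _ => arc_exp_integrable hζ hα hN hA j _]
  refine (Finset.sum_le_sum fun j _ => arc_moment_le hζ hα hN hA j _).trans ?_
  rw [Finset.sum_const, Finset.card_univ, Fintype.card_fin, nsmul_eq_mul]

end

/-- exponential functional of one pair of angles -/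
def Hlow (L : ℝ) (N : ℕ) (a c : ℝ) : ℝ := Real.exp (-(2 * L * (1 / (2 * L + N * sn a c))))

lemma Hlow_meas {L : ℝ} (hL : 0 < L) (N : ℕ) : Measurable (Function.uncurry (Hlow L N)) := by
  have : Continuous (fun w : ℝ × ℝ => Real.exp (-(2 * L * (1 / (2 * L + N * sn w.1 w.2))))) := by
    refine Real.continuous_exp.comp (Continuous.neg (continuous_const.mul
      (continuous_const.div ?_ fun w => ?_)))
    · unfold sn; fun_prop
    · have := sn_nonneg w.1 w.2
      positivity
  exact this.measurable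

lemma Hlow_comp {L : ℝ} (hL : 0 < L) (N : ℕ) {β : Type*} [MeasurableSpace β] {f g : β → ℝ}
    (hf : Measurable f) (hg : Measurable g) : Measurable (fun b => Hlow L N (f b) (g b)) := by
  have h : Measurable (fun b => Function.uncurry (Hlow L N) (f b, g b)) :=
    (Hlow_meas hL N).comp (hf.prodMk hg)
  exact h

lemma Hlow_pos (L : ℝ) (N : ℕ) (a c : ℝ) : 0 < Hlow L N a c := Real.exp_pos _

lemma Hlow_le_one {L : ℝ} (hL : 0 < L) (N : ℕ) (a c : ℝ) : Hlow L N a c ≤ 1 := by
  unfold Hlow
  apply Real.exp_le_one_iff.2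
  have := sn_nonneg a c
  have : 0 ≤ 2 * L * (1 / (2 * L + N * sn a c)) := by positivity
  linarith

lemma Hlow_one {L : ℝ} (hL : 0 < L) {N : ℕ} (hN4 : 4 ≤ N)
    (hlog : L / 2 ≤ 2 / Real.pi * Real.log (1 + Real.pi * N / (2 * (2 * L)))) (a : ℝ) :
    ∫ c, Hlow L N a c ∂angleLaw ≤ Real.exp (-(L ^ 2 / (2 * N))) := by
  have hN' : (0 : ℝ) < N := by exact_mod_cast (by omega : 0 < N)
  have h1 : ∀ c, Hlow L N a c ≤ 1 - L * (1 / (2 * L + N * sn c a)) := by
    intro c
    unfold Hlow
    rw [sn_comm a c]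
    have h0 := sn_nonneg c a
    set y := 2 * L * (1 / (2 * L + N * sn c a)) with hy
    have hy0 : 0 ≤ y := by positivity
    have hy1 : y ≤ 1 := by
      rw [hy, mul_one_div, div_le_one (by positivity)]
      have : 0 ≤ N * sn c a := by positivity
      linarith
    have h2 : Real.exp (-y) ≤ 1 - y / 2 := by
      have h3 : Real.exp (-y) ≤ 1 / (1 + y) := by
        rw [Real.exp_neg, ← one_div]
        apply one_div_le_one_div_of_le (by positivity)
        have := Real.add_one_le_exp y
        linarith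
      have h4 : 1 / (1 + y) ≤ 1 - y / 2 := by
        rw [div_le_iff₀ (by positivity)]
        nlinarith
      exact h3.trans h4
    have h5 : y / 2 = L * (1 / (2 * L + N * sn c a)) := by rw [hy]; ring
    linarith
  have hint : Integrable (fun c => 1 / (2 * L + N * sn c a)) angleLaw := by
    refine Integrable.of_bound (C := 1 / (2 * L)) ?_ (Eventually.of_forall fun c => ?_)
    · have hc : Continuous (fun c => 1 / (2 * L + N * sn c a)) := by
        refine continuous_const.div ?_ fun c => ?_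
        · unfold sn; fun_prop
        · have := sn_nonneg c a
          positivity
      exact hc.aestronglyMeasurable
    · have := sn_nonneg c a
      rw [Real.norm_of_nonneg (by positivity)]
      apply one_div_le_one_div_of_le (by positivity)
      have : 0 ≤ N * sn c a := by positivity
      linarith
  have h2 : ∫ c, Hlow L N a c ∂angleLaw ≤ ∫ c, (1 - L * (1 / (2 * L + N * sn c a))) ∂angleLaw :=
    integral_mono_of_nonneg (Eventually.of_forall fun c => (Hlow_pos L N a c).le)
      ((integrable_const _).sub (hint.const_mul _)) (Eventually.of_forall h1)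
  rw [integral_sub (integrable_const _) (hint.const_mul _), integral_const_mul] at h2
  simp only [integral_const, probReal_univ, smul_eq_mul, mul_one] at h2
  have h3 := angle_lower (2 * L) N (by positivity) hN' a
  have h4 : L / (2 * N) ≤ ∫ c, 1 / (2 * L + N * sn c a) ∂angleLaw := by
    refine le_trans ?_ h3
    have e : 2 / (Real.pi * N) * Real.log (1 + Real.pi * N / (2 * (2 * L))) =
        (2 / Real.pi * Real.log (1 + Real.pi * N / (2 * (2 * L)))) / N := by
      field_simp
    rw [e, show L / (2 * N) = L / 2 / N by ring]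
    exact div_le_div_of_nonneg_right hlog hN'.le
  have h5 : L ^ 2 / (2 * N) ≤ L * ∫ c, 1 / (2 * L + N * sn c a) ∂angleLaw := by
    calc L ^ 2 / (2 * N) = L * (L / (2 * N)) := by ring
      _ ≤ _ := mul_le_mul_of_nonneg_left h4 hL.le
  have h6 := Real.add_one_le_exp (-(L ^ 2 / (2 * N)))
  linarith

section

variable {ζ α : ℝ} (hζ : 0 < ζ) (hα : 0 < α) {N : ℕ} (hN : 2 ≤ N)

include hζ hα hN

lemma low_expect {L : ℝ} (hL : 0 < L) (hN4 : 4 ≤ N)
    (hlog : L / 2 ≤ 2 / Real.pi * Real.log (1 + Real.pi * N / (2 * (2 * L)))) (u : Fin N) :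
    ∫ x, ∏ v ∈ ({u} : Finset (Fin N))ᶜ, Hlow L N (x u).2 (x v).2
      ∂(Measure.pi fun _ : Fin N => pointLaw ζ α N) ≤ Real.exp (-(3 * L ^ 2 / 8)) := by
  have := point_prob hζ hα hN
  have hN' : (0 : ℝ) < N := by exact_mod_cast (by omega : 0 < N)
  have hN4' : (4 : ℝ) ≤ N := by exact_mod_cast hN4
  have hHm := Hlow_meas hL N
  have hm1 : Measurable (fun w : (Fin N → ℝ × ℝ) × (ℝ × ℝ) => Hlow L N (w.1 u).2 w.2.2) :=
    Hlow_comp hL N (by fun_prop) (by fun_prop)
  have h2 := integral_split_full (pointLaw ζ α N) ({u} : Finset (Fin N)) (fun _ => 1)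
    (fun _ x y => Hlow L N (x u).2 y.2) measurable_const (fun v => hm1)
    (fun _ _ _ => rfl) (fun v x y hxy => by
      rw [hxy u (by simp)]) 1 (by simp) 1 (fun v x y => by
      rw [abs_of_nonneg (Hlow_pos L N _ _).le]; exact Hlow_le_one hL N _ _)
  simp only [one_mul] at h2
  have h3 : ∀ x : Fin N → ℝ × ℝ, ∏ v ∈ ({u} : Finset (Fin N))ᶜ,
      (∫ y, Hlow L N (x u).2 y.2 ∂(pointLaw ζ α N)) ≤ Real.exp (-(3 * L ^ 2 / 8)) := by
    intro x
    rw [Finset.prod_const, Finset.card_compl, Finset.card_singleton, Fintype.card_fin]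
    have e0 : Measurable (fun c => Hlow L N (x u).2 c) := Measurable.of_uncurry_left hHm
    have e1 : ∫ y, Hlow L N (x u).2 y.2 ∂(pointLaw ζ α N) =
        ∫ c, Hlow L N (x u).2 c ∂angleLaw :=
      point_integral_snd hζ hα hN (fun c => Hlow L N (x u).2 c) e0
    rw [e1]
    calc (∫ c, Hlow L N (x u).2 c ∂angleLaw) ^ (N - 1)
        ≤ Real.exp (-(L ^ 2 / (2 * N))) ^ (N - 1) :=
          pow_le_pow_left₀ (integral_nonneg fun c => (Hlow_pos L N _ c).le)
            (Hlow_one hL hN4 hlog _) _
      _ = Real.exp (-(L ^ 2 / (2 * N)) * (N - 1)) := by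
          rw [← Real.exp_nat_mul]
          congr 1
          rw [Nat.cast_sub (by omega)]
          push_cast
          ring
      _ ≤ _ := by
          apply Real.exp_le_exp.2
          have h5 : (3 : ℝ) / 4 ≤ (N - 1) / N := by
            rw [le_div_iff₀ hN']; linarith
          have h6 : -(L ^ 2 / (2 * N)) * (N - 1) = -(L ^ 2 / 2 * ((N - 1) / N)) := by
            field_simp
          rw [h6]
          nlinarith [sq_nonneg L]
  rw [h2]
  calc _ ≤ ∫ _x : Fin N → ℝ × ℝ, Real.exp (-(3 * L ^ 2 / 8))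
        ∂(Measure.pi fun _ : Fin N => pointLaw ζ α N) :=
        integral_mono_of_nonneg (Eventually.of_forall fun x =>
          Finset.prod_nonneg fun v _ => integral_nonneg fun y => (Hlow_pos L N _ _).le)
          (integrable_const _) (Eventually.of_forall h3)
    _ = _ := by simp

/-- probability that a vertex sees too few vertices -/
lemma low_prob {L : ℝ} (hL : 0 < L) (hN4 : 4 ≤ N)
    (hlog : L / 2 ≤ 2 / Real.pi * Real.log (1 + Real.pi * N / (2 * (2 * L)))) (u : Fin N) :
    (Measure.pi fun _ : Fin N => pointLaw ζ α N).real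
      {x | ∑ w ∈ Finset.univ.erase u, 1 / (2 * L + N * sn (x u).2 (x w).2) < L / 8} ≤
      Real.exp (-(L ^ 2 / 8)) := by
  have := point_prob hζ hα hN
  have hHm := Hlow_meas hL N
  have h4 := low_expect hζ hα hN hL hN4 hlog u
  have hterm : ∀ v : Fin N, Measurable (fun x : Fin N → ℝ × ℝ => Hlow L N (x u).2 (x v).2) := by
    intro v
    exact Hlow_comp hL N (by fun_prop) (by fun_prop)
  have hHm2 : Measurable (fun x : Fin N → ℝ × ℝ =>
      ∏ v ∈ ({u} : Finset (Fin N))ᶜ, Hlow L N (x u).2 (x v).2) :=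
    Finset.measurable_prod _ fun v _ => hterm v
  have hint2 : Integrable (fun x : Fin N → ℝ × ℝ =>
      ∏ v ∈ ({u} : Finset (Fin N))ᶜ, Hlow L N (x u).2 (x v).2)
      (Measure.pi fun _ : Fin N => pointLaw ζ α N) := by
    refine Integrable.of_bound (C := 1) hHm2.aestronglyMeasurable
      (Eventually.of_forall fun x => ?_)
    rw [Real.norm_of_nonneg (Finset.prod_nonneg fun v _ => (Hlow_pos L N _ _).le)]
    exact Finset.prod_le_one (fun v _ => (Hlow_pos L N _ _).le) fun v _ => Hlow_le_one hL N _ _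
  have h5 := mul_meas_ge_le_integral_of_nonneg (μ := Measure.pi fun _ : Fin N => pointLaw ζ α N)
    (f := fun x : Fin N → ℝ × ℝ => ∏ v ∈ ({u} : Finset (Fin N))ᶜ, Hlow L N (x u).2 (x v).2)
    (Eventually.of_forall fun x => Finset.prod_nonneg fun v _ => (Hlow_pos L N _ _).le) hint2
    (Real.exp (-(L ^ 2 / 4)))
  have h6 : (Measure.pi fun _ : Fin N => pointLaw ζ α N).real
      {x | ∑ w ∈ Finset.univ.erase u, 1 / (2 * L + N * sn (x u).2 (x w).2) < L / 8} ≤
      (Measure.pi fun _ : Fin N => pointLaw ζ α N).real {x : Fin N → ℝ × ℝ |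
        Real.exp (-(L ^ 2 / 4)) ≤ ∏ v ∈ ({u} : Finset (Fin N))ᶜ, Hlow L N (x u).2 (x v).2} := by
    refine measureReal_mono ?_ (measure_ne_top _ _)
    intro x hx
    simp only [mem_ofPred_eq] at hx ⊢
    unfold Hlow
    rw [← Real.exp_sum]
    apply Real.exp_le_exp.2
    rw [Finset.sum_neg_distrib, ← Finset.mul_sum]
    have e2 : ({u} : Finset (Fin N))ᶜ = Finset.univ.erase u := by
      ext v; simp
    rw [e2]
    set Y := ∑ w ∈ Finset.univ.erase u, 1 / (2 * L + N * sn (x u).2 (x w).2)
    nlinarith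
  have h7 : Real.exp (-(L ^ 2 / 4)) * (Measure.pi fun _ : Fin N => pointLaw ζ α N).real
      {x | ∑ w ∈ Finset.univ.erase u, 1 / (2 * L + N * sn (x u).2 (x w).2) < L / 8} ≤
      Real.exp (-(3 * L ^ 2 / 8)) :=
    (mul_le_mul_of_nonneg_left h6 (Real.exp_pos _).le).trans (h5.trans h4)
  have h8 : Real.exp (-(3 * L ^ 2 / 8)) = Real.exp (-(L ^ 2 / 4)) * Real.exp (-(L ^ 2 / 8)) := by
    rw [← Real.exp_add]; congr 1; ring
  rw [h8] at h7
  exact le_of_mul_le_mul_left h7 (Real.exp_pos _)

end

end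

end Pool.Agent.Helper49.HRG
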