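import Mathlib

open MeasureTheory Set Filter Topology
open scoped ENNReal

namespace Pool.Agent.Helper49.HRG

noncomputable section

lemma second_moment {Ω : Type*} [MeasurableSpace Ω] (μ : Measure Ω) [IsProbabilityMeasure μ]
    {N : ℕ} (hN : 0 < N) (E : Fin N → Set Ω) (hE : ∀ u, MeasurableSet (E u)) {a b : ℝ}
    (ha : 0 < a) (hb : 0 ≤ b) (h1 : ∀ u, μ.real (E u) = a)
    (h2 : ∀ u v, u ≠ v → μ.real (E u ∩ E v) ≤ b) :
    μ.real {ω | ∀ u, ω ∉ E u} ≤ 1 / (N * a) + b / a ^ 2 - 1 := by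
  classical
  have hN' : (0 : ℝ) < N := by exact_mod_cast hN
  set c : ℝ := N * a with hc
  have hc0 : 0 < c := by positivity
  set Z : Set Ω := {ω | ∀ u, ω ∉ E u} with hZ
  have hZm : MeasurableSet Z := by
    have : Z = ⋂ u, (E u)ᶜ := by ext ω; simp [hZ]
    rw [this]
    exact MeasurableSet.iInter fun u => (hE u).compl
  -- the quadratic function
  set f : Ω → ℝ := fun ω => (∑ u, ∑ v, (E u ∩ E v).indicator (1 : Ω → ℝ) ω) -
    2 * c * (∑ u, (E u).indicator (1 : Ω → ℝ) ω) + c ^ 2 with hf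
  have hsq : ∀ ω, f ω = ((∑ u, (E u).indicator (1 : Ω → ℝ) ω) - c) ^ 2 := by
    intro ω
    have e1 : (∑ u, ∑ v, (E u ∩ E v).indicator (1 : Ω → ℝ) ω) =
        (∑ u, (E u).indicator (1 : Ω → ℝ) ω) * (∑ v, (E v).indicator (1 : Ω → ℝ) ω) := by
      rw [Finset.sum_mul_sum]
      refine Finset.sum_congr rfl fun u _ => Finset.sum_congr rfl fun v _ => ?_
      rw [Set.inter_indicator_one]
      rfl
    simp only [hf]
    rw [e1]
    ring
  have hi1 : ∀ s : Set Ω, MeasurableSet s → Integrable (s.indicator (1 : Ω → ℝ)) μ := fun s hs =>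
    (integrable_const (1 : ℝ)).indicator hs
  have hiA : Integrable (fun ω => ∑ u, ∑ v, (E u ∩ E v).indicator (1 : Ω → ℝ) ω) μ :=
    integrable_finsetSum _ fun u _ => integrable_finsetSum _ fun v _ =>
      hi1 _ ((hE u).inter (hE v))
  have hiB : Integrable (fun ω => ∑ u, (E u).indicator (1 : Ω → ℝ) ω) μ :=
    integrable_finsetSum _ fun u _ => hi1 _ (hE u)
  have hfi : Integrable f μ := (hiA.sub (hiB.const_mul (2 * c))).add (integrable_const _)
  have hint : ∫ ω, f ω ∂μ = (∑ u, ∑ v, μ.real (E u ∩ E v)) - 2 * c * (∑ u, μ.real (E u)) +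
      c ^ 2 := by
    have e0 : ∀ s : Set Ω, MeasurableSet s → ∫ ω, s.indicator (1 : Ω → ℝ) ω ∂μ = μ.real s :=
      fun s hs => integral_indicator_one hs
    have e1 : ∫ ω, f ω ∂μ = (∫ ω, ((∑ u, ∑ v, (E u ∩ E v).indicator (1 : Ω → ℝ) ω) -
        2 * c * (∑ u, (E u).indicator (1 : Ω → ℝ) ω)) ∂μ) + ∫ ω, c ^ 2 ∂μ :=
      integral_add (hiA.sub (hiB.const_mul (2 * c))) (integrable_const _)
    have e2 : ∫ ω, ((∑ u, ∑ v, (E u ∩ E v).indicator (1 : Ω → ℝ) ω) -
        2 * c * (∑ u, (E u).indicator (1 : Ω → ℝ) ω)) ∂μ =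
        (∫ ω, (∑ u, ∑ v, (E u ∩ E v).indicator (1 : Ω → ℝ) ω) ∂μ) -
        ∫ ω, 2 * c * (∑ u, (E u).indicator (1 : Ω → ℝ) ω) ∂μ :=
      integral_sub hiA (hiB.const_mul (2 * c))
    rw [e1, e2, integral_const_mul,
      integral_finsetSum _ (fun u _ => integrable_finsetSum _ fun v _ =>
        hi1 _ ((hE u).inter (hE v))),
      integral_finsetSum _ (fun u _ => hi1 _ (hE u))]
    congr 1
    · congr 1
      · refine Finset.sum_congr rfl fun u _ => ?_
        rw [integral_finsetSum _ (fun v _ => hi1 _ ((hE u).inter (hE v)))]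
        exact Finset.sum_congr rfl fun v _ => e0 _ ((hE u).inter (hE v))
      · congr 1
        exact Finset.sum_congr rfl fun u _ => e0 _ (hE u)
    · simp
  have hlow : c ^ 2 * μ.real Z ≤ ∫ ω, f ω ∂μ := by
    have e1 : ∫ ω, c ^ 2 * Z.indicator (1 : Ω → ℝ) ω ∂μ = c ^ 2 * μ.real Z := by
      rw [integral_const_mul, integral_indicator_one hZm]
    rw [← e1]
    refine integral_mono ((hi1 _ hZm).const_mul _) hfi fun ω => ?_
    simp only
    rw [hsq]
    by_cases hω : ω ∈ Z
    · rw [indicator_of_mem hω]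
      have e2 : ∑ u, (E u).indicator (1 : Ω → ℝ) ω = 0 :=
        Finset.sum_eq_zero fun u _ => indicator_of_notMem (hω u) _
      rw [e2]
      simp
    · rw [indicator_of_notMem hω]
      simp only [mul_zero]
      exact sq_nonneg _
  have hup : ∑ u, ∑ v, μ.real (E u ∩ E v) ≤ N * a + N * (N * b) := by
    have e1 : ∀ u : Fin N, ∑ v, μ.real (E u ∩ E v) ≤ a + N * b := by
      intro u
      rw [← Finset.add_sum_erase _ _ (Finset.mem_univ u)]
      refine add_le_add ?_ ?_
      · rw [inter_self, h1 u]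
      · calc ∑ v ∈ Finset.univ.erase u, μ.real (E u ∩ E v) ≤
            ∑ v ∈ Finset.univ.erase u, b := Finset.sum_le_sum fun v hv =>
              h2 u v (Finset.ne_of_mem_erase hv).symm
          _ = (Finset.univ.erase u).card * b := by rw [Finset.sum_const, nsmul_eq_mul]
          _ ≤ N * b := by
              apply mul_le_mul_of_nonneg_right _ hb
              have := Finset.card_le_univ (Finset.univ.erase u)
              rw [Fintype.card_fin] at this
              exact_mod_cast this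
    calc _ ≤ ∑ _u : Fin N, (a + N * b) := Finset.sum_le_sum fun u _ => e1 u
      _ = _ := by rw [Finset.sum_const, Finset.card_univ, Fintype.card_fin, nsmul_eq_mul]; ring
  have hs1 : ∑ u, μ.real (E u) = c := by
    rw [Finset.sum_congr rfl fun u _ => h1 u, Finset.sum_const, Finset.card_univ,
      Fintype.card_fin, nsmul_eq_mul]
  rw [hint, hs1] at hlow
  have h3 : c ^ 2 * μ.real Z ≤ N * a + N * (N * b) - c ^ 2 := by nlinarith
  have h4 : μ.real Z ≤ (N * a + N * (N * b) - c ^ 2) / c ^ 2 := by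
    rw [le_div_iff₀ (by positivity)]
    linarith
  refine h4.trans (le_of_eq ?_)
  rw [hc]
  field_simp

end

end Pool.Agent.Helper49.HRG
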