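import Pool.Agent.Helper49.HRG.PairIso
import Pool.Agent.Helper49.HRG.SecondMoment
import Pool.Agent.Helper49.HRG.LargeProb

open MeasureTheory Set Filter Topology
open scoped ENNReal

namespace Pool.Agent.Helper49.HRG

noncomputable section

lemma far_bound {N : ℕ} (hN : 2 ≤ N) {q q' r ε3 q0 : ℝ} (hq : 0 ≤ q) (hq' : 0 ≤ q')
    (hqq : q ≤ q0) (hqq' : q' ≤ q0) (hq0 : q0 ≤ 1 / 2) (hr : 0 ≤ r) (hNr : N * r ≤ ε3)
    (hH : 0 ≤ 1 - q - q' + r) :
    (1 - q - q' + r) ^ (N - 2) ≤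
      Real.exp (4 * ε3) / (1 - q0) ^ 2 * ((1 - q) ^ (N - 1) * (1 - q') ^ (N - 1)) := by
  have h1 : 1 / 2 ≤ 1 - q := by linarith
  have h1' : 1 / 2 ≤ 1 - q' := by linarith
  have h2 : 1 - q - q' + r ≤ (1 - q) * (1 - q') * Real.exp (4 * r) := by
    have e1 : 1 + 4 * r ≤ Real.exp (4 * r) := by
      have := Real.add_one_le_exp (4 * r)
      linarith
    have e2 : 1 / 4 ≤ (1 - q) * (1 - q') := by nlinarith
    have e3 : (1 - q) * (1 - q') * (1 + 4 * r) ≤ (1 - q) * (1 - q') * Real.exp (4 * r) :=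
      mul_le_mul_of_nonneg_left e1 (by linarith)
    nlinarith
  have h3 : (1 - q - q' + r) ^ (N - 2) ≤ ((1 - q) * (1 - q') * Real.exp (4 * r)) ^ (N - 2) :=
    pow_le_pow_left₀ hH h2 _
  have h4 : Real.exp (4 * r) ^ (N - 2) ≤ Real.exp (4 * ε3) := by
    rw [← Real.exp_nat_mul]
    apply Real.exp_le_exp.2
    have : ((N - 2 : ℕ) : ℝ) ≤ N := by exact_mod_cast Nat.sub_le _ _
    nlinarith
  have h5 : (1 - q) ^ (N - 1) = (1 - q) ^ (N - 2) * (1 - q) := by
    rw [← pow_succ]; congr 1; omega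
  have h6 : (1 - q') ^ (N - 1) = (1 - q') ^ (N - 2) * (1 - q') := by
    rw [← pow_succ]; congr 1; omega
  have h7 : 0 < 1 - q0 := by linarith
  have h8 : (1 - q0) ^ 2 ≤ (1 - q) * (1 - q') := by
    rw [sq]
    exact mul_le_mul (by linarith) (by linarith) h7.le (by linarith)
  rw [h5, h6]
  set P := (1 - q) ^ (N - 2) * (1 - q') ^ (N - 2) with hP
  have hP0 : 0 ≤ P := mul_nonneg (pow_nonneg (by linarith) _) (pow_nonneg (by linarith) _)
  calc (1 - q - q' + r) ^ (N - 2) ≤ ((1 - q) * (1 - q') * Real.exp (4 * r)) ^ (N - 2) := h3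
    _ = P * Real.exp (4 * r) ^ (N - 2) := by rw [mul_pow, mul_pow]
    _ ≤ P * Real.exp (4 * ε3) := mul_le_mul_of_nonneg_left h4 hP0
    _ = Real.exp (4 * ε3) / (1 - q0) ^ 2 * (P * (1 - q0) ^ 2) := by field_simp
    _ ≤ Real.exp (4 * ε3) / (1 - q0) ^ 2 * (P * ((1 - q) * (1 - q'))) := by
        apply mul_le_mul_of_nonneg_left _ (by positivity)
        exact mul_le_mul_of_nonneg_left h8 hP0
    _ = _ := by rw [hP]; ring

lemma close_bound {N : ℕ} (hN : 2 ≤ N) {q H : ℝ} (hq : 0 ≤ q) (hq2 : q ≤ 1 / 2) (hH0 : 0 ≤ H)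
    (hH : H ≤ 1 - q) : H ^ (N - 2) ≤ 2 * (1 - q) ^ (N - 1) := by
  have h1 : H ^ (N - 2) ≤ (1 - q) ^ (N - 2) := pow_le_pow_left₀ hH0 hH _
  have h5 : (1 - q) ^ (N - 1) = (1 - q) ^ (N - 2) * (1 - q) := by
    rw [← pow_succ]; congr 1; omega
  rw [h5]
  have h2 : 0 ≤ (1 - q) ^ (N - 2) := pow_nonneg (by linarith) _
  nlinarith

/-- the isolation probability function -/
def gI (ζ α : ℝ) (N : ℕ) (y : ℝ × ℝ) : ℝ := (1 - qf ζ α N (fun _ : Unit => y)) ^ (N - 1)

section

variable {ζ α : ℝ} (hζ : 0 < ζ) (hα : 0 < α) {N : ℕ} (hN : 2 ≤ N)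

include hζ hα hN

lemma gI_meas : Measurable (gI ζ α N) :=
  (measurable_const.sub (qf_unit_meas hζ hα hN)).pow_const _

lemma gI_mem (y : ℝ × ℝ) : gI ζ α N y ∈ Icc (0 : ℝ) 1 := by
  have h1 := qf_nonneg hζ hα hN (fun _ : Unit => y)
  have h2 := qf_le_one hζ hα hN (fun _ : Unit => y)
  exact ⟨pow_nonneg (by linarith) _, pow_le_one₀ (by linarith) (by linarith)⟩

lemma gI_integrable : Integrable (gI ζ α N) (pointLaw ζ α N) := by
  have := point_prob hζ hα hN
  refine Integrable.of_bound (gI_meas hζ hα hN).aestronglyMeasurable 1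
    (Eventually.of_forall fun y => ?_)
  have h := gI_mem hζ hα hN y
  rw [Real.norm_of_nonneg h.1]
  exact h.2

/-- bound of the pair integral -/
lemma pair_integral (T : Set (ℝ × ℝ)) (hT : MeasurableSet T) {K ε' : ℝ} (hK : 0 < K)
    (hε' : 0 ≤ ε')
    (hfar : ∀ y z : ℝ × ℝ, y.1 ∈ Icc 0 (discRadius ζ N) → z.1 ∈ Icc 0 (discRadius ζ N) →
      y ∈ T → z ∈ T → 1 / K ≤ sn z.2 y.2 →
      Hp ζ α N y z ^ (N - 2) ≤ (1 + ε') * (gI ζ α N y * gI ζ α N z))
    (hclose : ∀ y z : ℝ × ℝ, y.1 ∈ Icc 0 (discRadius ζ N) → y ∈ T →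
      Hp ζ α N y z ^ (N - 2) ≤ 2 * gI ζ α N y) :
    ∫ y, ∫ z, T.indicator (1 : ℝ × ℝ → ℝ) y * T.indicator (1 : ℝ × ℝ → ℝ) z *
        Hp ζ α N y z ^ (N - 2) ∂(pointLaw ζ α N) ∂(pointLaw ζ α N) ≤
      (∫ y in T, gI ζ α N y ∂(pointLaw ζ α N)) *
        ((1 + ε') * (∫ y in T, gI ζ α N y ∂(pointLaw ζ α N)) +
          4 * (1 / K * Real.log (1 + K))) := by
  have := point_prob hζ hα hN
  set a := ∫ y in T, gI ζ α N y ∂(pointLaw ζ α N) with ha
  have hTg : Integrable (fun y => T.indicator (gI ζ α N) y) (pointLaw ζ α N) :=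
    (gI_integrable hζ hα hN).indicator hT
  have ha' : ∫ y, T.indicator (gI ζ α N) y ∂(pointLaw ζ α N) = a := integral_indicator hT
  have hTg0 : ∀ y, 0 ≤ T.indicator (gI ζ α N) y := fun y =>
    indicator_nonneg (fun z _ => (gI_mem hζ hα hN z).1) y
  -- the angular function
  have hcont : ∀ θ0 : ℝ, Continuous (fun θ => 1 / (1 + K * sn θ θ0)) := by
    intro θ0
    refine continuous_const.div ?_ fun φ => ?_
    · unfold sn; fun_prop
    · have := sn_nonneg φ θ0
      positivity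
  have hang : ∀ y : ℝ × ℝ, Integrable (fun z : ℝ × ℝ => 1 / (1 + K * sn z.2 y.2))
      (pointLaw ζ α N) := by
    intro y
    refine Integrable.of_bound (C := 1) ?_ (Eventually.of_forall fun z => ?_)
    · exact ((hcont y.2).measurable.comp measurable_snd).aestronglyMeasurable
    · have := sn_nonneg z.2 y.2
      rw [Real.norm_of_nonneg (by positivity), div_le_one (by positivity)]
      have : 0 ≤ K * sn z.2 y.2 := by positivity
      linarith
  have hpt : ∀ y : ℝ × ℝ, y.1 ∈ Icc 0 (discRadius ζ N) →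
      ∀ z : ℝ × ℝ, z.1 ∈ Icc 0 (discRadius ζ N) →
      T.indicator (1 : ℝ × ℝ → ℝ) y * T.indicator (1 : ℝ × ℝ → ℝ) z *
        Hp ζ α N y z ^ (N - 2) ≤
      T.indicator (gI ζ α N) y * ((1 + ε') * T.indicator (gI ζ α N) z +
        4 * (1 / (1 + K * sn z.2 y.2))) := by
    intro y hy z hz
    have hsn := sn_nonneg z.2 y.2
    have hpos : 0 ≤ 1 / (1 + K * sn z.2 y.2) := by positivity
    have hrhs : 0 ≤ T.indicator (gI ζ α N) y * ((1 + ε') * T.indicator (gI ζ α N) z +
        4 * (1 / (1 + K * sn z.2 y.2))) := by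
      have := hTg0 y
      have := hTg0 z
      positivity
    by_cases hyT : y ∈ T
    swap
    · rw [indicator_of_notMem hyT, indicator_of_notMem hyT]; simp
    by_cases hzT : z ∈ T
    swap
    · rw [indicator_of_notMem hzT, mul_zero, zero_mul]
      exact hrhs
    rw [indicator_of_mem hyT, indicator_of_mem hzT, indicator_of_mem hyT, indicator_of_mem hzT]
    simp only [Pi.one_apply, one_mul]
    have hgy := (gI_mem hζ hα hN y).1
    have hgz := (gI_mem hζ hα hN z).1
    by_cases hc : 1 / K ≤ sn z.2 y.2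
    · have h1 := hfar y z hy hz hyT hzT hc
      have h2 : 0 ≤ gI ζ α N y * (4 * (1 / (1 + K * sn z.2 y.2))) := by positivity
      calc _ ≤ _ := h1
        _ ≤ (1 + ε') * (gI ζ α N y * gI ζ α N z) +
            gI ζ α N y * (4 * (1 / (1 + K * sn z.2 y.2))) := by linarith
        _ = _ := by ring
    · push Not at hc
      have h1 := hclose y z hy hyT
      have h2 : 1 ≤ 2 * (1 / (1 + K * sn z.2 y.2)) := by
        rw [mul_one_div, one_le_div (by positivity)]
        rw [lt_div_iff₀ hK] at hc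
        linarith
      have h3 : 0 ≤ gI ζ α N y * ((1 + ε') * gI ζ α N z) := by positivity
      calc _ ≤ 2 * gI ζ α N y := h1
        _ ≤ gI ζ α N y * (4 * (1 / (1 + K * sn z.2 y.2))) := by nlinarith
        _ ≤ _ := by linarith
  have hinner : ∀ y : ℝ × ℝ, y.1 ∈ Icc 0 (discRadius ζ N) →
      ∫ z, T.indicator (1 : ℝ × ℝ → ℝ) y * T.indicator (1 : ℝ × ℝ → ℝ) z *
        Hp ζ α N y z ^ (N - 2) ∂(pointLaw ζ α N) ≤
      T.indicator (gI ζ α N) y * ((1 + ε') * a + 4 * (1 / K * Real.log (1 + K))) := by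
    intro y hy
    have h1 : ∫ z, T.indicator (1 : ℝ × ℝ → ℝ) y * T.indicator (1 : ℝ × ℝ → ℝ) z *
        Hp ζ α N y z ^ (N - 2) ∂(pointLaw ζ α N) ≤
        ∫ z, T.indicator (gI ζ α N) y * ((1 + ε') * T.indicator (gI ζ α N) z +
        4 * (1 / (1 + K * sn z.2 y.2))) ∂(pointLaw ζ α N) := by
      refine integral_mono_of_nonneg (Eventually.of_forall fun z => ?_)
        (((hTg.const_mul _).add ((hang y).const_mul _)).const_mul _) ?_
      · simp only [Pi.zero_apply]
        have e1 : 0 ≤ T.indicator (1 : ℝ × ℝ → ℝ) y := indicator_nonneg (fun _ _ => by simp) y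
        have e2 : 0 ≤ T.indicator (1 : ℝ × ℝ → ℝ) z := indicator_nonneg (fun _ _ => by simp) z
        exact mul_nonneg (mul_nonneg e1 e2) (pow_nonneg (Hp_nonneg hζ hα hN y z) _)
      · filter_upwards [point_support hζ hα hN] with z hz
        exact hpt y hy z hz
    refine h1.trans ?_
    rw [integral_const_mul, integral_add (hTg.const_mul _) ((hang y).const_mul _),
      integral_const_mul, integral_const_mul, ha']
    apply mul_le_mul_of_nonneg_left _ (hTg0 y)
    have h2 : ∫ z : ℝ × ℝ, 1 / (1 + K * sn z.2 y.2) ∂(pointLaw ζ α N) ≤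
        1 / K * Real.log (1 + K) := by
      rw [point_integral_snd hζ hα hN (fun θ => 1 / (1 + K * sn θ y.2)) (hcont y.2).measurable]
      exact angle_crude K hK y.2
    linarith
  have hK1 : 0 ≤ 1 / K * Real.log (1 + K) :=
    mul_nonneg (by positivity) (Real.log_nonneg (by linarith))
  calc _ ≤ ∫ y, T.indicator (gI ζ α N) y * ((1 + ε') * a + 4 * (1 / K * Real.log (1 + K)))
        ∂(pointLaw ζ α N) := by
        refine integral_mono_of_nonneg (Eventually.of_forall fun y => ?_) (hTg.mul_const _) ?_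
        · refine integral_nonneg fun z => ?_
          simp only [Pi.zero_apply]
          have e1 : 0 ≤ T.indicator (1 : ℝ × ℝ → ℝ) y := indicator_nonneg (fun _ _ => by simp) y
          have e2 : 0 ≤ T.indicator (1 : ℝ × ℝ → ℝ) z := indicator_nonneg (fun _ _ => by simp) z
          exact mul_nonneg (mul_nonneg e1 e2) (pow_nonneg (Hp_nonneg hζ hα hN y z) _)
        · filter_upwards [point_support hζ hα hN] with y hy
          exact hinner y hy
    _ = _ := by rw [integral_mul_const, ha']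

/-- lower bound of the mean number of isolated light vertices -/
lemma a_lower (T : Set (ℝ × ℝ)) (hT : MeasurableSet T) {q0 : ℝ} (hq0 : q0 ≤ 1 / 2)
    (hq : ∀ y : ℝ × ℝ, y.1 ∈ Icc 0 (discRadius ζ N) → y ∈ T →
      qf ζ α N (fun _ : Unit => y) ≤ q0) :
    (pointLaw ζ α N).real T * Real.exp (-(N * q0 / (1 - q0))) ≤
      ∫ y in T, gI ζ α N y ∂(pointLaw ζ α N) := by
  have := point_prob hζ hα hN
  have h1 : ∀ y : ℝ × ℝ, y.1 ∈ Icc 0 (discRadius ζ N) → y ∈ T →
      Real.exp (-(N * q0 / (1 - q0))) ≤ gI ζ α N y := by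
    intro y hy hyT
    have h2 := hq y hy hyT
    have h3 := qf_nonneg hζ hα hN (fun _ : Unit => y)
    unfold gI
    set q := qf ζ α N (fun _ : Unit => y)
    have h4 : 0 < 1 - q := by linarith
    have h5 : Real.exp (-(q / (1 - q))) ≤ 1 - q := by
      rw [Real.exp_neg, inv_le_comm₀ (Real.exp_pos _) h4]
      have := Real.add_one_le_exp (q / (1 - q))
      have e : (1 - q)⁻¹ = q / (1 - q) + 1 := by field_simp; ring
      rw [e]; exact this
    have h6 : Real.exp (-(q / (1 - q))) ^ (N - 1) ≤ (1 - q) ^ (N - 1) :=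
      pow_le_pow_left₀ (Real.exp_pos _).le h5 _
    refine le_trans ?_ h6
    rw [← Real.exp_nat_mul]
    apply Real.exp_le_exp.2
    have h7 : q / (1 - q) ≤ q0 / (1 - q0) := by
      rw [div_le_div_iff₀ h4 (by linarith)]
      nlinarith
    have h8 : ((N - 1 : ℕ) : ℝ) ≤ N := by exact_mod_cast Nat.sub_le _ _
    have h9 : 0 ≤ q / (1 - q) := by positivity
    have h10 : 0 ≤ q0 / (1 - q0) := h9.trans h7
    have h11 : ((N - 1 : ℕ) : ℝ) * (q / (1 - q)) ≤ N * (q0 / (1 - q0)) :=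
      mul_le_mul h8 h7 h9 (Nat.cast_nonneg _)
    have h12 : N * q0 / (1 - q0) = N * (q0 / (1 - q0)) := by ring
    rw [h12]
    linarith
  have h2 : ∫ y in T, Real.exp (-(N * q0 / (1 - q0))) ∂(pointLaw ζ α N) ≤
      ∫ y in T, gI ζ α N y ∂(pointLaw ζ α N) := by
    refine integral_mono_ae (integrable_const _) (gI_integrable hζ hα hN).integrableOn ?_
    filter_upwards [ae_restrict_mem hT, ae_restrict_of_ae (point_support hζ hα hN)] with y hyT hy
    exact h1 y hy hyT
  rw [setIntegral_const, smul_eq_mul] at h2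
  exact h2

end

/-- the proportion of light vertices is bounded below -/
lemma light_lower {ζ α : ℝ} (hζ : 0 < ζ) (hα : 0 < α) {ε : ℝ} (hε : 0 < ε) :
    ∃ τ0 : ℝ, 0 < τ0 ∧ ∀ᶠ N : ℕ in atTop,
      τ0 ≤ (pointLaw ζ α N).real {y | wt ζ N y.1 ≤ 1 + ε} := by
  set t := 2 / ζ * Real.log (1 + ε) with ht
  have hlog : 0 < Real.log (1 + ε) := Real.log_pos (by linarith)
  have ht0 : 0 < t := by positivity
  have h1 := (rad_cdf hζ hα ht0.le).const_sub 1
  have h2 : 0 < 1 - Real.exp (-(α * t)) := by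
    have : Real.exp (-(α * t)) < 1 :=
      (Real.exp_lt_exp.2 (by
        have : 0 < α * t := by positivity
        linarith : -(α * t) < 0)).trans_eq Real.exp_zero
    linarith
  refine ⟨(1 - Real.exp (-(α * t))) / 2, by linarith, ?_⟩
  filter_upwards [h1.eventually (le_mem_nhds (show (1 - Real.exp (-(α * t))) / 2 <
    1 - Real.exp (-(α * t)) by linarith)), eventually_ge_atTop 2] with N g1 hN
  have := rad_prob hζ hα hN
  refine g1.trans ?_
  have hm : MeasurableSet {r : ℝ | wt ζ N r ≤ 1 + ε} :=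
    measurableSet_le (wt_continuous ζ N).measurable measurable_const
  have e1 : (pointLaw ζ α N).real {y | wt ζ N y.1 ≤ 1 + ε} =
      (radiusLaw ζ α N).real {r | wt ζ N r ≤ 1 + ε} := by
    have h3 : MeasurePreserving (Prod.fst : ℝ × ℝ → ℝ) (pointLaw ζ α N) (radiusLaw ζ α N) := by
      unfold pointLaw
      exact measurePreserving_fst
    exact h3.measureReal_preimage hm.nullMeasurableSet
  rw [e1, ← probReal_compl_eq_one_sub measurableSet_Icc]
  rw [measureReal_def, measureReal_def]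
  refine ENNReal.toReal_mono (measure_ne_top _ _) (measure_mono_ae ?_)
  filter_upwards [rad_support hζ hα hN] with r hr hr2
  change wt ζ N r ≤ 1 + ε
  have h3 : discRadius ζ N - t < r := by
    by_contra hcon
    push Not at hcon
    exact hr2 ⟨hr.1, hcon⟩
  rw [wt_eq' hζ (by omega)]
  have h4 : ζ / 2 * (discRadius ζ N - r) ≤ Real.log (1 + ε) := by
    have : ζ / 2 * t = Real.log (1 + ε) := by rw [ht]; field_simp
    rw [← this]
    apply mul_le_mul_of_nonneg_left _ (by positivity)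
    linarith
  calc _ ≤ Real.exp (Real.log (1 + ε)) := Real.exp_le_exp.2 h4
    _ = 1 + ε := Real.exp_log (by linarith)

end

end Pool.Agent.Helper49.HRG
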