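import Pool.Agent.Helper49.HRG.Connected
import Pool.Agent.Helper49.HRG.Disconnected

open MeasureTheory Set Filter Topology
open scoped ENNReal

namespace Pool.Agent.Helper49.HRG

noncomputable section

theorem disconnected_tendsto {ζ α : ℝ} (hζ : 0 < ζ) (hα : 0 < α) (h : ζ / 2 < α)
    (hc : cc ζ α < 1) :
    Tendsto (fun N : ℕ => (muN ζ α N).real {ω | (GG ζ N ω).Connected}) atTop (𝓝 0) := by
  obtain ⟨ε, hε0, hε1, hq⟩ := q_upper hζ hα h hc
  obtain ⟨τ0, hτ0, hτ⟩ := light_lower hζ hα hε0
  have hcc := cc_pos hα h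
  set c' := (1 + cc ζ α) / 2 with hc'def
  have hc'0 : 0 < c' := by rw [hc'def]; linarith
  have hc'1 : c' < 1 := by rw [hc'def]; linarith
  set δ := (1 - c') / 2 with hδdef
  have hδ0 : 0 < δ := by rw [hδdef]; linarith
  rw [tendsto_order]
  constructor
  · intro b hb
    filter_upwards with N
    exact lt_of_lt_of_le hb measureReal_nonneg
  intro b hb
  set ε' := b / 4 with hε'def
  have hε'0 : 0 < ε' := by positivity
  set ε3 := Real.log (1 + ε' / 2) / 4 with hε3def
  have hε30 : 0 < ε3 := by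
    have := Real.log_pos (show 1 < 1 + ε' / 2 by linarith)
    positivity
  have hexp3 : Real.exp (4 * ε3) = 1 + ε' / 2 := by
    rw [hε3def, show 4 * (Real.log (1 + ε' / 2) / 4) = Real.log (1 + ε' / 2) by ring,
      Real.exp_log (by linarith)]
  -- limits
  have hlog1 : Tendsto (fun N : ℕ => Real.log N / (N : ℝ)) atTop (𝓝 0) := by
    have h2 : (fun x : ℝ => Real.log x) =o[atTop] (fun x : ℝ => x) := Real.isLittleO_log_id_atTop
    exact (h2.tendsto_div_nhds_zero).comp tendsto_natCast_atTop_atTop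
  have hlog2 : Tendsto (fun N : ℕ => Real.log N ^ 2 / (N : ℝ)) atTop (𝓝 0) := by
    have h2 : (fun x : ℝ => Real.log x ^ 2) =o[atTop] (fun x : ℝ => x) :=
      Real.isLittleO_pow_log_id_atTop
    exact (h2.tendsto_div_nhds_zero).comp tendsto_natCast_atTop_atTop
  have hq0 : Tendsto (fun N : ℕ => c' * Real.log N / (N : ℝ)) atTop (𝓝 0) := by
    have := hlog1.const_mul c'
    rw [mul_zero] at this
    refine this.congr fun N => ?_
    ring
  have hq2 : Tendsto (fun N : ℕ => c' * Real.log N / (N : ℝ) * (c' * Real.log N + 1)) atTop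
      (𝓝 0) := by
    have h1 := (hlog2.const_mul (c' ^ 2)).add hq0
    rw [mul_zero, zero_add] at h1
    refine h1.congr fun N => ?_
    ring
  have hq3 : Tendsto (fun N : ℕ => (1 + ε' / 2) / (1 - c' * Real.log N / (N : ℝ)) ^ 2) atTop
      (𝓝 ((1 + ε' / 2) / (1 - 0) ^ 2)) :=
    tendsto_const_nhds.div ((tendsto_const_nhds.sub hq0).pow 2) (by norm_num)
  have e0 : (1 + ε' / 2) / (1 - (0 : ℝ)) ^ 2 = 1 + ε' / 2 := by norm_num
  rw [e0] at hq3
  have hx1 : Tendsto (fun N : ℕ => Real.exp 1 / τ0 * Real.exp (-(2 * δ * Real.log N))) atTop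
      (𝓝 0) := by
    have h1 : Tendsto (fun N : ℕ => Real.exp (-(2 * δ * Real.log N))) atTop (𝓝 0) :=
      Real.tendsto_exp_neg_atTop_nhds_zero.comp (log_tendsto.const_mul_atTop (by positivity))
    have := h1.const_mul (Real.exp 1 / τ0)
    rwa [mul_zero] at this
  have hx2 : Tendsto (fun N : ℕ => 4 * (Real.exp 1 / τ0) * ((Real.log N + 1) *
      Real.exp (-(δ * Real.log N)))) atTop (𝓝 0) := by
    have h0 : Tendsto (fun x : ℝ => x * Real.exp (-(δ * x))) atTop (𝓝 0) := by
      have h0 := Real.tendsto_pow_mul_exp_neg_atTop_nhds_zero 1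
      have h2 : Tendsto (fun x : ℝ => δ * x) atTop atTop := tendsto_id.const_mul_atTop hδ0
      have h3 := (h0.comp h2).const_mul (δ⁻¹)
      rw [mul_zero] at h3
      refine h3.congr fun x => ?_
      simp only [Function.comp]
      rw [pow_one, ← mul_assoc, inv_mul_cancel_left₀ hδ0.ne']
    have h1 : Tendsto (fun x : ℝ => Real.exp (-(δ * x))) atTop (𝓝 0) :=
      Real.tendsto_exp_neg_atTop_nhds_zero.comp (tendsto_id.const_mul_atTop hδ0)
    have h2 := ((h0.add h1).const_mul (4 * (Real.exp 1 / τ0))).comp log_tendsto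
    rw [add_zero, mul_zero] at h2
    refine h2.congr fun N => ?_
    simp only [Function.comp]
    ring
  filter_upwards [hq, hτ, rr_small hζ hα h hδ0 hε30,
    hq0.eventually (ge_mem_nhds (show (0 : ℝ) < 1 / 2 by norm_num)),
    hq2.eventually (ge_mem_nhds one_pos),
    hq3.eventually (ge_mem_nhds (show 1 + ε' / 2 < 1 + ε' by linarith)),
    hx1.eventually (ge_mem_nhds hε'0), hx2.eventually (ge_mem_nhds hε'0),
    eventually_ge_atTop 2] with N g1 g2 g3 g4 g5 g6 g7 g8 hN
  have := point_prob hζ hα hN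
  have hN1 : 1 ≤ N := by omega
  have hN0 : 0 < N := by omega
  have hN' : (0 : ℝ) < N := by exact_mod_cast hN1
  have hN2 : (2 : ℝ) ≤ N := by exact_mod_cast hN
  set L := Real.log N with hL
  have hL0 : 0 ≤ L := Real.log_nonneg (by exact_mod_cast hN1)
  have hexpL : Real.exp L = N := Real.exp_log hN'
  set q0 := c' * L / N with hq0def
  have hq00 : 0 ≤ q0 := by positivity
  set T : Set (ℝ × ℝ) := {y | wt ζ N y.1 ≤ 1 + ε} with hTdef
  have hT : MeasurableSet T :=
    measurableSet_le ((wt_continuous ζ N).measurable.comp measurable_fst) measurable_const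
  have hqT : ∀ y : ℝ × ℝ, y.1 ∈ Icc 0 (discRadius ζ N) → y ∈ T →
      qf ζ α N (fun _ : Unit => y) ≤ q0 := by
    intro y hy hyT
    have := g1 y hy hyT
    rw [hq0def, le_div_iff₀ hN']
    linarith
  -- lower bound for a
  set a := ∫ y in T, gI ζ α N y ∂(pointLaw ζ α N) with hadef
  have ha1 : τ0 * Real.exp (-(c' * L + 1)) ≤ a := by
    refine le_trans ?_ (a_lower hζ hα hN T hT g4 hqT)
    have h1 : N * q0 / (1 - q0) ≤ c' * L + 1 := by
      have e1 : N * q0 = c' * L := by rw [hq0def]; field_simp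
      rw [e1, div_le_iff₀ (by linarith)]
      have e2 : (c' * L + 1) * (1 - q0) = c' * L + 1 - q0 * (c' * L + 1) := by ring
      rw [e2]
      linarith
    exact mul_le_mul g2 (Real.exp_le_exp.2 (by linarith)) (Real.exp_pos _).le
      (hτ0.le.trans g2)
  have ha0 : 0 < a := lt_of_lt_of_le (by positivity) ha1
  -- the scale
  set K := Real.exp ((1 - δ) * L) with hKdef
  have hK : 0 < K := Real.exp_pos _
  have hKN : N / K = Real.exp (δ * L) := by
    rw [hKdef, ← hexpL, ← Real.exp_sub]; congr 1; ring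
  -- the pair bound
  have hpair := pair_integral hζ hα hN T hT hK hε'0.le (by
    intro y z hy hz hyT hzT hs
    have h1 : Real.exp (δ * L) ≤ N * sn y.2 z.2 := by
      rw [← hKN, sn_comm y.2 z.2, div_eq_mul_one_div]
      exact mul_le_mul_of_nonneg_left hs hN'.le
    have hy2 : wt ζ N y.1 ≤ 2 := le_trans (show wt ζ N y.1 ≤ 1 + ε from hyT) (by linarith)
    have hz2 : wt ζ N z.1 ≤ 2 := le_trans (show wt ζ N z.1 ≤ 1 + ε from hzT) (by linarith)
    have h2 := g3 y z hy hz hy2 hz2 h1
    have h3 := hqT y hy hyT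
    have h4 := hqT z hz hzT
    have h5 := Hp_nonneg hζ hα hN y z
    rw [Hp_eq hζ hα hN] at h5 ⊢
    have h6 := far_bound hN (qf_nonneg hζ hα hN (fun _ : Unit => y))
      (qf_nonneg hζ hα hN (fun _ : Unit => z)) h3 h4 g4 (rr_nonneg ζ α N y z) h2 h5
    refine h6.trans ?_
    rw [hexp3]
    have h7 : 0 ≤ gI ζ α N y * gI ζ α N z :=
      mul_nonneg (gI_mem hζ hα hN y).1 (gI_mem hζ hα hN z).1
    exact mul_le_mul_of_nonneg_right g6 h7) (by
    intro y z hy hyT
    exact close_bound hN (qf_nonneg hζ hα hN (fun _ : Unit => y))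
      ((hqT y hy hyT).trans g4) (Hp_nonneg hζ hα hN y z) (Hp_le hζ hα hN y z))
  -- second moment
  set E : Fin N → Set ((Fin N → ℝ × ℝ) × (Sym2 (Fin N) → ℝ)) := fun u =>
    {ω | ω.1 u ∈ T ∧ Iso (GG ζ N ω) {u}} with hEdef
  have hEm : ∀ u, MeasurableSet (E u) := by
    intro u
    have h1 : MeasurableSet {ω : (Fin N → ℝ × ℝ) × (Sym2 (Fin N) → ℝ) | ω.1 u ∈ T} :=
      ((measurable_pi_apply u).comp measurable_fst) hT
    have h2 : MeasurableSet {ω : (Fin N → ℝ × ℝ) × (Sym2 (Fin N) → ℝ) | Iso (GG ζ N ω) {u}} :=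
      measurable_graph_event (fun G => Iso G {u})
    exact h1.inter h2
  set lK := 1 / K * Real.log (1 + K) with hlK
  have hlK0 : 0 ≤ lK := mul_nonneg (by positivity) (Real.log_nonneg (by linarith))
  have hsm := second_moment (muN ζ α N) hN0 E hEm ha0
    (b := a * ((1 + ε') * a + 4 * lK)) (by positivity)
    (fun u => iso_light hζ hα hN T hT u)
    (fun u v huv => (iso_pair hζ hα hN T hT huv).trans hpair)
  have hsub : {ω : (Fin N → ℝ × ℝ) × (Sym2 (Fin N) → ℝ) | (GG ζ N ω).Connected} ⊆
      {ω | ∀ u, ω ∉ E u} := by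
    intro ω hω u hu
    have h1 : Iso (GG ζ N ω) {u} := hu.2
    have hne : ∃ v : Fin N, v ≠ u := by
      have : Nontrivial (Fin N) := Fin.nontrivial_iff_two_le.2 hN
      exact exists_ne u
    obtain ⟨v, hv⟩ := hne
    have h2 : (GG ζ N ω).Reachable u v := hω.preconnected u v
    have h3 := h2.exists_walk_length_eq_dist
    obtain ⟨p⟩ := h2
    cases p with
    | nil => exact hv rfl
    | cons hadj _ =>
      exact h1 u (by simp) _ (by
        rw [Finset.mem_singleton]
        exact hadj.ne') hadj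
  have hfin := (measureReal_mono hsub (measure_ne_top (muN ζ α N) _)).trans hsm
  refine lt_of_le_of_lt hfin ?_
  -- numerical estimates
  have hainv : 1 / a ≤ Real.exp 1 / τ0 * Real.exp (c' * L) := by
    rw [div_le_iff₀ ha0]
    have h1 : Real.exp 1 / τ0 * Real.exp (c' * L) * (τ0 * Real.exp (-(c' * L + 1))) = 1 := by
      have e1 : Real.exp 1 * Real.exp (c' * L) * Real.exp (-(c' * L + 1)) = 1 := by
        rw [← Real.exp_add, ← Real.exp_add]
        rw [show 1 + c' * L + -(c' * L + 1) = 0 by ring, Real.exp_zero]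
      calc _ = (Real.exp 1 * Real.exp (c' * L) * Real.exp (-(c' * L + 1))) := by
            field_simp
        _ = 1 := e1
    refine h1.symm.le.trans ?_
    exact mul_le_mul_of_nonneg_left ha1 (by positivity)
  have t1 : 1 / (N * a) ≤ ε' := by
    refine le_trans ?_ g7
    have e1 : 1 / (N * a) = 1 / N * (1 / a) := by field_simp
    have e2 : (1 : ℝ) / N = Real.exp (-L) := by rw [Real.exp_neg, hexpL]; ring
    rw [e1, e2]
    calc Real.exp (-L) * (1 / a) ≤ Real.exp (-L) * (Real.exp 1 / τ0 * Real.exp (c' * L)) :=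
          mul_le_mul_of_nonneg_left hainv (Real.exp_pos _).le
      _ = Real.exp 1 / τ0 * (Real.exp (-L) * Real.exp (c' * L)) := by ring
      _ = _ := by
          rw [← Real.exp_add]
          congr 2
          rw [hδdef]; ring
  have t2 : 4 * lK / a ≤ ε' := by
    refine le_trans ?_ g8
    have h1 : Real.log (1 + K) ≤ L + 1 := by
      have h2 : 1 + K ≤ Real.exp 1 * N := by
        have h3 : K ≤ N := by
          rw [← hexpL, hKdef]
          apply Real.exp_le_exp.2
          have := mul_nonneg hδ0.le hL0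
          linarith
        have h4 : 2 * (N : ℝ) ≤ Real.exp 1 * N := by
          apply mul_le_mul_of_nonneg_right _ hN'.le
          have := Real.exp_one_gt_d9
          linarith
        linarith
      have h4 : Real.log (Real.exp 1 * N) = L + 1 := by
        rw [Real.log_mul (by positivity) hN'.ne', Real.log_exp]; ring
      rw [← h4]
      exact Real.log_le_log (by positivity) h2
    have h2 : 1 / K = Real.exp (-((1 - δ) * L)) := by
      rw [hKdef, Real.exp_neg]; ring
    calc 4 * lK / a = 4 * (1 / K * Real.log (1 + K)) * (1 / a) := by rw [hlK]; ring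
      _ ≤ 4 * (1 / K * (L + 1)) * (Real.exp 1 / τ0 * Real.exp (c' * L)) := by
          apply mul_le_mul _ hainv (by positivity) (by positivity)
          apply mul_le_mul_of_nonneg_left _ (by norm_num)
          exact mul_le_mul_of_nonneg_left h1 (by positivity)
      _ = 4 * (Real.exp 1 / τ0) * ((L + 1) * (Real.exp (-((1 - δ) * L)) *
            Real.exp (c' * L))) := by rw [h2]; ring
      _ = _ := by
          rw [← Real.exp_add]
          congr 4
          rw [hδdef]; ring
  have t3 : a * ((1 + ε') * a + 4 * lK) / a ^ 2 = (1 + ε') + 4 * lK / a := by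
    field_simp
  rw [t3]
  have : b = 4 * ε' := by rw [hε'def]; ring
  linarith

end

end Pool.Agent.Helper49.HRG
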