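import Pool.Agent.Helper49.HRG.Abs

open MeasureTheory Set
open scoped ENNReal

namespace Pool.Agent.Helper49.HRG

noncomputable section

variable {𝒳 : Type*} [MeasurableSpace 𝒳]

/-- integrating out the vertices outside S, general form -/
lemma integral_split_gen (ν : Measure 𝒳) [IsProbabilityMeasure ν] {n : ℕ} (S : Finset (Fin n))
    (F : (S → 𝒳) → ℝ) (h : Fin n → (S → 𝒳) → 𝒳 → ℝ) (hF : Measurable F)
    (hh : ∀ v, Measurable (Function.uncurry (h v))) (CF : ℝ) (hFb : ∀ z, |F z| ≤ CF) (Ch : ℝ)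
    (hhb : ∀ v z y, |h v z y| ≤ Ch) :
    ∫ x, F (fun i : S => x i) * ∏ v ∈ Sᶜ, h v (fun i : S => x i) (x v)
        ∂(Measure.pi fun _ : Fin n => ν) =
      ∫ z, F z * ∏ v ∈ Sᶜ, (∫ y, h v z y ∂ν) ∂(Measure.pi fun _ : S => ν) := by
  classical
  set e := MeasurableEquiv.piEquivPiSubtypeProd (fun _ : Fin n => 𝒳) (fun i => i ∈ S) with he
  have hmp : MeasurePreserving e (Measure.pi fun _ : Fin n => ν)
      ((Measure.pi fun _ : S => ν).prod (Measure.pi fun _ : {i : Fin n // ¬ (i ∈ S)} => ν)) := by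
    have hgen : ∀ (I1 : Fintype S) (I2 : Fintype {i : Fin n // ¬ (i ∈ S)}),
        MeasurePreserving e (Measure.pi fun _ : Fin n => ν)
        ((@Measure.pi S (fun _ => 𝒳) I1 _ fun _ => ν).prod
          (@Measure.pi {i : Fin n // ¬ (i ∈ S)} (fun _ => 𝒳) I2 _ fun _ => ν)) := by
      intro I1 I2
      obtain rfl : I1 = Subtype.fintype (fun i => i ∈ S) := Subsingleton.elim _ _
      obtain rfl : I2 = Subtype.fintype (fun i => ¬ (i ∈ S)) := Subsingleton.elim _ _
      exact measurePreserving_piEquivPiSubtypeProd (fun _ : Fin n => ν) (fun i => i ∈ S)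
    exact hgen _ _
  have h1 : ∀ x : Fin n → 𝒳, F (fun i : S => x i) * ∏ v ∈ Sᶜ, h v (fun i : S => x i) (x v) =
      (fun w : (S → 𝒳) × ({i // ¬ (i ∈ S)} → 𝒳) => F w.1 * ∏ v, h v.1 w.1 (w.2 v)) (e x) := by
    intro x
    have e1 : (e x).1 = fun i : S => x i := rfl
    have e2 : (e x).2 = fun i : {i // ¬ (i ∈ S)} => x i := rfl
    simp only [e1, e2]
    congr 1
    exact Finset.prod_subtype (Sᶜ) (fun i => by simp) _
  rw [integral_congr_ae (Filter.Eventually.of_forall h1),
    hmp.integral_comp e.measurableEmbedding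
      (fun w : (S → 𝒳) × ({i // ¬ (i ∈ S)} → 𝒳) => F w.1 * ∏ v, h v.1 w.1 (w.2 v)), integral_prod]
  · refine integral_congr_ae ?_
    filter_upwards with z
    have h2 : ∫ b : {i : Fin n // ¬ (i ∈ S)} → 𝒳, ∏ v, h v.1 z (b v) ∂(Measure.pi fun _ => ν) =
        ∏ v : {i : Fin n // ¬ (i ∈ S)}, (∫ y, h v.1 z y ∂ν) :=
      integral_fintype_prod_eq_prod (fun v : {i : Fin n // ¬ (i ∈ S)} => h v.1 z)
    have h3 : ∏ v ∈ Sᶜ, (∫ y, h v z y ∂ν) =
        ∏ v : {i : Fin n // ¬ (i ∈ S)}, (∫ y, h v.1 z y ∂ν) :=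
      Finset.prod_subtype (Sᶜ) (fun i => by simp) _
    rw [h3, ← h2]
    exact integral_const_mul (μ := Measure.pi fun _ : {i : Fin n // ¬ (i ∈ S)} => ν) (F z)
      (fun b : {i : Fin n // ¬ (i ∈ S)} → 𝒳 => ∏ v, h v.1 z (b v))
  · refine Integrable.of_bound (C := CF * ∏ _v : {i // ¬ (i ∈ S)}, Ch) ?_ ?_
    · refine Measurable.aestronglyMeasurable ?_
      refine (hF.comp measurable_fst).mul ?_
      refine Finset.measurable_prod _ fun v _ => ?_
      exact (hh v).comp (measurable_fst.prodMk ((measurable_pi_apply v).comp measurable_snd))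
    · refine Filter.Eventually.of_forall fun w => ?_
      rw [Real.norm_eq_abs, abs_mul, Finset.abs_prod]
      refine mul_le_mul (hFb _) (Finset.prod_le_prod (fun _ _ => abs_nonneg _) fun v _ => hhb _ _ _)
        (Finset.prod_nonneg fun _ _ => abs_nonneg _) ((abs_nonneg _).trans (hFb w.1))

/-- integrating out the vertices outside S, all functions being defined on the full space -/
lemma integral_split_full [Nonempty 𝒳] (ν : Measure 𝒳) [IsProbabilityMeasure ν] {n : ℕ}
    (S : Finset (Fin n)) (F : (Fin n → 𝒳) → ℝ) (h : Fin n → (Fin n → 𝒳) → 𝒳 → ℝ)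
    (hF : Measurable F) (hh : ∀ v, Measurable (Function.uncurry (h v)))
    (hFS : ∀ x y, (∀ i ∈ S, x i = y i) → F x = F y)
    (hhS : ∀ v x y, (∀ i ∈ S, x i = y i) → h v x = h v y)
    (CF : ℝ) (hFb : ∀ z, |F z| ≤ CF) (Ch : ℝ) (hhb : ∀ v z y, |h v z y| ≤ Ch) :
    ∫ x, F x * ∏ v ∈ Sᶜ, h v x (x v) ∂(Measure.pi fun _ : Fin n => ν) =
      ∫ x, F x * ∏ v ∈ Sᶜ, (∫ y, h v x y ∂ν) ∂(Measure.pi fun _ : Fin n => ν) := by
  classical
  obtain ⟨x0⟩ := ‹Nonempty 𝒳›
  let ext : (S → 𝒳) → (Fin n → 𝒳) := fun z i => if hi : i ∈ S then z ⟨i, hi⟩ else x0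
  have hext : Measurable ext := by
    refine measurable_pi_iff.2 fun i => ?_
    by_cases hi : i ∈ S
    · simp only [ext, hi, dif_pos]
      exact measurable_pi_apply _
    · simp only [ext, hi, dif_neg, not_false_iff]
      exact measurable_const
  have hagree : ∀ x : Fin n → 𝒳, ∀ i ∈ S, ext (fun i : S => x i) i = x i := by
    intro x i hi
    simp only [ext, hi, dif_pos]
  have hFe : ∀ x, F x = F (ext fun i : S => x i) := fun x =>
    hFS _ _ fun i hi => (hagree x i hi).symm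
  have hhe : ∀ v x, h v x = h v (ext fun i : S => x i) := fun v x =>
    hhS _ _ _ fun i hi => (hagree x i hi).symm
  have hh' : ∀ v, Measurable (Function.uncurry fun z : S → 𝒳 => h v (ext z)) := by
    intro v
    exact (hh v).comp ((hext.comp measurable_fst).prodMk measurable_snd)
  have e1 := integral_split_gen ν S (fun z => F (ext z)) (fun v z y => h v (ext z) y)
    (hF.comp hext) hh' CF (fun z => hFb _) Ch (fun v z y => hhb _ _ _)
  have e2 := integral_split_gen ν S (fun z => F (ext z) * ∏ v ∈ Sᶜ, (∫ y, h v (ext z) y ∂ν))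
    (fun _ _ _ => 1) (by
      refine (hF.comp hext).mul (Finset.measurable_prod _ fun v _ => ?_)
      exact (StronglyMeasurable.integral_prod_right (hh' v).stronglyMeasurable).measurable)
    (fun v => measurable_const) (CF * ∏ _v ∈ Sᶜ, Ch) (fun z => by
      rw [abs_mul, Finset.abs_prod]
      refine mul_le_mul (hFb _) (Finset.prod_le_prod (fun _ _ => abs_nonneg _) fun v _ => ?_)
        (Finset.prod_nonneg fun _ _ => abs_nonneg _) ((abs_nonneg _).trans (hFb (ext z)))
      have := norm_integral_le_of_norm_le_const (μ := ν) (f := fun y => h v (ext z) y) (C := Ch)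
        (Filter.Eventually.of_forall fun y => by rw [Real.norm_eq_abs]; exact hhb _ _ _)
      simpa using this) 1 (by simp)
  simp only [Finset.prod_const_one, mul_one, integral_const, smul_eq_mul, probReal_univ] at e2
  calc ∫ x, F x * ∏ v ∈ Sᶜ, h v x (x v) ∂(Measure.pi fun _ : Fin n => ν)
      = ∫ x, F (ext fun i : S => x i) * ∏ v ∈ Sᶜ, h v (ext fun i : S => x i) (x v)
          ∂(Measure.pi fun _ : Fin n => ν) := by
        refine integral_congr_ae (Filter.Eventually.of_forall fun x => ?_)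
        simp only
        rw [← hFe x]
        congr 1
        refine Finset.prod_congr rfl fun v _ => ?_
        rw [← hhe v x]
    _ = _ := e1
    _ = ∫ x, F (ext fun i : S => x i) * ∏ v ∈ Sᶜ, (∫ y, h v (ext fun i : S => x i) y ∂ν)
          ∂(Measure.pi fun _ : Fin n => ν) := e2.symm
    _ = _ := by
        refine integral_congr_ae (Filter.Eventually.of_forall fun x => ?_)
        simp only
        rw [← hFe x]
        congr 1
        refine Finset.prod_congr rfl fun v _ => ?_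
        rw [← hhe v x]

/-- edges between `S` and its complement -/
def cut {n : ℕ} (S : Finset (Fin n)) : Finset (Sym2 (Fin n)) :=
  (S ×ˢ Sᶜ).image fun w => s(w.1, w.2)

lemma mem_cut {n : ℕ} {S : Finset (Fin n)} {e : Sym2 (Fin n)} :
    e ∈ cut S ↔ ∃ u ∈ S, ∃ v, v ∉ S ∧ e = s(u, v) := by
  unfold cut
  simp only [Finset.mem_image, Finset.mem_product, Finset.mem_compl, Prod.exists]
  constructor
  · rintro ⟨u, v, ⟨h1, h2⟩, rfl⟩; exact ⟨u, h1, v, h2, rfl⟩
  · rintro ⟨u, h1, v, h2, rfl⟩; exact ⟨u, v, ⟨h1, h2⟩, rfl⟩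

lemma prod_cut {n : ℕ} (S : Finset (Fin n)) (f : Sym2 (Fin n) → ℝ) :
    ∏ e ∈ cut S, f e = ∏ v ∈ Sᶜ, ∏ u ∈ S, f s(u, v) := by
  unfold cut
  rw [Finset.prod_image, Finset.prod_product_right]
  intro a ha b hb hab
  simp only [Finset.coe_product, Finset.coe_compl, mem_prod, Finset.mem_coe, mem_compl_iff] at ha hb
  simp only [Sym2.eq_iff] at hab
  rcases hab with h | h
  · exact Prod.ext h.1 h.2
  · exfalso
    apply hb.2
    rw [← h.1]
    exact ha.1

/-- no edge between `S` and its complement -/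
def Iso {n : ℕ} (G : SimpleGraph (Fin n)) (S : Finset (Fin n)) : Prop :=
  ∀ u ∈ S, ∀ v, v ∉ S → ¬ G.Adj u v

lemma iso_iff {n : ℕ} {p : 𝒳 → 𝒳 → ℝ} (hp : ∀ a b, p a b = p b a)
    (ω : (Fin n → 𝒳) × (Sym2 (Fin n) → ℝ)) (S : Finset (Fin n)) :
    Iso (gr p hp ω) S ↔ ∀ e ∈ cut S, pe p hp ω.1 e < ω.2 e := by
  constructor
  · intro h e he
    obtain ⟨u, hu, v, hv, rfl⟩ := mem_cut.1 he
    have h1 := h u hu v hv
    have hne : u ≠ v := fun h => hv (h ▸ hu)
    simp only [gr, not_and, not_le] at h1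
    exact h1 hne
  · intro h u hu v hv hadj
    have := h s(u, v) (mem_cut.2 ⟨u, hu, v, hv, rfl⟩)
    simp only [gr, pe_mk] at hadj this
    linarith [hadj.2]

/-- probability that `S` is isolated and that every `u ∈ D` is joined to `g u`, intersected with
an event depending only on the positions -/
lemma iso_prob (ν : Measure 𝒳) [IsProbabilityMeasure ν] {p : 𝒳 → 𝒳 → ℝ} (hp : Conn p)
    {n : ℕ} (A : Set (Fin n → 𝒳)) (hA : MeasurableSet A) (S D : Finset (Fin n)) (hD : D ⊆ S)
    (g : Fin n → Fin n) (hg : ∀ u ∈ D, g u ∈ S ∧ g u ∉ D) :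
    (law ν n).real {ω | ω.1 ∈ A ∧ (∀ u ∈ D, (gr p hp.symm ω).Adj u (g u)) ∧
        Iso (gr p hp.symm ω) S} =
      ∫ x in A, (∏ u ∈ D, p (x u) (x (g u))) * ∏ v ∈ Sᶜ, ∏ u ∈ S, (1 - p (x u) (x v))
        ∂(Measure.pi fun _ : Fin n => ν) := by
  have hinj : Set.InjOn (fun u => s(u, g u)) (D : Set (Fin n)) := by
    intro a ha b hb hab
    simp only [Sym2.eq_iff] at hab
    rcases hab with h | h
    · exact h.1
    · exfalso
      apply (hg b hb).2
      rw [← h.1]
      exact ha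
  have hdisj : Disjoint (D.image fun u => s(u, g u)) (cut S) := by
    rw [Finset.disjoint_left]
    intro e he he'
    obtain ⟨u, hu, rfl⟩ := Finset.mem_image.1 he
    obtain ⟨a, ha, b, hb, hab⟩ := mem_cut.1 he'
    rw [Sym2.eq_iff] at hab
    rcases hab with h | h
    · apply hb; rw [← h.2]; exact (hg u hu).1
    · apply hb; rw [← h.1]; exact hD hu
  have h1 := joint_prob ν hp A hA (D.image fun u => s(u, g u)) (cut S) hdisj
  have h2 : {ω : (Fin n → 𝒳) × (Sym2 (Fin n) → ℝ) | ω.1 ∈ A ∧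
      (∀ u ∈ D, (gr p hp.symm ω).Adj u (g u)) ∧ Iso (gr p hp.symm ω) S} =
      {ω | ω.1 ∈ A ∧ (∀ e ∈ D.image fun u => s(u, g u), ω.2 e ≤ pe p hp.symm ω.1 e) ∧
        (∀ e ∈ cut S, pe p hp.symm ω.1 e < ω.2 e)} := by
    ext ω
    simp only [mem_ofPred_eq]
    rw [iso_iff]
    refine and_congr_right fun _ => and_congr_left fun _ => ?_
    constructor
    · intro h e he
      obtain ⟨u, hu, rfl⟩ := Finset.mem_image.1 he
      exact (h u hu).2
    · intro h u hu
      refine ⟨fun heq => (hg u hu).2 (heq ▸ hu), ?_⟩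
      exact h _ (Finset.mem_image_of_mem _ hu)
  rw [h2, h1]
  refine integral_congr_ae (Filter.Eventually.of_forall fun x => ?_)
  simp only
  rw [prod_cut, Finset.prod_image hinj]
  rfl

end

end Pool.Agent.Helper49.HRG
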