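import Pool.Agent.Helper49.HRG.QLB
import Pool.Agent.Helper49.HRG.Split

open MeasureTheory Set Filter Topology
open scoped ENNReal

namespace Pool.Agent.Helper49.HRG

noncomputable section

/-- the law of the random graph -/
abbrev muN (ζ α : ℝ) (N : ℕ) : Measure ((Fin N → ℝ × ℝ) × (Sym2 (Fin N) → ℝ)) :=
  law (pointLaw ζ α N) N

/-- the random graph -/
abbrev GG (ζ : ℝ) (N : ℕ) (ω : (Fin N → ℝ × ℝ) × (Sym2 (Fin N) → ℝ)) : SimpleGraph (Fin N) :=
  gr (edgeProb ζ 1 N) (conn ζ 1 N).symm ω

section

variable {ζ α : ℝ} (hζ : 0 < ζ) (hα : 0 < α) {N : ℕ} (hN : 2 ≤ N)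

include hζ hα hN

lemma point_integral_fst (F : ℝ → ℝ) (hF : Measurable F) :
    ∫ y, F y.1 ∂(pointLaw ζ α N) = ∫ r, F r ∂(radiusLaw ζ α N) := by
  have := rad_prob hζ hα hN
  have h : (pointLaw ζ α N).map Prod.fst = radiusLaw ζ α N := by
    unfold pointLaw
    exact measurePreserving_fst.map_eq
  rw [← h, integral_map measurable_fst.aemeasurable]
  exact hF.aestronglyMeasurable

lemma pi_integral_eval (F : ℝ × ℝ → ℝ) (hF : Measurable F) (u : Fin N) :
    ∫ x, F (x u) ∂(Measure.pi fun _ : Fin N => pointLaw ζ α N) =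
      ∫ y, F y ∂(pointLaw ζ α N) := by
  have := point_prob hζ hα hN
  have h := (measurePreserving_eval (fun _ : Fin N => pointLaw ζ α N) u).map_eq
  conv_rhs => rw [← h]
  rw [integral_map (measurable_pi_apply u).aemeasurable hF.aestronglyMeasurable]

lemma qf_unit_meas : Measurable (fun y : ℝ × ℝ => qf ζ α N (fun _ : Unit => y)) := by
  have := point_prob hζ hα hN
  unfold qf
  have h : Measurable (Function.uncurry fun (y z : ℝ × ℝ) =>
      (1 - ∏ _u : Unit, (1 - edgeProb ζ 1 N y z))) := by
    have h2 : Measurable (fun w : (ℝ × ℝ) × (ℝ × ℝ) => edgeProb ζ 1 N w.1 w.2) :=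
      (conn ζ 1 N).meas_comp measurable_fst measurable_snd
    have h3 : Measurable (fun w : (ℝ × ℝ) × (ℝ × ℝ) => 1 - (1 - edgeProb ζ 1 N w.1 w.2)) :=
      measurable_const.sub (measurable_const.sub h2)
    have h4 : (Function.uncurry fun (y z : ℝ × ℝ) =>
      (1 - ∏ _u : Unit, (1 - edgeProb ζ 1 N y z))) =
      (fun w : (ℝ × ℝ) × (ℝ × ℝ) => 1 - (1 - edgeProb ζ 1 N w.1 w.2)) := by
      funext w
      simp [Function.uncurry]
    rw [h4]
    exact h3
  exact (StronglyMeasurable.integral_prod_right h.stronglyMeasurable).measurable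

lemma iso_single (u : Fin N) :
    (muN ζ α N).real {ω | Iso (GG ζ N ω) {u}} =
      ∫ y, (1 - qf ζ α N (fun _ : Unit => y)) ^ (N - 1) ∂(pointLaw ζ α N) := by
  have := point_prob hζ hα hN
  have hc := conn ζ 1 N
  have h1 := iso_prob (pointLaw ζ α N) hc univ MeasurableSet.univ {u} ∅ (by simp) id (by simp)
  simp only [mem_univ, Finset.notMem_empty, false_implies, implies_true, true_and,
    Finset.prod_empty, one_mul, Finset.prod_singleton, Measure.restrict_univ] at h1
  rw [h1]
  have hm : Measurable (fun w : (Fin N → ℝ × ℝ) × (ℝ × ℝ) => edgeProb ζ 1 N (w.1 u) w.2) :=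
    hc.meas_comp ((measurable_pi_apply u).comp measurable_fst) measurable_snd
  have hm' : Measurable (fun w : (Fin N → ℝ × ℝ) × (ℝ × ℝ) =>
      1 - edgeProb ζ 1 N (w.1 u) w.2) := measurable_const.sub hm
  have h2 := integral_split_full (pointLaw ζ α N) ({u} : Finset (Fin N)) (fun _ => 1)
    (fun _ x y => 1 - edgeProb ζ 1 N (x u) y) measurable_const
    (fun v => hm')
    (fun _ _ _ => rfl) (fun v x y hxy => by
      rw [hxy u (by simp)]) 1 (by simp) 1 (fun v x y => by
      have := hc.nonneg (x u) y
      have := hc.le_one (x u) y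
      rw [abs_le]; constructor <;> linarith)
  simp only [one_mul] at h2
  rw [h2]
  have h3 : ∀ x : Fin N → ℝ × ℝ, ∏ v ∈ ({u} : Finset (Fin N))ᶜ,
      (∫ y, (1 - edgeProb ζ 1 N (x u) y) ∂(pointLaw ζ α N)) =
      (1 - qf ζ α N (fun _ : Unit => x u)) ^ (N - 1) := by
    intro x
    rw [Finset.prod_const, Finset.card_compl, Finset.card_singleton, Fintype.card_fin]
    congr 1
    rw [← integral_prod_eq hζ hα hN (fun _ : Unit => x u)]
    simp
  simp only [h3]
  exact pi_integral_eval hζ hα hN
    (fun y => (1 - qf ζ α N (fun _ : Unit => y)) ^ (N - 1))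
    ((measurable_const.sub (qf_unit_meas hζ hα hN)).pow_const _) u

end

/-- the truncated exponential functional -/
def gfun (ζ : ℝ) (N : ℕ) (r : ℝ) : ℝ := Real.exp (-((min (wt ζ N r) 3 - 1) * Real.log N))

lemma gfun_continuous (ζ : ℝ) (N : ℕ) : Continuous (gfun ζ N) := by
  unfold gfun
  have := wt_continuous ζ N
  fun_prop

lemma gfun_integral_tendsto {ζ α : ℝ} (hζ : 0 < ζ) (hα : 0 < α) :
    Tendsto (fun N : ℕ => ∫ r, gfun ζ N r ∂(radiusLaw ζ α N)) atTop (𝓝 0) := by
  rw [tendsto_order]
  constructor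
  · intro a ha
    filter_upwards with N
    exact lt_of_lt_of_le ha (integral_nonneg fun r => (Real.exp_pos _).le)
  · intro b hb
    -- choose t
    have h0 : Tendsto (fun t : ℝ => 1 - Real.exp (-(α * t))) (𝓝[>] 0) (𝓝 0) := by
      have : Tendsto (fun t : ℝ => 1 - Real.exp (-(α * t))) (𝓝 0)
          (𝓝 (1 - Real.exp (-(α * 0)))) := by
        apply Continuous.tendsto; fun_prop
      simp only [mul_zero, neg_zero, Real.exp_zero, sub_self] at this
      exact this.mono_left nhdsWithin_le_nhds
    have h1 : Tendsto (fun t : ℝ => Real.exp (ζ / 2 * t)) (𝓝[>] 0) (𝓝 1) := by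
      have : Tendsto (fun t : ℝ => Real.exp (ζ / 2 * t)) (𝓝 0) (𝓝 (Real.exp (ζ / 2 * 0))) := by
        apply Continuous.tendsto; fun_prop
      simp only [mul_zero, Real.exp_zero] at this
      exact this.mono_left nhdsWithin_le_nhds
    obtain ⟨t, ⟨ht1, ht2⟩, ht0⟩ := (((h0.eventually (gt_mem_nhds (half_pos (half_pos hb)))).and
      (h1.eventually (ge_mem_nhds (show (1 : ℝ) < 3 by norm_num)))).and
      (eventually_mem_nhdsWithin (a := (0 : ℝ)) (s := Ioi 0))).exists
    have ht0 : 0 < t := ht0
    set ε := Real.exp (ζ / 2 * t) - 1 with hε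
    have hε0 : 0 < ε := by
      have : 1 < Real.exp (ζ / 2 * t) := Real.one_lt_exp_iff.2 (by positivity)
      linarith
    have h2 : Tendsto (fun N : ℕ => Real.exp (-(ε * Real.log N)) +
        (1 - (radiusLaw ζ α N).real (Icc 0 (discRadius ζ N - t)))) atTop
        (𝓝 (0 + (1 - Real.exp (-(α * t))))) := by
      refine Tendsto.add ?_ (tendsto_const_nhds.sub (rad_cdf hζ hα ht0.le))
      exact Real.tendsto_exp_neg_atTop_nhds_zero.comp (log_tendsto.const_mul_atTop hε0)
    rw [zero_add] at h2
    filter_upwards [h2.eventually (gt_mem_nhds (show 1 - Real.exp (-(α * t)) < b by linarith)),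
      eventually_ge_atTop 2] with N hN1 hN2
    refine lt_of_le_of_lt ?_ hN1
    have := rad_prob hζ hα hN2
    have hN' : 1 ≤ N := by omega
    have hL : 0 ≤ Real.log N := Real.log_nonneg (by exact_mod_cast hN')
    set T := Icc (0 : ℝ) (discRadius ζ N - t) with hT
    have h3 : ∀ᵐ r ∂(radiusLaw ζ α N), gfun ζ N r ≤
        Real.exp (-(ε * Real.log N)) + (Tᶜ).indicator (fun _ => (1 : ℝ)) r := by
      filter_upwards [rad_support hζ hα hN2] with r hr
      have hw1 := one_le_wt hζ hN' hr.2
      by_cases hrT : r ∈ T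
      · rw [indicator_of_notMem (by simpa using hrT), add_zero]
        unfold gfun
        apply Real.exp_le_exp.2
        have hw : 1 + ε ≤ wt ζ N r := by
          rw [wt_eq' hζ hN', hε]
          have : Real.exp (ζ / 2 * t) ≤ Real.exp (ζ / 2 * (discRadius ζ N - r)) := by
            apply Real.exp_le_exp.2
            apply mul_le_mul_of_nonneg_left _ (by positivity)
            linarith [hrT.2]
          linarith
        have h5 : ε ≤ min (wt ζ N r) 3 - 1 := by
          have : 1 + ε ≤ min (wt ζ N r) 3 := le_min hw (by linarith)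
          linarith
        nlinarith
      · rw [indicator_of_mem (by simpa using hrT)]
        have h6 : gfun ζ N r ≤ 1 := by
          unfold gfun
          apply Real.exp_le_one_iff.2
          have : 1 ≤ min (wt ζ N r) 3 := le_min hw1 (by norm_num)
          nlinarith
        have := Real.exp_pos (-(ε * Real.log N))
        linarith
    have h7 : ∫ r, (Real.exp (-(ε * Real.log N)) + (Tᶜ).indicator (fun _ => (1 : ℝ)) r)
        ∂(radiusLaw ζ α N) = Real.exp (-(ε * Real.log N)) + (1 - (radiusLaw ζ α N).real T) := by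
      rw [integral_add (integrable_const _)
        ((integrable_const _).indicator measurableSet_Icc.compl),
        integral_indicator measurableSet_Icc.compl]
      simp only [integral_const, smul_eq_mul, probReal_univ, one_mul, mul_one,
        measureReal_restrict_apply_univ]
      rw [probReal_compl_eq_one_sub measurableSet_Icc]
    rw [← h7]
    exact integral_mono_ae (rad_integrable hζ hα hN2 _ (gfun_continuous ζ N))
      ((integrable_const _).add ((integrable_const _).indicator measurableSet_Icc.compl)) h3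

/-- Above the threshold there is no isolated vertex. -/
lemma iso_vertex_tendsto {ζ α : ℝ} (hζ : 0 < ζ) (hα : 0 < α) (h : ζ / 2 < α)
    (hc : 1 ≤ cc ζ α) :
    Tendsto (fun N : ℕ => ∑ u : Fin N, (muN ζ α N).real {ω | Iso (GG ζ N ω) {u}})
      atTop (𝓝 0) := by
  obtain ⟨C, hC0, hC⟩ := QL_single hζ hα h
  have h1 := (gfun_integral_tendsto hζ hα).const_mul (Real.exp (1 + C))
  rw [mul_zero] at h1
  refine tendsto_of_tendsto_of_tendsto_of_le_of_le' tendsto_const_nhds h1
    (Eventually.of_forall fun N => Finset.sum_nonneg fun u _ => measureReal_nonneg) ?_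
  filter_upwards [hC, eventually_ge_atTop 2] with N hN hN2
  have := rad_prob hζ hα hN2
  have := point_prob hζ hα hN2
  have hN1 : 1 ≤ N := by omega
  have hN' : (0 : ℝ) < N := by exact_mod_cast hN1
  have hL : 0 ≤ Real.log N := Real.log_nonneg (by exact_mod_cast hN1)
  have h2 : ∀ᵐ y ∂(pointLaw ζ α N), (1 - qf ζ α N (fun _ : Unit => y)) ^ (N - 1) ≤
      Real.exp (1 + C) / N * gfun ζ N y.1 := by
    filter_upwards [point_support hζ hα hN2] with y hy
    have hw1 := one_le_wt hζ hN1 hy.2
    set V := min (wt ζ N y.1) 3 with hV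
    have hV1 : 1 ≤ V := le_min hw1 (by norm_num)
    have hV3 : V ≤ 3 := min_le_right _ _
    set q := qf ζ α N (fun _ : Unit => y) with hq
    have hq0 : 0 ≤ q := qf_nonneg hζ hα hN2 _
    have hq1 : q ≤ 1 := qf_le_one hζ hα hN2 _
    have h3 : QL ζ α N V ≤ q := by
      apply q_lower hζ hα hN2 (fun _ : Unit => y) (fun _ => hy) (by linarith)
      simp [hV]
    have h4 := hN V hV1 hV3
    have h5 : V * Real.log N - C ≤ N * q := by
      have e1 : N * QL ζ α N V ≤ N * q := mul_le_mul_of_nonneg_left h3 hN'.le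
      have e2 : V * Real.log N ≤ cc ζ α * V * Real.log N := by
        have : 0 ≤ V * Real.log N := by positivity
        nlinarith
      linarith
    have h6 : (1 - q) ^ (N - 1) ≤ Real.exp (-q) ^ (N - 1) := by
      apply pow_le_pow_left₀ (by linarith)
      have := Real.add_one_le_exp (-q)
      linarith
    have h7 : Real.exp (-q) ^ (N - 1) = Real.exp (-(N * q) + q) := by
      rw [← Real.exp_nat_mul]
      congr 1
      rw [Nat.cast_sub hN1]
      push_cast
      ring
    have h8 : Real.exp (-(N * q) + q) ≤ Real.exp (1 + C - V * Real.log N) := by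
      apply Real.exp_le_exp.2
      linarith
    have h9 : Real.exp (1 + C - V * Real.log N) = Real.exp (1 + C) / N * gfun ζ N y.1 := by
      unfold gfun
      rw [← hV]
      have e3 : (N : ℝ) = Real.exp (Real.log N) := (Real.exp_log hN').symm
      have e4 : Real.exp (1 + C) / N = Real.exp (1 + C - Real.log N) := by
        rw [Real.exp_sub, ← e3]
      rw [e4, ← Real.exp_add]
      congr 1
      ring
    calc _ ≤ _ := h6
      _ = _ := h7
      _ ≤ _ := h8
      _ = _ := h9
  have h10 : ∀ u : Fin N, (muN ζ α N).real {ω | Iso (GG ζ N ω) {u}} ≤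
      Real.exp (1 + C) / N * ∫ r, gfun ζ N r ∂(radiusLaw ζ α N) := by
    intro u
    rw [iso_single hζ hα hN2 u, ← point_integral_fst hζ hα hN2 (gfun ζ N)
      (gfun_continuous ζ N).measurable, ← integral_const_mul]
    refine integral_mono_of_nonneg ?_ ?_ h2
    · filter_upwards with y
      have := qf_le_one hζ hα hN2 (fun _ : Unit => y)
      simp only [Pi.zero_apply]
      exact pow_nonneg (by linarith) _
    · refine Integrable.const_mul ?_ _
      have h11 : (pointLaw ζ α N).map Prod.fst = radiusLaw ζ α N := by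
        unfold pointLaw
        exact measurePreserving_fst.map_eq
      have h12 := rad_integrable hζ hα hN2 _ (gfun_continuous ζ N)
      rw [← h11] at h12
      exact h12.comp_measurable measurable_fst
  calc ∑ u : Fin N, (muN ζ α N).real {ω | Iso (GG ζ N ω) {u}}
      ≤ ∑ u : Fin N, Real.exp (1 + C) / N * ∫ r, gfun ζ N r ∂(radiusLaw ζ α N) :=
        Finset.sum_le_sum fun u _ => h10 u
    _ = Real.exp (1 + C) * ∫ r, gfun ζ N r ∂(radiusLaw ζ α N) := by
        rw [Finset.sum_const, Finset.card_univ, Fintype.card_fin, nsmul_eq_mul]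
        field_simp

end

end Pool.Agent.Helper49.HRG
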