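import Pool.Agent.Helper49.HRG.Defs

open MeasureTheory Set Filter Topology
open scoped ENNReal

namespace Pool.Agent.Helper49.HRG

noncomputable section

section

variable {N A : ℕ} (b : Fin N → Fin A)

/-- vertices in arc `j` -/
def arc (j : Fin A) : Finset (Fin N) := Finset.univ.filter fun u => b u = j

/-- arcs meeting both `S` and its complement -/
def mixed (S : Finset (Fin N)) : Finset (Fin A) :=
  Finset.univ.filter fun j => (∃ u ∈ S, b u = j) ∧ ∃ v, v ∉ S ∧ b v = j

/-- weight of a trace -/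
def phi (L : ℝ) (j : Fin A) (T : Finset (Fin N)) : ℝ :=
  Real.exp (-((if T ≠ ∅ ∧ T ≠ arc b j then L / 64 else 0) + T.card / 16))

lemma phi_pos (L : ℝ) (j : Fin A) (T : Finset (Fin N)) : 0 < phi b L j T := Real.exp_pos _

lemma mem_mixed (S : Finset (Fin N)) (j : Fin A) :
    j ∈ mixed b S ↔ (S ∩ arc b j ≠ ∅ ∧ S ∩ arc b j ≠ arc b j) := by
  unfold mixed
  simp only [Finset.mem_filter, Finset.mem_univ, true_and]
  refine and_congr ?_ ?_
  · rw [← Finset.nonempty_iff_ne_empty]
    constructor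
    · rintro ⟨u, hu, hj⟩
      exact ⟨u, Finset.mem_inter.2 ⟨hu, by simp [arc, hj]⟩⟩
    · rintro ⟨u, hu⟩
      rw [Finset.mem_inter] at hu
      refine ⟨u, hu.1, ?_⟩
      simpa [arc] using hu.2
  · rw [Ne, Finset.inter_eq_right, Finset.not_subset]
    constructor
    · rintro ⟨v, hv, hj⟩
      exact ⟨v, by simp [arc, hj], hv⟩
    · rintro ⟨v, hj, hv⟩
      refine ⟨v, hv, ?_⟩
      simpa [arc] using hj

lemma prod_phi (L : ℝ) (S : Finset (Fin N)) :
    ∏ j, phi b L j (S ∩ arc b j) = Real.exp (-((mixed b S).card * (L / 64) + S.card / 16)) := by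
  unfold phi
  rw [← Real.exp_sum]
  congr 1
  rw [Finset.sum_neg_distrib, Finset.sum_add_distrib]
  congr 2
  · have h1 : ∀ j : Fin A, (if S ∩ arc b j ≠ ∅ ∧ S ∩ arc b j ≠ arc b j then L / 64 else 0) =
        (if j ∈ mixed b S then L / 64 else 0) := by
      intro j
      simp only [mem_mixed b S j]
    simp only [h1]
    rw [Finset.sum_ite_mem, Finset.univ_inter, Finset.sum_const, nsmul_eq_mul]
  · rw [← Finset.sum_div]
    congr 1
    have h2 : S.card = ∑ j, (S ∩ arc b j).card := by
      have := Finset.card_eq_sum_card_fiberwise (s := S) (t := Finset.univ) (f := b)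
        (fun _ _ => by simp)
      rw [this]
      refine Finset.sum_congr rfl fun j _ => ?_
      congr 1
      ext u
      simp [arc]
    rw [h2]
    push_cast
    rfl

lemma sum_phi_le (L : ℝ) (j : Fin A) : ∑ T ∈ (arc b j).powerset, phi b L j T ≤
    1 + (Real.exp (-((arc b j).card / 16)) + 2 ^ (arc b j).card * Real.exp (-(L / 64))) := by
  have h1 : ∀ T ∈ (arc b j).powerset, phi b L j T ≤
      (if T = ∅ then 1 else 0) + ((if T = arc b j then Real.exp (-((arc b j).card / 16)) else 0) +
        Real.exp (-(L / 64))) := by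
    intro T _
    have e0 := Real.exp_pos (-(L / 64))
    have e1 := Real.exp_pos (-(((arc b j).card : ℝ) / 16))
    unfold phi
    by_cases h1 : T = ∅
    · subst h1
      simp only [ne_eq, not_true_eq_false, false_and, if_false, Finset.card_empty,
        Nat.cast_zero, zero_div, add_zero, neg_zero, Real.exp_zero, if_true]
      split_ifs <;> linarith
    · by_cases h2 : T = arc b j
      · have h3 : ¬ (T ≠ ∅ ∧ T ≠ arc b j) := by tauto
        rw [if_neg h3, if_neg h1, if_pos h2, h2, zero_add, zero_add]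
        linarith
      · rw [if_pos ⟨h1, h2⟩, if_neg h1, if_neg h2, zero_add, zero_add]
        apply Real.exp_le_exp.2
        have : (0 : ℝ) ≤ T.card / 16 := by positivity
        linarith
  refine (Finset.sum_le_sum h1).trans ?_
  rw [Finset.sum_add_distrib, Finset.sum_add_distrib, Finset.sum_ite_eq', Finset.sum_ite_eq',
    Finset.sum_const, Finset.card_powerset]
  simp

/-- summation over all sets -/
lemma sum_sets_le (L : ℝ) : ∑ S : Finset (Fin N), ∏ j, phi b L j (S ∩ arc b j) ≤
    Real.exp (∑ j, (Real.exp (-((arc b j).card / 16)) +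
      2 ^ (arc b j).card * Real.exp (-(L / 64)))) := by
  classical
  have h1 : ∑ S : Finset (Fin N), ∏ j, phi b L j (S ∩ arc b j) ≤
      ∑ q ∈ Fintype.piFinset (fun j => (arc b j).powerset), ∏ j, phi b L j (q j) := by
    have hinj : Set.InjOn (fun (S : Finset (Fin N)) (j : Fin A) => S ∩ arc b j)
        ((Finset.univ : Finset (Finset (Fin N))) : Set (Finset (Fin N))) := by
      intro S _ T _ hST
      ext u
      have := congrFun hST (b u)
      simp only at this
      have h2 : u ∈ arc b (b u) := by simp [arc]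
      constructor
      · intro hu
        have : u ∈ T ∩ arc b (b u) := by rw [← this]; exact Finset.mem_inter.2 ⟨hu, h2⟩
        exact (Finset.mem_inter.1 this).1
      · intro hu
        have : u ∈ S ∩ arc b (b u) := by rw [this]; exact Finset.mem_inter.2 ⟨hu, h2⟩
        exact (Finset.mem_inter.1 this).1
    rw [← Finset.sum_image (f := fun q : Fin A → Finset (Fin N) => ∏ j, phi b L j (q j)) hinj]
    refine Finset.sum_le_sum_of_subset_of_nonneg ?_ fun q _ _ =>
      Finset.prod_nonneg fun j _ => (phi_pos b L j _).le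
    intro q hq
    obtain ⟨S, _, rfl⟩ := Finset.mem_image.1 hq
    rw [Fintype.mem_piFinset]
    intro j
    rw [Finset.mem_powerset]
    exact Finset.inter_subset_right
  refine h1.trans ?_
  rw [← Finset.prod_univ_sum, Real.exp_sum]
  refine Finset.prod_le_prod (fun j _ => Finset.sum_nonneg fun T _ => (phi_pos b L j T).le)
    fun j _ => ?_
  refine (sum_phi_le b L j).trans ?_
  have := Real.add_one_le_exp (Real.exp (-(((arc b j).card : ℝ) / 16)) +
      2 ^ (arc b j).card * Real.exp (-(L / 64)))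
  linarith

variable (θ : Fin N → ℝ) (p : Fin N → Fin N → ℝ) (L : ℝ)

/-- lower bound for the number of edges in a cut -/
lemma cut_lower (hN : 3 ≤ N) (hp : ∀ u v, 1 / (3 + N * sn (θ u) (θ v)) ≤ p u v)
    (hsymm : ∀ u v, p u v = p v u)
    (hb : ∀ u v, b u = b v → |θ u - θ v| ≤ 2 * Real.pi / A) (hA : 0 < A)
    (hL : 4 ≤ L) (hAL : 3 + N * Real.pi / A ≤ 2 * L)
    (hY : ∀ u, L / 8 ≤ ∑ w ∈ Finset.univ.erase u, 1 / (2 * L + N * sn (θ u) (θ w)))
    (S : Finset (Fin N)) (hS : 2 * S.card ≤ N) :
    (mixed b S).card * (L / 64) + S.card / 8 ≤ ∑ u ∈ S, ∑ v ∈ Sᶜ, p u v := by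
  classical
  have hN' : (0 : ℝ) < N := by exact_mod_cast (by omega : 0 < N)
  have hA' : (0 : ℝ) < A := by exact_mod_cast hA
  have hN3 : (3 : ℝ) ≤ N := by exact_mod_cast hN
  have hp0 : ∀ u v, 0 ≤ p u v := fun u v => le_trans (by
    have := sn_nonneg (θ u) (θ v)
    positivity) (hp u v)
  set X := ∑ u ∈ S, ∑ v ∈ Sᶜ, p u v with hX
  -- global bound
  have hglob : (S.card : ℝ) / 4 ≤ X := by
    have h1 : ∀ u v, 1 / (2 * (N : ℝ)) ≤ p u v := by
      intro u v
      refine le_trans ?_ (hp u v)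
      have h0 := sn_nonneg (θ u) (θ v)
      have h1 := sn_le_one (θ u) (θ v)
      apply one_div_le_one_div_of_le (by positivity)
      nlinarith
    have h2 : (S.card : ℝ) * (Sᶜ.card * (1 / (2 * (N : ℝ)))) ≤ X := by
      rw [hX]
      have := Finset.card_nsmul_le_sum S (fun u => ∑ v ∈ Sᶜ, p u v)
        (Sᶜ.card * (1 / (2 * (N : ℝ)))) fun u _ => by
          have := Finset.card_nsmul_le_sum Sᶜ (fun v => p u v) (1 / (2 * (N : ℝ))) fun v _ => h1 u v
          simpa using this
      simpa using this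
    refine le_trans ?_ h2
    have h3 : (N : ℝ) / 2 ≤ Sᶜ.card := by
      have h4 : Sᶜ.card = N - S.card := by rw [Finset.card_compl, Fintype.card_fin]
      have h5 : N ≤ 2 * Sᶜ.card := by omega
      have : (N : ℝ) ≤ 2 * Sᶜ.card := by exact_mod_cast h5
      linarith
    have h6 : (1 : ℝ) / 4 ≤ Sᶜ.card * (1 / (2 * (N : ℝ))) := by
      rw [mul_one_div, div_le_div_iff₀ (by norm_num) (by positivity)]
      linarith
    have h7 : (0 : ℝ) ≤ S.card := by positivity
    nlinarith
  -- mixed arcs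
  have hmix : (mixed b S).card * (L / 16) ≤ 2 * X := by
    have hch : ∀ j : Fin A, ∃ uv : Fin N × Fin N, j ∈ mixed b S →
        (uv.1 ∈ S ∧ b uv.1 = j) ∧ (uv.2 ∉ S ∧ b uv.2 = j) := by
      intro j
      by_cases hj : j ∈ mixed b S
      · have := hj
        simp only [mixed, Finset.mem_filter, Finset.mem_univ, true_and] at this
        obtain ⟨⟨u, hu, huj⟩, v, hv, hvj⟩ := this
        exact ⟨(u, v), fun _ => ⟨⟨hu, huj⟩, hv, hvj⟩⟩
      · exact ⟨(⟨0, by omega⟩, ⟨0, by omega⟩), fun h => absurd h hj⟩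
    choose uv huv using hch
    have hbr : ∀ j ∈ mixed b S, L / 16 ≤
        (∑ w ∈ S, p w (uv j).2) + ∑ w ∈ Sᶜ, p (uv j).1 w := by
      intro j hj
      obtain ⟨⟨hu, huj⟩, hv, hvj⟩ := huv j hj
      set u := (uv j).1
      set v := (uv j).2
      have hne : u ≠ v := fun h => hv (h ▸ hu)
      have hY' := hY u
      have h1 : ∀ w, 1 / (2 * L + N * sn (θ u) (θ w)) ≤ p w v := by
        intro w
        rw [hsymm w v]
        refine le_trans ?_ (hp v w)
        have h0 := sn_nonneg (θ v) (θ w)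
        apply one_div_le_one_div_of_le (by positivity)
        have h2 : sn (θ v) (θ w) ≤ sn (θ u) (θ w) + Real.pi / A := by
          unfold sn
          have h3 : |Real.sin ((θ v - θ w) / 2)| ≤ |Real.sin ((θ u - θ w) / 2)| +
              |Real.sin ((θ v - θ w) / 2) - Real.sin ((θ u - θ w) / 2)| := by
            have := abs_add_le (Real.sin ((θ u - θ w) / 2))
              (Real.sin ((θ v - θ w) / 2) - Real.sin ((θ u - θ w) / 2))
            rwa [add_sub_cancel] at this
          have h4 : |Real.sin ((θ v - θ w) / 2) - Real.sin ((θ u - θ w) / 2)| ≤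
              |(θ v - θ w) / 2 - (θ u - θ w) / 2| := by
            have := Real.abs_sin_sub_sin_le ((θ v - θ w) / 2) ((θ u - θ w) / 2)
            exact this
          have h5 : |(θ v - θ w) / 2 - (θ u - θ w) / 2| ≤ Real.pi / A := by
            rw [show (θ v - θ w) / 2 - (θ u - θ w) / 2 = (θ v - θ u) / 2 by ring, abs_div,
              abs_of_pos (show (0 : ℝ) < 2 by norm_num)]
            have := hb v u (hvj.trans huj.symm)
            rw [div_le_iff₀ (by norm_num)]
            calc |θ v - θ u| ≤ 2 * Real.pi / A := this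
              _ = Real.pi / A * 2 := by ring
          linarith
        have h6 : N * sn (θ v) (θ w) ≤ N * (sn (θ u) (θ w) + Real.pi / A) :=
          mul_le_mul_of_nonneg_left h2 hN'.le
        have h7 : N * (sn (θ u) (θ w) + Real.pi / A) = N * sn (θ u) (θ w) + N * Real.pi / A := by
          ring
        linarith
      have h2 : ∀ w, 1 / (2 * L + N * sn (θ u) (θ w)) ≤ p u w := by
        intro w
        refine le_trans ?_ (hp u w)
        have h0 := sn_nonneg (θ u) (θ w)
        apply one_div_le_one_div_of_le (by positivity)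
        linarith
      have hpos : ∀ w, 0 ≤ 1 / (2 * L + N * sn (θ u) (θ w)) := by
        intro w
        have h0 := sn_nonneg (θ u) (θ w)
        positivity
      have h3 : ∑ w ∈ Finset.univ.erase u, 1 / (2 * L + N * sn (θ u) (θ w)) ≤
          (∑ w ∈ S, p w v) + ∑ w ∈ Sᶜ, p u w := by
        calc _ ≤ ∑ w, 1 / (2 * L + N * sn (θ u) (θ w)) :=
              Finset.sum_le_sum_of_subset_of_nonneg (Finset.subset_univ _) fun w _ _ => hpos w
          _ = (∑ w ∈ S, 1 / (2 * L + N * sn (θ u) (θ w))) +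
              ∑ w ∈ Sᶜ, 1 / (2 * L + N * sn (θ u) (θ w)) :=
              (Finset.sum_add_sum_compl S _).symm
          _ ≤ _ := add_le_add (Finset.sum_le_sum fun w _ => h1 w)
              (Finset.sum_le_sum fun w _ => h2 w)
      linarith
    have hsum1 : ∑ j ∈ mixed b S, ∑ w ∈ S, p w (uv j).2 ≤ X := by
      have hinj : Set.InjOn (fun j => (uv j).2) (mixed b S : Set (Fin A)) := by
        intro i hi j hj hij
        have h1 := (huv i hi).2.2
        have h2 := (huv j hj).2.2
        simp only at hij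
        rw [hij] at h1
        rw [← h1, h2]
      have hX' : X = ∑ v ∈ Sᶜ, ∑ w ∈ S, p w v := by rw [hX, Finset.sum_comm]
      rw [← Finset.sum_image (f := fun v => ∑ w ∈ S, p w v) hinj, hX']
      refine Finset.sum_le_sum_of_subset_of_nonneg ?_ fun v _ _ =>
        Finset.sum_nonneg fun w _ => hp0 w v
      intro v hv
      obtain ⟨j, hj, rfl⟩ := Finset.mem_image.1 hv
      rw [Finset.mem_compl]
      exact (huv j hj).2.1
    have hsum2 : ∑ j ∈ mixed b S, ∑ w ∈ Sᶜ, p (uv j).1 w ≤ X := by
      have hinj : Set.InjOn (fun j => (uv j).1) (mixed b S : Set (Fin A)) := by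
        intro i hi j hj hij
        have h1 := (huv i hi).1.2
        have h2 := (huv j hj).1.2
        simp only at hij
        rw [hij] at h1
        rw [← h1, h2]
      rw [← Finset.sum_image (f := fun u => ∑ w ∈ Sᶜ, p u w) hinj, hX]
      refine Finset.sum_le_sum_of_subset_of_nonneg ?_ fun v _ _ =>
        Finset.sum_nonneg fun w _ => hp0 v w
      intro v hv
      obtain ⟨j, hj, rfl⟩ := Finset.mem_image.1 hv
      exact (huv j hj).1.1
    have h3 := Finset.card_nsmul_le_sum (mixed b S)
      (fun j => (∑ w ∈ S, p w (uv j).2) + ∑ w ∈ Sᶜ, p (uv j).1 w) (L / 16) hbr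
    rw [Finset.sum_add_distrib, nsmul_eq_mul] at h3
    linarith
  linarith

/-- Sum over the large sets. -/
lemma large_sum (hN : 3 ≤ N) (hp : ∀ u v, 1 / (3 + N * sn (θ u) (θ v)) ≤ p u v)
    (hp1 : ∀ u v, p u v ≤ 1)
    (hsymm : ∀ u v, p u v = p v u)
    (hb : ∀ u v, b u = b v → |θ u - θ v| ≤ 2 * Real.pi / A) (hA : 0 < A)
    (hL : 4 ≤ L) (hAL : 3 + N * Real.pi / A ≤ 2 * L)
    (hY : ∀ u, L / 8 ≤ ∑ w ∈ Finset.univ.erase u, 1 / (2 * L + N * sn (θ u) (θ w)))
    (K : ℝ) (P : Finset (Finset (Fin N))) (hP : ∀ S ∈ P, K ≤ S.card ∧ 2 * S.card ≤ N) :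
    ∑ S ∈ P, ∏ v ∈ Sᶜ, ∏ u ∈ S, (1 - p u v) ≤
      Real.exp (-(K / 16) + ∑ j, (Real.exp (-((arc b j).card / 16)) +
      2 ^ (arc b j).card * Real.exp (-(L / 64)))) := by
  have h1 : ∀ S ∈ P, ∏ v ∈ Sᶜ, ∏ u ∈ S, (1 - p u v) ≤
      Real.exp (-(K / 16)) * ∏ j, phi b L j (S ∩ arc b j) := by
    intro S hS
    obtain ⟨hK, hS2⟩ := hP S hS
    have h2 := cut_lower b θ p L hN hp hsymm hb hA hL hAL hY S hS2
    have h3 : ∏ v ∈ Sᶜ, ∏ u ∈ S, (1 - p u v) ≤ Real.exp (-∑ u ∈ S, ∑ v ∈ Sᶜ, p u v) := by
      rw [Finset.sum_comm, ← Finset.sum_neg_distrib, Real.exp_sum]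
      refine Finset.prod_le_prod (fun v _ => Finset.prod_nonneg fun u _ => by
        linarith [hp1 u v]) fun v _ => ?_
      rw [← Finset.sum_neg_distrib, Real.exp_sum]
      refine Finset.prod_le_prod (fun u _ => by linarith [hp1 u v]) fun u _ => ?_
      have := Real.add_one_le_exp (-(p u v))
      linarith
    refine h3.trans ?_
    rw [prod_phi, ← Real.exp_add]
    apply Real.exp_le_exp.2
    linarith
  refine (Finset.sum_le_sum h1).trans ?_
  rw [← Finset.mul_sum, Real.exp_add]
  apply mul_le_mul_of_nonneg_left _ (Real.exp_pos _).le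
  refine le_trans ?_ (sum_sets_le b L)
  exact Finset.sum_le_sum_of_subset_of_nonneg (Finset.subset_univ _) fun S _ _ =>
    Finset.prod_nonneg fun j _ => (phi_pos b L j _).le

end

end

end Pool.Agent.Helper49.HRG
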