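import Pool.Agent.Helper49.HRG.QUB

open MeasureTheory Set Filter Topology
open scoped ENNReal

namespace Pool.Agent.Helper49.HRG

noncomputable section

lemma sn_triangle (a b c : ℝ) : sn a b ≤ sn a c + sn b c := by
  have h : (a - b) / 2 = (a - c) / 2 - (b - c) / 2 := by ring
  unfold sn
  rw [h, Real.sin_sub]
  refine (abs_sub _ _).trans ?_
  rw [abs_mul, abs_mul]
  have h1 := Real.abs_cos_le_one ((b - c) / 2)
  have h2 := Real.abs_cos_le_one ((a - c) / 2)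
  have h3 := abs_nonneg (Real.sin ((a - c) / 2))
  have h4 := abs_nonneg (Real.sin ((b - c) / 2))
  nlinarith

/-- joint connection probability -/
def rr (ζ α : ℝ) (N : ℕ) (x x' : ℝ × ℝ) : ℝ :=
  ∫ y, edgeProb ζ 1 N x y * edgeProb ζ 1 N x' y ∂(pointLaw ζ α N)

lemma rr_nonneg (ζ α : ℝ) (N : ℕ) (x x' : ℝ × ℝ) : 0 ≤ rr ζ α N x x' :=
  integral_nonneg fun y => mul_nonneg (edgeProb_pos _ _ _ _ _).le (edgeProb_pos _ _ _ _ _).le

section

variable {ζ α : ℝ} (hζ : 0 < ζ) (hα : 0 < α) {N : ℕ} (hN : 2 ≤ N)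

include hζ hN

lemma edge_far (x y : ℝ × ℝ) (hx : x.1 ∈ Icc 0 (discRadius ζ N))
    (hy : y.1 ∈ Icc 0 (discRadius ζ N)) (hx2 : wt ζ N x.1 ≤ 2) {τ κ : ℝ} (hτ : 0 < τ)
    (hs : τ / 2 ≤ N * sn x.2 y.2) (hκ0 : 0 < κ) (hκ1 : κ ≤ 1) :
    edgeProb ζ 1 N x y ≤ 12 * (τ ^ κ)⁻¹ * wt ζ N y.1 ^ κ := by
  have hN1 : 1 ≤ N := by omega
  have hN' : (0 : ℝ) < N := by exact_mod_cast hN1
  have hwx := one_le_wt hζ hN1 hx.2
  have hwy := one_le_wt hζ hN1 hy.2
  set a := wt ζ N x.1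
  set b := wt ζ N y.1
  set z := 12 * b / τ with hz
  have hz0 : 0 < z := by positivity
  have h1 : edgeProb ζ 1 N x y ≤ z := by
    refine (edge_crude hζ hN1 x y hx hy).trans ?_
    have h2 : τ / (4 * b) ≤ N * sn x.2 y.2 / (a * b) := by
      rw [div_le_div_iff₀ (by positivity) (by positivity)]
      have h3 : τ * (a * b) ≤ τ * (2 * b) := by
        apply mul_le_mul_of_nonneg_left _ hτ.le
        exact mul_le_mul_of_nonneg_right hx2 (by positivity)
      have h4 : τ / 2 * (4 * b) ≤ N * sn x.2 y.2 * (4 * b) :=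
        mul_le_mul_of_nonneg_right hs (by positivity)
      linarith
    have h3 : 3 / (1 + N * sn x.2 y.2 / (a * b)) ≤ 3 / (τ / (4 * b)) := by
      apply div_le_div_of_nonneg_left (by norm_num) (by positivity)
      linarith
    refine h3.trans (le_of_eq ?_)
    rw [hz]
    field_simp
    norm_num
  have h2 : edgeProb ζ 1 N x y ≤ 1 := edgeProb_le_one _ _ _ _ _
  have h3 : edgeProb ζ 1 N x y ≤ z ^ κ := by
    by_cases hz1 : z ≤ 1
    · refine h1.trans ?_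
      calc z = z ^ (1 : ℝ) := (Real.rpow_one z).symm
        _ ≤ z ^ κ := Real.rpow_le_rpow_of_exponent_ge hz0 hz1 hκ1
    · push Not at hz1
      exact h2.trans (Real.one_le_rpow hz1.le hκ0.le)
  refine h3.trans ?_
  rw [hz, Real.div_rpow (by positivity) hτ.le, Real.mul_rpow (by norm_num) (by positivity)]
  have h4 : (12 : ℝ) ^ κ ≤ 12 := by
    calc (12 : ℝ) ^ κ ≤ (12 : ℝ) ^ (1 : ℝ) := Real.rpow_le_rpow_of_exponent_le (by norm_num) hκ1
      _ = 12 := Real.rpow_one _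
  have h5 : 0 ≤ (τ ^ κ)⁻¹ * b ^ κ := by positivity
  calc (12 : ℝ) ^ κ * b ^ κ / τ ^ κ = 12 ^ κ * ((τ ^ κ)⁻¹ * b ^ κ) := by ring
    _ ≤ 12 * ((τ ^ κ)⁻¹ * b ^ κ) := mul_le_mul_of_nonneg_right h4 h5
    _ = _ := by ring

include hα

lemma rr_upper1 (x x' : ℝ × ℝ) (hx : x.1 ∈ Icc 0 (discRadius ζ N))
    (hx' : x'.1 ∈ Icc 0 (discRadius ζ N)) (hx2 : wt ζ N x.1 ≤ 2) (hx2' : wt ζ N x'.1 ≤ 2)
    {τ κ : ℝ} (hτ : 0 < τ) (hs : τ ≤ N * sn x.2 x'.2) (hκ0 : 0 < κ) (hκ1 : κ ≤ 1)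
    (hκη : κ ≤ eta ζ α) :
    N * rr ζ α N x x' ≤ 288 * Real.log N * (τ ^ κ)⁻¹ *
      ∫ r, wt ζ N r ^ (1 + eta ζ α) ∂(radiusLaw ζ α N) := by
  have := rad_prob hζ hα hN
  have := point_prob hζ hα hN
  have hN1 : 1 ≤ N := by omega
  have hN' : (0 : ℝ) < N := by exact_mod_cast hN1
  have hL : 0 ≤ Real.log N := Real.log_nonneg (by exact_mod_cast hN1)
  set η := eta ζ α with hηdef
  have hτκ : 0 < τ ^ κ := Real.rpow_pos_of_pos hτ κ
  -- pointwise bound
  have hpt : ∀ y : ℝ × ℝ, y.1 ∈ Icc 0 (discRadius ζ N) →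
      edgeProb ζ 1 N x y * edgeProb ζ 1 N x' y ≤
        12 * (τ ^ κ)⁻¹ * wt ζ N y.1 ^ η * (edgeProb ζ 1 N x y + edgeProb ζ 1 N x' y) := by
    intro y hy
    have hwy := one_le_wt hζ hN1 hy.2
    have hp0 := edgeProb_pos ζ 1 N x y
    have hp0' := edgeProb_pos ζ 1 N x' y
    have hpow : wt ζ N y.1 ^ κ ≤ wt ζ N y.1 ^ η := Real.rpow_le_rpow_of_exponent_le hwy hκη
    have hm : 12 * (τ ^ κ)⁻¹ * wt ζ N y.1 ^ κ ≤ 12 * (τ ^ κ)⁻¹ * wt ζ N y.1 ^ η :=
      mul_le_mul_of_nonneg_left hpow (by positivity)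
    set m := 12 * (τ ^ κ)⁻¹ * wt ζ N y.1 ^ η with hmdef
    have hm0 : 0 ≤ m := by
      have : 0 ≤ wt ζ N y.1 ^ η := Real.rpow_nonneg (by linarith) _
      positivity
    have htri : τ ≤ N * sn x.2 y.2 + N * sn x'.2 y.2 := by
      have := mul_le_mul_of_nonneg_left (sn_triangle x.2 x'.2 y.2) hN'.le
      linarith
    by_cases hcase : τ / 2 ≤ N * sn x.2 y.2
    · have h1 := (edge_far hζ hN x y hx hy hx2 hτ hcase hκ0 hκ1).trans hm
      nlinarith
    · push Not at hcase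
      have hcase' : τ / 2 ≤ N * sn x'.2 y.2 := by linarith
      have h1 := (edge_far hζ hN x' y hx' hy hx2' hτ hcase' hκ0 hκ1).trans hm
      nlinarith
  -- integrate
  have hi : Integrable (fun y : ℝ × ℝ => edgeProb ζ 1 N x y + edgeProb ζ 1 N x' y)
      (pointLaw ζ α N) := (edge_integrable hζ hα hN x).add (edge_integrable hζ hα hN x')
  have hwη : Measurable (fun y : ℝ × ℝ => wt ζ N y.1 ^ η) :=
    (wt_rpow_continuous hζ hα hN η).measurable.comp measurable_fst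
  have hbig : Integrable (fun y : ℝ × ℝ => wt ζ N y.1 ^ η *
      (edgeProb ζ 1 N x y + edgeProb ζ 1 N x' y)) (pointLaw ζ α N) := by
    obtain ⟨C, hC⟩ := (isCompact_Icc (a := (0 : ℝ)) (b := discRadius ζ N)).exists_bound_of_continuousOn
      (wt_rpow_continuous hζ hα hN η).continuousOn
    refine hi.bdd_mul (c := C) hwη.aestronglyMeasurable ?_
    filter_upwards [point_support hζ hα hN] with y hy
    exact hC y.1 hy
  have h1 : rr ζ α N x x' ≤ ∫ y, 12 * (τ ^ κ)⁻¹ * (wt ζ N y.1 ^ η *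
      (edgeProb ζ 1 N x y + edgeProb ζ 1 N x' y)) ∂(pointLaw ζ α N) := by
    unfold rr
    refine integral_mono_of_nonneg (Eventually.of_forall fun y => ?_) (hbig.const_mul _) ?_
    · exact mul_nonneg (edgeProb_pos _ _ _ _ _).le (edgeProb_pos _ _ _ _ _).le
    · filter_upwards [point_support hζ hα hN] with y hy
      have := hpt y hy
      rw [← mul_assoc]
      exact this
  rw [integral_const_mul] at h1
  have h2 : N * ∫ y, (wt ζ N y.1 ^ η * (edgeProb ζ 1 N x y + edgeProb ζ 1 N x' y))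
      ∂(pointLaw ζ α N) ≤ 24 * Real.log N * ∫ r, wt ζ N r ^ (1 + η) ∂(radiusLaw ζ α N) := by
    have hbig2 := hbig
    unfold pointLaw at hbig2 ⊢
    rw [integral_prod _ hbig2, ← integral_const_mul, ← integral_const_mul]
    have hi2 := rad_integrable hζ hα hN _ (wt_rpow_continuous hζ hα hN (1 + η))
    refine integral_mono_ae (hbig2.integral_prod_left.const_mul _) (hi2.const_mul _) ?_
    filter_upwards [rad_support hζ hα hN] with s hs
    have hs1 := one_le_wt hζ hN1 hs.2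
    have hs0 : 0 < wt ζ N s := by linarith
    rw [integral_const_mul]
    have hm1 : ∀ z : ℝ × ℝ, Integrable (fun θ => edgeProb ζ 1 N z (s, θ)) angleLaw := by
      intro z
      refine Integrable.of_bound (C := 1) ?_ (Eventually.of_forall fun θ => ?_)
      · exact ((edge_meas_right ζ 1 N z).comp
          (measurable_const.prodMk measurable_id)).aestronglyMeasurable
      · rw [Real.norm_eq_abs, abs_le]
        constructor <;> linarith [edgeProb_pos ζ 1 N z (s, θ), edgeProb_le_one ζ 1 N z (s, θ)]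
    rw [integral_add (hm1 x) (hm1 x')]
    have hone : ∀ z : ℝ × ℝ, z.1 ∈ Icc 0 (discRadius ζ N) → wt ζ N z.1 ≤ 2 →
        N * ∫ θ, edgeProb ζ 1 N z (s, θ) ∂angleLaw ≤ 12 * Real.log N * wt ζ N s := by
      intro z hz hz2
      have hsymm : ∀ θ, edgeProb ζ 1 N z (s, θ) = edgeProb ζ 1 N (s, θ) (z.1, z.2) := fun θ =>
        edgeProb_symm ζ 1 N _ _
      simp only [hsymm]
      have h1 := edge_angle hζ hN s z.1 z.2 hs hz
      have h2 : (N : ℝ) * ∫ θ, edgeProb ζ 1 N (s, θ) (z.1, z.2) ∂angleLaw ≤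
          6 * Real.log N * wt ζ N s * wt ζ N z.1 := by
        have := mul_le_mul_of_nonneg_left h1 hN'.le
        rwa [mul_div_cancel₀ _ hN'.ne'] at this
      refine h2.trans ?_
      have h3 : 0 ≤ 6 * Real.log N * wt ζ N s := by positivity
      nlinarith
    have h3 := hone x hx hx2
    have h4 := hone x' hx' hx2'
    have h5 : wt ζ N s ^ (1 + η) = wt ζ N s ^ η * wt ζ N s := by
      rw [Real.rpow_add hs0, Real.rpow_one, mul_comm]
    rw [h5]
    have h6 : 0 ≤ wt ζ N s ^ η := Real.rpow_nonneg hs0.le _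
    calc (N : ℝ) * (wt ζ N s ^ η * (∫ θ, edgeProb ζ 1 N x (s, θ) ∂angleLaw +
          ∫ θ, edgeProb ζ 1 N x' (s, θ) ∂angleLaw)) = wt ζ N s ^ η *
          (N * ∫ θ, edgeProb ζ 1 N x (s, θ) ∂angleLaw +
            N * ∫ θ, edgeProb ζ 1 N x' (s, θ) ∂angleLaw) := by ring
      _ ≤ wt ζ N s ^ η * (12 * Real.log N * wt ζ N s + 12 * Real.log N * wt ζ N s) :=
          mul_le_mul_of_nonneg_left (add_le_add h3 h4) h6
      _ = _ := by ring
  calc N * rr ζ α N x x' ≤ N * (12 * (τ ^ κ)⁻¹ * ∫ y, (wt ζ N y.1 ^ η *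
        (edgeProb ζ 1 N x y + edgeProb ζ 1 N x' y)) ∂(pointLaw ζ α N)) :=
        mul_le_mul_of_nonneg_left h1 hN'.le
    _ = 12 * (τ ^ κ)⁻¹ * (N * ∫ y, (wt ζ N y.1 ^ η *
        (edgeProb ζ 1 N x y + edgeProb ζ 1 N x' y)) ∂(pointLaw ζ α N)) := by ring
    _ ≤ 12 * (τ ^ κ)⁻¹ * (24 * Real.log N * ∫ r, wt ζ N r ^ (1 + η) ∂(radiusLaw ζ α N)) :=
        mul_le_mul_of_nonneg_left h2 (by positivity)
    _ = _ := by ring

end

lemma rr_small {ζ α : ℝ} (hζ : 0 < ζ) (hα : 0 < α) (h : ζ / 2 < α) {δ ε : ℝ} (hδ : 0 < δ)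
    (hε : 0 < ε) :
    ∀ᶠ N : ℕ in atTop, ∀ x x' : ℝ × ℝ, x.1 ∈ Icc 0 (discRadius ζ N) →
      x'.1 ∈ Icc 0 (discRadius ζ N) → wt ζ N x.1 ≤ 2 → wt ζ N x'.1 ≤ 2 →
      Real.exp (δ * Real.log N) ≤ N * sn x.2 x'.2 → N * rr ζ α N x x' ≤ ε := by
  have hη := eta_pos hζ h
  have hCm := Cm_pos hζ hα h
  set κ := min 1 (eta ζ α) with hκ
  have hκ0 : 0 < κ := lt_min one_pos hη
  have h1 : Tendsto (fun x : ℝ => 288 * Cm ζ α * (x * Real.exp (-(δ * κ * x)))) atTop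
      (𝓝 (288 * Cm ζ α * 0)) := by
    refine Tendsto.const_mul _ ?_
    have hb : 0 < δ * κ := by positivity
    have h0 := Real.tendsto_pow_mul_exp_neg_atTop_nhds_zero 1
    have h2 : Tendsto (fun x : ℝ => δ * κ * x) atTop atTop := tendsto_id.const_mul_atTop hb
    have h3 := (h0.comp h2).const_mul ((δ * κ)⁻¹)
    rw [mul_zero] at h3
    refine h3.congr fun x => ?_
    simp only [Function.comp]
    rw [pow_one, ← mul_assoc, inv_mul_cancel_left₀ hb.ne']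
  rw [mul_zero] at h1
  filter_upwards [(h1.comp log_tendsto).eventually (ge_mem_nhds hε), wt_moment hζ hα h,
    eventually_ge_atTop 2] with N g1 g2 hN x x' hx hx' hx2 hx2' hs
  have hN1 : 1 ≤ N := by omega
  have hL : 0 ≤ Real.log N := Real.log_nonneg (by exact_mod_cast hN1)
  refine (rr_upper1 hζ hα hN x x' hx hx' hx2 hx2' (Real.exp_pos _) hs hκ0 (min_le_left _ _)
    (min_le_right _ _)).trans ?_
  have e1 : (Real.exp (δ * Real.log N) ^ κ)⁻¹ = Real.exp (-(δ * κ * Real.log N)) := by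
    rw [← Real.exp_mul, ← Real.exp_neg]; congr 1; ring
  rw [e1]
  simp only [Function.comp] at g1
  calc _ ≤ 288 * Real.log N * Real.exp (-(δ * κ * Real.log N)) * Cm ζ α :=
        mul_le_mul_of_nonneg_left g2 (by positivity)
    _ = 288 * Cm ζ α * (Real.log N * Real.exp (-(δ * κ * Real.log N))) := by ring
    _ ≤ ε := g1

end

end Pool.Agent.Helper49.HRG
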