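import Pool.Agent.Helper49.HRG.PairBound

open MeasureTheory Set Filter Topology
open scoped ENNReal

namespace Pool.Agent.Helper49.HRG

noncomputable section

/-- probability that a point is joined to neither of two given points -/
def Hp (ζ α : ℝ) (N : ℕ) (x x' : ℝ × ℝ) : ℝ :=
  ∫ y, (1 - edgeProb ζ 1 N x y) * (1 - edgeProb ζ 1 N x' y) ∂(pointLaw ζ α N)

section

variable {ζ α : ℝ} (hζ : 0 < ζ) (hα : 0 < α) {N : ℕ} (hN : 2 ≤ N)

include hζ hα hN

lemma Hp_nonneg (x x' : ℝ × ℝ) : 0 ≤ Hp ζ α N x x' :=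
  integral_nonneg fun y => mul_nonneg (by
    have := edgeProb_le_one ζ 1 N x y
    simp only [Pi.zero_apply]
    linarith) (by
    have := edgeProb_le_one ζ 1 N x' y
    linarith)

lemma Hp_eq (x x' : ℝ × ℝ) : Hp ζ α N x x' =
    1 - qf ζ α N (fun _ : Unit => x) - qf ζ α N (fun _ : Unit => x') + rr ζ α N x x' := by
  have := point_prob hζ hα hN
  rw [qf_unit hζ hα hN, qf_unit hζ hα hN]
  unfold Hp rr
  have h1 := edge_integrable hζ hα hN x
  have h2 := edge_integrable hζ hα hN x'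
  have h3 : Integrable (fun y => edgeProb ζ 1 N x y * edgeProb ζ 1 N x' y) (pointLaw ζ α N) := by
    refine h2.bdd_mul (c := 1) (edge_meas_right ζ 1 N x).aestronglyMeasurable
      (Eventually.of_forall fun y => ?_)
    rw [Real.norm_eq_abs, abs_le]
    constructor <;> linarith [edgeProb_pos ζ 1 N x y, edgeProb_le_one ζ 1 N x y]
  have h4 : ∀ y, (1 - edgeProb ζ 1 N x y) * (1 - edgeProb ζ 1 N x' y) =
      (1 - edgeProb ζ 1 N x y - edgeProb ζ 1 N x' y) +
        edgeProb ζ 1 N x y * edgeProb ζ 1 N x' y := by intro y; ring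
  simp only [h4]
  have h5 : Integrable (fun y => 1 - edgeProb ζ 1 N x y) (pointLaw ζ α N) :=
    (integrable_const _).sub h1
  have h6 : Integrable (fun y => 1 - edgeProb ζ 1 N x y - edgeProb ζ 1 N x' y)
      (pointLaw ζ α N) := h5.sub h2
  rw [integral_add h6 h3, integral_sub h5 h2, integral_sub (integrable_const _) h1]
  simp

lemma Hp_le (x x' : ℝ × ℝ) : Hp ζ α N x x' ≤ 1 - qf ζ α N (fun _ : Unit => x) := by
  have := point_prob hζ hα hN
  have h1 := edge_integrable hζ hα hN x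
  have h0 : 1 - qf ζ α N (fun _ : Unit => x) = ∫ y, (1 - edgeProb ζ 1 N x y)
      ∂(pointLaw ζ α N) := by
    rw [qf_unit hζ hα hN, integral_sub (integrable_const _) h1]
    simp
  rw [h0]
  unfold Hp
  refine integral_mono_of_nonneg (Eventually.of_forall fun y => ?_)
    ((integrable_const _).sub h1) (Eventually.of_forall fun y => ?_)
  · have h2 := edgeProb_le_one ζ 1 N x y
    have h3 := edgeProb_le_one ζ 1 N x' y
    simp only [Pi.zero_apply]
    exact mul_nonneg (by linarith) (by linarith)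
  · have h2 := edgeProb_le_one ζ 1 N x y
    have h3 := edgeProb_pos ζ 1 N x' y
    simp only
    nlinarith

lemma Hp_le_one (x x' : ℝ × ℝ) : Hp ζ α N x x' ≤ 1 := by
  have h1 := Hp_le hζ hα hN x x'
  have h2 := qf_nonneg hζ hα hN (fun _ : Unit => x)
  linarith

lemma Hp_meas : Measurable (Function.uncurry (Hp ζ α N)) := by
  have := point_prob hζ hα hN
  have hc := conn ζ 1 N
  have h1 : Measurable (fun w : ((ℝ × ℝ) × (ℝ × ℝ)) × (ℝ × ℝ) => edgeProb ζ 1 N w.1.1 w.2) :=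
    hc.meas_comp (measurable_fst.comp measurable_fst) measurable_snd
  have h2 : Measurable (fun w : ((ℝ × ℝ) × (ℝ × ℝ)) × (ℝ × ℝ) => edgeProb ζ 1 N w.1.2 w.2) :=
    hc.meas_comp (measurable_snd.comp measurable_fst) measurable_snd
  have h3 : Measurable (fun w : ((ℝ × ℝ) × (ℝ × ℝ)) × (ℝ × ℝ) =>
      (1 - edgeProb ζ 1 N w.1.1 w.2) * (1 - edgeProb ζ 1 N w.1.2 w.2)) :=
    (measurable_const.sub h1).mul (measurable_const.sub h2)
  exact (StronglyMeasurable.integral_prod_right (f := fun (v : (ℝ × ℝ) × (ℝ × ℝ)) (y : ℝ × ℝ) =>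
    (1 - edgeProb ζ 1 N v.1 y) * (1 - edgeProb ζ 1 N v.2 y)) h3.stronglyMeasurable).measurable

lemma pi_integral_eval2 (F : ℝ × ℝ → ℝ × ℝ → ℝ) (hF : Measurable (Function.uncurry F))
    (C : ℝ) (hC : ∀ y z, |F y z| ≤ C) {u v : Fin N} (huv : u ≠ v) :
    ∫ x, F (x u) (x v) ∂(Measure.pi fun _ : Fin N => pointLaw ζ α N) =
      ∫ y, ∫ z, F y z ∂(pointLaw ζ α N) ∂(pointLaw ζ α N) := by
  classical
  have := point_prob hζ hα hN
  have hm : ∀ w : Fin N, Measurable (fun p : (Fin N → ℝ × ℝ) × (ℝ × ℝ) =>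
      if w = v then F (p.1 u) p.2 else 1) := by
    intro w
    split_ifs
    · have h1 : Measurable (fun p : (Fin N → ℝ × ℝ) × (ℝ × ℝ) => (p.1 u, p.2)) :=
        ((measurable_pi_apply u).comp measurable_fst).prodMk measurable_snd
      exact hF.comp h1
    · exact measurable_const
  have h1 := integral_split_full (pointLaw ζ α N) ({u} : Finset (Fin N)) (fun _ => 1)
    (fun w x z => if w = v then F (x u) z else 1) measurable_const (fun w => hm w)
    (fun _ _ _ => rfl) (fun w x y hxy => by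
      funext z
      rw [hxy u (by simp)]) 1 (by simp) (max C 1) (fun w x z => by
      split_ifs
      · exact (hC _ _).trans (le_max_left _ _)
      · simp)
  have hmem : v ∈ ({u} : Finset (Fin N))ᶜ := by simp [huv.symm]
  have e1 : ∀ x : Fin N → ℝ × ℝ, ∏ w ∈ ({u} : Finset (Fin N))ᶜ,
      (if w = v then F (x u) (x w) else 1) = F (x u) (x v) := by
    intro x
    rw [Finset.prod_ite_eq' _ v (fun w => F (x u) (x w)), if_pos hmem]
  have e2 : ∀ x : Fin N → ℝ × ℝ, ∏ w ∈ ({u} : Finset (Fin N))ᶜ,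
      (∫ z, (if w = v then F (x u) z else 1) ∂(pointLaw ζ α N)) =
        ∫ z, F (x u) z ∂(pointLaw ζ α N) := by
    intro x
    have e3 : ∀ w : Fin N, (∫ z, (if w = v then F (x u) z else 1) ∂(pointLaw ζ α N)) =
        if w = v then ∫ z, F (x u) z ∂(pointLaw ζ α N) else 1 := by
      intro w
      split_ifs
      · rfl
      · simp
    simp only [e3]
    rw [Finset.prod_ite_eq' _ v (fun w => ∫ z, F (x u) z ∂(pointLaw ζ α N)), if_pos hmem]
  simp only [one_mul, e1, e2] at h1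
  rw [h1]
  exact pi_integral_eval hζ hα hN (fun y => ∫ z, F y z ∂(pointLaw ζ α N))
    (StronglyMeasurable.integral_prod_right hF.stronglyMeasurable).measurable u

/-- probability that a light vertex is isolated -/
lemma iso_light (T : Set (ℝ × ℝ)) (hT : MeasurableSet T) (u : Fin N) :
    (muN ζ α N).real {ω | ω.1 u ∈ T ∧ Iso (GG ζ N ω) {u}} =
      ∫ y in T, (1 - qf ζ α N (fun _ : Unit => y)) ^ (N - 1) ∂(pointLaw ζ α N) := by
  have := point_prob hζ hα hN
  have hc := conn ζ 1 N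
  have hA : MeasurableSet {x : Fin N → ℝ × ℝ | x u ∈ T} := measurable_pi_apply u hT
  have h1 := iso_prob (pointLaw ζ α N) hc {x : Fin N → ℝ × ℝ | x u ∈ T} hA {u} ∅ (by simp) id
    (by simp)
  simp only [Finset.notMem_empty, false_implies, implies_true, true_and,
    Finset.prod_empty, one_mul, Finset.prod_singleton] at h1
  have h1' : (muN ζ α N).real {ω | ω.1 u ∈ T ∧ Iso (GG ζ N ω) {u}} =
      ∫ x in {x : Fin N → ℝ × ℝ | x u ∈ T}, ∏ v ∈ ({u} : Finset (Fin N))ᶜ,
        (1 - edgeProb ζ 1 N (x u) (x v)) ∂(Measure.pi fun _ : Fin N => pointLaw ζ α N) := h1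
  rw [h1', ← integral_indicator hA, ← integral_indicator hT]
  have hm : Measurable (fun w : (Fin N → ℝ × ℝ) × (ℝ × ℝ) => edgeProb ζ 1 N (w.1 u) w.2) :=
    hc.meas_comp ((measurable_pi_apply u).comp measurable_fst) measurable_snd
  have hm' : Measurable (fun w : (Fin N → ℝ × ℝ) × (ℝ × ℝ) =>
      1 - edgeProb ζ 1 N (w.1 u) w.2) := measurable_const.sub hm
  have hFm : Measurable (fun x : Fin N → ℝ × ℝ => T.indicator (1 : ℝ × ℝ → ℝ) (x u)) :=
    (measurable_one.indicator hT).comp (measurable_pi_apply u)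
  have h2 := integral_split_full (pointLaw ζ α N) ({u} : Finset (Fin N))
    (fun x => T.indicator (1 : ℝ × ℝ → ℝ) (x u))
    (fun _ x y => 1 - edgeProb ζ 1 N (x u) y) hFm
    (fun v => hm')
    (fun x y hxy => by rw [hxy u (by simp)]) (fun v x y hxy => by
      rw [hxy u (by simp)]) 1 (fun x => by
        by_cases hx : x u ∈ T
        · rw [indicator_of_mem hx]; simp
        · rw [indicator_of_notMem hx]; simp) 1 (fun v x y => by
      have := hc.nonneg (x u) y
      have := hc.le_one (x u) y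
      rw [abs_le]; constructor <;> linarith)
  have h3 : ∀ x : Fin N → ℝ × ℝ, ∏ v ∈ ({u} : Finset (Fin N))ᶜ,
      (∫ y, (1 - edgeProb ζ 1 N (x u) y) ∂(pointLaw ζ α N)) =
      (1 - qf ζ α N (fun _ : Unit => x u)) ^ (N - 1) := by
    intro x
    rw [Finset.prod_const, Finset.card_compl, Finset.card_singleton, Fintype.card_fin]
    congr 1
    rw [← integral_prod_eq hζ hα hN (fun _ : Unit => x u)]
    simp
  simp only [h3] at h2
  have h4 : ∀ x : Fin N → ℝ × ℝ, ({x : Fin N → ℝ × ℝ | x u ∈ T}).indicator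
      (fun x => ∏ v ∈ ({u} : Finset (Fin N))ᶜ, (1 - edgeProb ζ 1 N (x u) (x v))) x =
      T.indicator (1 : ℝ × ℝ → ℝ) (x u) * ∏ v ∈ ({u} : Finset (Fin N))ᶜ,
        (1 - edgeProb ζ 1 N (x u) (x v)) := by
    intro x
    by_cases hx : x u ∈ T
    · rw [indicator_of_mem hx, indicator_of_mem (by exact hx)]; simp
    · rw [indicator_of_notMem hx, indicator_of_notMem (by exact hx)]; simp
  simp only [h4]
  rw [h2]
  have h5 : ∀ y : ℝ × ℝ, T.indicator (fun y => (1 - qf ζ α N (fun _ : Unit => y)) ^ (N - 1)) y =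
      T.indicator (1 : ℝ × ℝ → ℝ) y * (1 - qf ζ α N (fun _ : Unit => y)) ^ (N - 1) := by
    intro y
    by_cases hy : y ∈ T
    · rw [indicator_of_mem hy, indicator_of_mem hy]; simp
    · rw [indicator_of_notMem hy, indicator_of_notMem hy]; simp
  simp only [h5]
  exact pi_integral_eval hζ hα hN
    (fun y => T.indicator (1 : ℝ × ℝ → ℝ) y * (1 - qf ζ α N (fun _ : Unit => y)) ^ (N - 1))
    ((measurable_one.indicator hT).mul
      ((measurable_const.sub (qf_unit_meas hζ hα hN)).pow_const _)) u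

/-- probability that two light vertices are isolated -/
lemma iso_pair (T : Set (ℝ × ℝ)) (hT : MeasurableSet T) {u v : Fin N} (huv : u ≠ v) :
    (muN ζ α N).real ({ω | ω.1 u ∈ T ∧ Iso (GG ζ N ω) {u}} ∩
      {ω | ω.1 v ∈ T ∧ Iso (GG ζ N ω) {v}}) ≤
      ∫ y, ∫ z, T.indicator (1 : ℝ × ℝ → ℝ) y * T.indicator (1 : ℝ × ℝ → ℝ) z *
        Hp ζ α N y z ^ (N - 2) ∂(pointLaw ζ α N) ∂(pointLaw ζ α N) := by
  have := point_prob hζ hα hN
  have hc := conn ζ 1 N
  set A : Set (Fin N → ℝ × ℝ) := {x | x u ∈ T ∧ x v ∈ T} with hAdef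
  have hA : MeasurableSet A := by
    have h1 : MeasurableSet {x : Fin N → ℝ × ℝ | x u ∈ T} := measurable_pi_apply u hT
    have h2 : MeasurableSet {x : Fin N → ℝ × ℝ | x v ∈ T} := measurable_pi_apply v hT
    exact h1.inter h2
  have h1 := iso_prob (pointLaw ζ α N) hc A hA {u, v} ∅ (by simp) id (by simp)
  simp only [Finset.notMem_empty, false_implies, implies_true, true_and,
    Finset.prod_empty, one_mul, Finset.prod_pair huv] at h1
  have hsub : ({ω : (Fin N → ℝ × ℝ) × (Sym2 (Fin N) → ℝ) | ω.1 u ∈ T ∧ Iso (GG ζ N ω) {u}} ∩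
      {ω | ω.1 v ∈ T ∧ Iso (GG ζ N ω) {v}}) ⊆ {ω | ω.1 ∈ A ∧ Iso (GG ζ N ω) {u, v}} := by
    rintro ω ⟨⟨h1, h2⟩, h3, h4⟩
    refine ⟨⟨h1, h3⟩, ?_⟩
    intro w hw z hz hadj
    rw [Finset.mem_insert, Finset.mem_singleton] at hw
    rw [Finset.mem_insert, Finset.mem_singleton, not_or] at hz
    rcases hw with rfl | rfl
    · exact h2 w (by simp) z (by simpa using hz.1) hadj
    · exact h4 w (by simp) z (by simpa using hz.2) hadj
  refine (measureReal_mono hsub (measure_ne_top _ _)).trans (le_of_eq ?_)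
  have h1' : (muN ζ α N).real {ω | ω.1 ∈ A ∧ Iso (GG ζ N ω) {u, v}} =
      ∫ x in A, ∏ w ∈ ({u, v} : Finset (Fin N))ᶜ,
        ((1 - edgeProb ζ 1 N (x u) (x w)) * (1 - edgeProb ζ 1 N (x v) (x w)))
        ∂(Measure.pi fun _ : Fin N => pointLaw ζ α N) := h1
  rw [h1', ← integral_indicator hA]
  have hm1 : ∀ i : Fin N, Measurable (fun w : (Fin N → ℝ × ℝ) × (ℝ × ℝ) =>
      edgeProb ζ 1 N (w.1 i) w.2) := fun i =>
    hc.meas_comp ((measurable_pi_apply i).comp measurable_fst) measurable_snd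
  have hm' : Measurable (fun w : (Fin N → ℝ × ℝ) × (ℝ × ℝ) =>
      (1 - edgeProb ζ 1 N (w.1 u) w.2) * (1 - edgeProb ζ 1 N (w.1 v) w.2)) :=
    (measurable_const.sub (hm1 u)).mul (measurable_const.sub (hm1 v))
  have hTm : Measurable (T.indicator (1 : ℝ × ℝ → ℝ)) := measurable_one.indicator hT
  have hFm : Measurable (fun x : Fin N → ℝ × ℝ => T.indicator (1 : ℝ × ℝ → ℝ) (x u) *
      T.indicator (1 : ℝ × ℝ → ℝ) (x v)) :=
    (hTm.comp (measurable_pi_apply u)).mul (hTm.comp (measurable_pi_apply v))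
  have hTb : ∀ y, |T.indicator (1 : ℝ × ℝ → ℝ) y| ≤ 1 := by
    intro y
    by_cases hy : y ∈ T
    · rw [indicator_of_mem hy]; simp
    · rw [indicator_of_notMem hy]; simp
  have h2 := integral_split_full (pointLaw ζ α N) ({u, v} : Finset (Fin N))
    (fun x => T.indicator (1 : ℝ × ℝ → ℝ) (x u) * T.indicator (1 : ℝ × ℝ → ℝ) (x v))
    (fun _ x y => (1 - edgeProb ζ 1 N (x u) y) * (1 - edgeProb ζ 1 N (x v) y)) hFm
    (fun w => hm')
    (fun x y hxy => by rw [hxy u (by simp), hxy v (by simp)]) (fun w x y hxy => by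
      rw [hxy u (by simp), hxy v (by simp)]) 1 (fun x => by
        rw [abs_mul]
        have e1 := hTb (x u)
        have e2 := hTb (x v)
        have e3 := abs_nonneg (T.indicator (1 : ℝ × ℝ → ℝ) (x u))
        have e4 := abs_nonneg (T.indicator (1 : ℝ × ℝ → ℝ) (x v))
        nlinarith) 1 (fun w x y => by
      have e1 := hc.nonneg (x u) y
      have e2 := hc.le_one (x u) y
      have e3 := hc.nonneg (x v) y
      have e4 := hc.le_one (x v) y
      rw [abs_of_nonneg (mul_nonneg (by linarith) (by linarith))]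
      nlinarith)
  have h3 : ∀ x : Fin N → ℝ × ℝ, ∏ w ∈ ({u, v} : Finset (Fin N))ᶜ,
      (∫ y, (1 - edgeProb ζ 1 N (x u) y) * (1 - edgeProb ζ 1 N (x v) y) ∂(pointLaw ζ α N)) =
      Hp ζ α N (x u) (x v) ^ (N - 2) := by
    intro x
    rw [Finset.prod_const, Finset.card_compl, Finset.card_pair huv, Fintype.card_fin]
    rfl
  simp only [h3] at h2
  have h4 : ∀ x : Fin N → ℝ × ℝ, A.indicator
      (fun x => ∏ w ∈ ({u, v} : Finset (Fin N))ᶜ, ((1 - edgeProb ζ 1 N (x u) (x w)) *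
        (1 - edgeProb ζ 1 N (x v) (x w)))) x =
      T.indicator (1 : ℝ × ℝ → ℝ) (x u) * T.indicator (1 : ℝ × ℝ → ℝ) (x v) *
        ∏ w ∈ ({u, v} : Finset (Fin N))ᶜ, ((1 - edgeProb ζ 1 N (x u) (x w)) *
        (1 - edgeProb ζ 1 N (x v) (x w))) := by
    intro x
    by_cases hx : x ∈ A
    · rw [indicator_of_mem hx, indicator_of_mem hx.1, indicator_of_mem hx.2]; simp
    · rw [indicator_of_notMem hx]
      by_cases hxu : x u ∈ T
      · have hxv : x v ∉ T := fun h => hx ⟨hxu, h⟩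
        rw [indicator_of_notMem hxv]; simp
      · rw [indicator_of_notMem hxu]; simp
  simp only [h4]
  rw [h2]
  have hFm2 : Measurable (Function.uncurry fun y z : ℝ × ℝ => T.indicator (1 : ℝ × ℝ → ℝ) y *
      T.indicator (1 : ℝ × ℝ → ℝ) z * Hp ζ α N y z ^ (N - 2)) := by
    have e1 : Measurable (fun w : (ℝ × ℝ) × (ℝ × ℝ) => T.indicator (1 : ℝ × ℝ → ℝ) w.1) :=
      hTm.comp measurable_fst
    have e2 : Measurable (fun w : (ℝ × ℝ) × (ℝ × ℝ) => T.indicator (1 : ℝ × ℝ → ℝ) w.2) :=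
      hTm.comp measurable_snd
    have e3 : Measurable (fun w : (ℝ × ℝ) × (ℝ × ℝ) => Hp ζ α N w.1 w.2) := Hp_meas hζ hα hN
    exact (e1.mul e2).mul (e3.pow_const _)
  exact pi_integral_eval2 hζ hα hN (fun y z => T.indicator (1 : ℝ × ℝ → ℝ) y *
    T.indicator (1 : ℝ × ℝ → ℝ) z * Hp ζ α N y z ^ (N - 2)) hFm2 1 (fun y z => by
      rw [abs_mul, abs_mul]
      have e1 := hTb y
      have e2 := hTb z
      have e3 := abs_nonneg (T.indicator (1 : ℝ × ℝ → ℝ) y)
      have e4 := abs_nonneg (T.indicator (1 : ℝ × ℝ → ℝ) z)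
      have e5 : |Hp ζ α N y z ^ (N - 2)| ≤ 1 := by
        rw [abs_of_nonneg (pow_nonneg (Hp_nonneg hζ hα hN y z) _)]
        exact pow_le_one₀ (Hp_nonneg hζ hα hN y z) (Hp_le_one hζ hα hN y z)
      have e6 : |T.indicator (1 : ℝ × ℝ → ℝ) y| * |T.indicator (1 : ℝ × ℝ → ℝ) z| ≤ 1 := by
        nlinarith
      have e7 := abs_nonneg (Hp ζ α N y z ^ (N - 2))
      nlinarith) huv

end

end

end Pool.Agent.Helper49.HRG
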