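import Pool.Agent.Helper49.HRG.WeightAsym

open MeasureTheory Set Filter Topology
open scoped ENNReal

namespace Pool.Agent.Helper49.HRG

noncomputable section

lemma prod_lower {ι : Type*} [Fintype ι] (p g l : ι → ℝ) (hp1 : ∀ u, p u ≤ 1)
    (hg0 : ∀ u, 0 < g u) (hgp : ∀ u, g u ≤ p u) (hl : ∀ u, 0 < l u) (hsum : ∑ u, l u = 1) :
    ∑ u, l u * (g u / (l u + g u)) ≤ 1 - ∏ u, (1 - p u) := by
  set G := ∑ u, g u with hG
  have hG0 : 0 ≤ G := Finset.sum_nonneg fun u _ => (hg0 u).le
  have h1 : ∏ u, (1 - p u) ≤ Real.exp (-G) := by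
    rw [hG, ← Finset.sum_neg_distrib, Real.exp_sum]
    apply Finset.prod_le_prod
    · intro u _; linarith [hp1 u]
    · intro u _
      have := Real.add_one_le_exp (-(g u))
      linarith [hgp u]
  have h2 : Real.exp (-G) ≤ 1 / (1 + G) := by
    rw [Real.exp_neg, ← one_div]
    apply one_div_le_one_div_of_le (by positivity)
    have := Real.add_one_le_exp G
    linarith
  have h3 : ∀ u, l u * (g u / (l u + g u)) ≤ (l u * G ^ 2 + g u) / (1 + G) ^ 2 := by
    intro u
    have := hl u
    have := hg0 u
    rw [← mul_div_assoc, div_le_div_iff₀ (by positivity) (by positivity)]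
    nlinarith [sq_nonneg (l u * G - g u)]
  have h4 : ∑ u, (l u * G ^ 2 + g u) / (1 + G) ^ 2 = G / (1 + G) := by
    rw [← Finset.sum_div, Finset.sum_add_distrib, ← Finset.sum_mul, hsum, ← hG]
    have : (1 + G) ≠ 0 := by positivity
    field_simp
    ring
  have h5 : G / (1 + G) = 1 - 1 / (1 + G) := by
    have : (1 + G) ≠ 0 := by positivity
    field_simp
    ring
  calc _ ≤ ∑ u, (l u * G ^ 2 + g u) / (1 + G) ^ 2 := Finset.sum_le_sum fun u _ => h3 u
    _ = 1 - 1 / (1 + G) := by rw [h4, h5]
    _ ≤ _ := by linarith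

instance (ζ α : ℝ) (N : ℕ) : SFinite (radiusLaw ζ α N) := by
  unfold radiusLaw; infer_instance

section

variable {ζ α : ℝ} (hζ : 0 < ζ) (hα : 0 < α) {N : ℕ} (hN : 2 ≤ N)

include hζ hα hN

lemma point_prob : IsProbabilityMeasure (pointLaw ζ α N) := by
  have := rad_prob hζ hα hN
  unfold pointLaw; infer_instance

lemma rad_integrable (f : ℝ → ℝ) (hf : Continuous f) : Integrable f (radiusLaw ζ α N) := by
  have := rad_prob hζ hα hN
  obtain ⟨C, hC⟩ := (isCompact_Icc (a := (0 : ℝ)) (b := discRadius ζ N)).exists_bound_of_continuousOn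
    hf.continuousOn
  refine Integrable.of_bound hf.aestronglyMeasurable C ?_
  filter_upwards [rad_support hζ hα hN] with r hr
  exact hC r hr

lemma point_support : ∀ᵐ y ∂(pointLaw ζ α N), y.1 ∈ Icc 0 (discRadius ζ N) := by
  have := rad_prob hζ hα hN
  unfold pointLaw
  have h := rad_support hζ hα hN
  exact Measure.quasiMeasurePreserving_fst.ae h

end

/-- Probability that a random point is adjacent to some point of the family `z`. -/
def qf (ζ α : ℝ) (N : ℕ) {ι : Type*} [Fintype ι] (z : ι → ℝ × ℝ) : ℝ :=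
  ∫ y, (1 - ∏ u, (1 - edgeProb ζ 1 N (z u) y)) ∂(pointLaw ζ α N)

/-- lower bound function -/
def QL (ζ α : ℝ) (N : ℕ) (V : ℝ) : ℝ :=
  ∫ r, 2 * V * wt ζ N r / (Real.pi * N) * Real.log (1 + Real.pi * N / (8 * (V * wt ζ N r)))
    ∂(radiusLaw ζ α N)

lemma edge_meas_right (ζ β : ℝ) (N : ℕ) (x : ℝ × ℝ) : Measurable (edgeProb ζ β N x) :=
  Measurable.of_uncurry_left (conn ζ β N).meas

lemma prod_meas (ζ : ℝ) (N : ℕ) {ι : Type*} [Fintype ι] (z : ι → ℝ × ℝ) :
    Measurable (fun y => ∏ u, (1 - edgeProb ζ 1 N (z u) y)) :=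
  Finset.measurable_prod _ fun u _ => measurable_const.sub (edge_meas_right ζ 1 N (z u))

lemma prod_mem (ζ : ℝ) (N : ℕ) {ι : Type*} [Fintype ι] (z : ι → ℝ × ℝ) (y : ℝ × ℝ) :
    ∏ u, (1 - edgeProb ζ 1 N (z u) y) ∈ Icc (0 : ℝ) 1 := by
  constructor
  · exact Finset.prod_nonneg fun u _ => by linarith [edgeProb_le_one ζ 1 N (z u) y]
  · exact Finset.prod_le_one (fun u _ => by linarith [edgeProb_le_one ζ 1 N (z u) y])
      fun u _ => by linarith [edgeProb_pos ζ 1 N (z u) y]

section

variable {ζ α : ℝ} (hζ : 0 < ζ) (hα : 0 < α) {N : ℕ} (hN : 2 ≤ N)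

include hζ hα hN

lemma prod_integrable {ι : Type*} [Fintype ι] (z : ι → ℝ × ℝ) :
    Integrable (fun y => 1 - ∏ u, (1 - edgeProb ζ 1 N (z u) y)) (pointLaw ζ α N) := by
  have := point_prob hζ hα hN
  refine Integrable.of_bound (measurable_const.sub (prod_meas ζ N z)).aestronglyMeasurable 1
    (Eventually.of_forall fun y => ?_)
  have h := prod_mem ζ N z y
  rw [Real.norm_eq_abs, abs_le]
  constructor <;> linarith [h.1, h.2]

lemma qf_nonneg {ι : Type*} [Fintype ι] (z : ι → ℝ × ℝ) : 0 ≤ qf ζ α N z :=
  integral_nonneg fun y => by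
    have := prod_mem ζ N z y
    simp only [Pi.zero_apply]
    linarith [this.2]

lemma qf_le_one {ι : Type*} [Fintype ι] (z : ι → ℝ × ℝ) : qf ζ α N z ≤ 1 := by
  have := point_prob hζ hα hN
  have : qf ζ α N z ≤ ∫ y, (1 : ℝ) ∂(pointLaw ζ α N) := by
    refine integral_mono (prod_integrable hζ hα hN z) (integrable_const _) fun y => ?_
    have := prod_mem ζ N z y
    simp only
    linarith [this.1]
  simpa using this

lemma integral_prod_eq {ι : Type*} [Fintype ι] (z : ι → ℝ × ℝ) :
    ∫ y, ∏ u, (1 - edgeProb ζ 1 N (z u) y) ∂(pointLaw ζ α N) = 1 - qf ζ α N z := by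
  have := point_prob hζ hα hN
  unfold qf
  rw [integral_sub (integrable_const _)]
  · simp
  · refine Integrable.of_bound (prod_meas ζ N z).aestronglyMeasurable 1
      (Eventually.of_forall fun y => ?_)
    have h := prod_mem ζ N z y
    rw [Real.norm_eq_abs, abs_le]
    constructor <;> linarith [h.1, h.2]

lemma q_lower {ι : Type*} [Fintype ι] (z : ι → ℝ × ℝ)
    (hz : ∀ u, (z u).1 ∈ Icc 0 (discRadius ζ N)) {V : ℝ} (hV0 : 0 < V)
    (hV : V ≤ ∑ u, wt ζ N (z u).1) : QL ζ α N V ≤ qf ζ α N z := by
  have := rad_prob hζ hα hN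
  have hN1 : 1 ≤ N := by omega
  have hN' : (0 : ℝ) < N := by exact_mod_cast hN1
  have hpi := Real.pi_pos
  set W := ∑ u, wt ζ N (z u).1 with hW
  have hW0 : 0 < W := hV0.trans_le hV
  have hint := prod_integrable hζ hα hN z
  unfold pointLaw at hint
  unfold qf QL pointLaw
  rw [integral_prod _ hint]
  refine integral_mono_of_nonneg ?_ hint.integral_prod_left ?_
  · refine Eventually.of_forall fun r => ?_
    have hw := wt_pos hζ hN1 r
    simp only [Pi.zero_apply]
    apply mul_nonneg (by positivity)
    apply Real.log_nonneg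
    have : 0 ≤ Real.pi * N / (8 * (V * wt ζ N r)) := by positivity
    linarith
  · filter_upwards [rad_support hζ hα hN] with r hr
    have hw := wt_pos hζ hN1 r
    set K := N / (V * wt ζ N r) with hK
    have hK0 : 0 < K := by positivity
    -- lower bound for each angle
    have hpt : ∀ θ : ℝ, ∑ u, wt ζ N (z u).1 / W * (1 / (4 + K * sn θ (z u).2)) ≤
        1 - ∏ u, (1 - edgeProb ζ 1 N (z u) (r, θ)) := by
      intro θ
      refine le_trans ?_ (prod_lower (fun u => edgeProb ζ 1 N (z u) (r, θ))
        (fun u => 1 / (3 + N * sn (z u).2 θ / (V / W * wt ζ N (z u).1 * wt ζ N r)))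
        (fun u => wt ζ N (z u).1 / W) (fun u => edgeProb_le_one _ _ _ _ _) ?_ ?_ ?_ ?_)
      · refine Finset.sum_le_sum fun u _ => ?_
        have hwu := wt_pos hζ hN1 (z u).1
        have hs := sn_nonneg (z u).2 θ
        apply mul_le_mul_of_nonneg_left _ (by positivity)
        set s := sn (z u).2 θ with hsdef
        rw [sn_comm θ, ← hsdef]
        set a := wt ζ N (z u).1
        set b := wt ζ N r
        have hX : 0 < 3 + N * s / (V / W * a * b) := by positivity
        have ha : a / W ≤ 1 := by
          rw [div_le_one hW0, hW]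
          exact Finset.single_le_sum (f := fun u => wt ζ N (z u).1)
            (fun v _ => (wt_pos hζ hN1 (z v).1).le) (Finset.mem_univ u)
        have e1 : 1 / (3 + N * s / (V / W * a * b)) / (a / W + 1 / (3 + N * s / (V / W * a * b))) =
            1 / (1 + a / W * (3 + N * s / (V / W * a * b))) := by
          field_simp
          ring
        rw [e1]
        apply one_div_le_one_div_of_le (by positivity)
        have e2 : a / W * (3 + N * s / (V / W * a * b)) = 3 * (a / W) + K * s := by
          rw [hK]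
          field_simp
        rw [e2]
        linarith
      · intro u
        have hwu := wt_pos hζ hN1 (z u).1
        have hs := sn_nonneg (z u).2 θ
        positivity
      · intro u
        refine le_trans ?_ (edge_lower hζ hN1 (z u) (r, θ) (hz u) hr)
        have hwu := wt_pos hζ hN1 (z u).1
        have hs := sn_nonneg (z u).2 θ
        apply one_div_le_one_div_of_le (by positivity)
        have hVW : V / W ≤ 1 := by rw [div_le_one hW0]; exact hV
        have : N * sn (z u).2 θ / (wt ζ N (z u).1 * wt ζ N r) ≤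
            N * sn (z u).2 θ / (V / W * wt ζ N (z u).1 * wt ζ N r) := by
          apply div_le_div_of_nonneg_left (by positivity) (by positivity)
          have : 0 < wt ζ N (z u).1 * wt ζ N r := by positivity
          nlinarith
        linarith
      · intro u
        have hwu := wt_pos hζ hN1 (z u).1
        positivity
      · rw [← Finset.sum_div, ← hW, div_self hW0.ne']
    have hcont : ∀ u, Continuous (fun θ => wt ζ N (z u).1 / W * (1 / (4 + K * sn θ (z u).2))) := by
      intro u
      refine continuous_const.mul (continuous_const.div ?_ fun θ => ?_)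
      · unfold sn; fun_prop
      · have := sn_nonneg θ (z u).2
        positivity
    have hbd : ∀ u, ∀ θ, ‖wt ζ N (z u).1 / W * (1 / (4 + K * sn θ (z u).2))‖ ≤
        wt ζ N (z u).1 / W := by
      intro u θ
      have hwu := wt_pos hζ hN1 (z u).1
      have hs := sn_nonneg θ (z u).2
      rw [Real.norm_of_nonneg (by positivity)]
      have : 1 / (4 + K * sn θ (z u).2) ≤ 1 := by
        rw [div_le_one (by positivity)]
        nlinarith
      have h0 : 0 ≤ wt ζ N (z u).1 / W := by positivity
      nlinarith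
    have hi : ∀ u, Integrable (fun θ => wt ζ N (z u).1 / W * (1 / (4 + K * sn θ (z u).2)))
        angleLaw := fun u =>
      Integrable.of_bound (hcont u).aestronglyMeasurable _ (Eventually.of_forall (hbd u))
    have h1 : ∫ θ, ∑ u, wt ζ N (z u).1 / W * (1 / (4 + K * sn θ (z u).2)) ∂angleLaw ≤
        ∫ θ, (1 - ∏ u, (1 - edgeProb ζ 1 N (z u) (r, θ))) ∂angleLaw := by
      refine integral_mono (integrable_finsetSum _ fun u _ => hi u) ?_ hpt
      refine Integrable.of_bound (C := 1) ?_ (Eventually.of_forall fun θ => ?_)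
      · exact (measurable_const.sub ((prod_meas ζ N z).comp
          (measurable_const.prodMk measurable_id))).aestronglyMeasurable
      · have h := prod_mem ζ N z (r, θ)
        rw [Real.norm_eq_abs, abs_le]
        constructor <;> linarith [h.1, h.2]
    refine le_trans ?_ h1
    rw [integral_finsetSum _ fun u _ => hi u]
    have h2 : ∀ u ∈ Finset.univ, wt ζ N (z u).1 / W *
        (2 / (Real.pi * K) * Real.log (1 + Real.pi * K / (2 * 4))) ≤
        ∫ θ, wt ζ N (z u).1 / W * (1 / (4 + K * sn θ (z u).2)) ∂angleLaw := by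
      intro u _
      have hwu := wt_pos hζ hN1 (z u).1
      rw [integral_const_mul]
      exact mul_le_mul_of_nonneg_left (angle_lower 4 K (by norm_num) hK0 _) (by positivity)
    refine le_trans ?_ (Finset.sum_le_sum h2)
    rw [← Finset.sum_mul, ← Finset.sum_div, ← hW, div_self hW0.ne', one_mul]
    apply le_of_eq
    rw [hK]
    congr 1
    · field_simp
    · congr 2
      field_simp
      norm_num

end

end

end Pool.Agent.Helper49.HRG
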