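import Pool.Agent.Helper49.HRG.QBound

open MeasureTheory Set Filter Topology
open scoped ENNReal

namespace Pool.Agent.Helper49.HRG

noncomputable section

lemma wt_continuous (ζ : ℝ) (N : ℕ) : Continuous (wt ζ N) := by
  unfold wt; fun_prop

section

variable {ζ α : ℝ} (hζ : 0 < ζ) (hα : 0 < α) {N : ℕ} (hN : 2 ≤ N)

include hζ hα hN

lemma QL_integrable {V : ℝ} (hV : 0 < V) :
    Integrable (fun r => 2 * V * wt ζ N r / (Real.pi * N) *
      Real.log (1 + Real.pi * N / (8 * (V * wt ζ N r)))) (radiusLaw ζ α N) := by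
  apply rad_integrable hζ hα hN
  have hN1 : 1 ≤ N := by omega
  have hN' : (0 : ℝ) < N := by exact_mod_cast hN1
  have hpi := Real.pi_pos
  have h1 := wt_continuous ζ N
  refine Continuous.mul (by fun_prop) (Continuous.log ?_ fun r => ?_)
  · refine continuous_const.add (continuous_const.div (by fun_prop) fun r => ?_)
    have := wt_pos hζ hN1 r
    positivity
  · have := wt_pos hζ hN1 r
    positivity

lemma wt_log_continuous : Continuous (fun r => wt ζ N r * Real.log (wt ζ N r)) := by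
  have hN1 : 1 ≤ N := by omega
  have h1 := wt_continuous ζ N
  exact h1.mul (h1.log fun r => (wt_pos hζ hN1 r).ne')

lemma wt_rpow_continuous (s : ℝ) : Continuous (fun r => wt ζ N r ^ s) := by
  have hN1 : 1 ≤ N := by omega
  have h1 := wt_continuous ζ N
  exact h1.rpow_const fun r => Or.inl (wt_pos hζ hN1 r).ne'

lemma QL_lower1 {V : ℝ} (hV : 0 < V) :
    2 * V / Real.pi * (Ew ζ α N * (Real.log N - 1 - Real.log V) -
      ∫ r, wt ζ N r * Real.log (wt ζ N r) ∂(radiusLaw ζ α N)) ≤ N * QL ζ α N V := by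
  have hN1 : 1 ≤ N := by omega
  have hN' : (0 : ℝ) < N := by exact_mod_cast hN1
  have hpi := Real.pi_pos
  have hi1 := rad_integrable hζ hα hN _ (wt_continuous ζ N)
  have hi2 := rad_integrable hζ hα hN _ (wt_log_continuous hζ hα hN)
  have e1 : Ew ζ α N * (Real.log N - 1 - Real.log V) -
      ∫ r, wt ζ N r * Real.log (wt ζ N r) ∂(radiusLaw ζ α N) =
      ∫ r, (wt ζ N r * (Real.log N - 1 - Real.log V) - wt ζ N r * Real.log (wt ζ N r))
        ∂(radiusLaw ζ α N) := by
    rw [integral_sub (hi1.mul_const _) hi2, integral_mul_const]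
    rfl
  rw [e1]
  unfold QL
  rw [← integral_const_mul, ← integral_const_mul]
  refine integral_mono ((hi1.mul_const _).sub hi2 |>.const_mul _)
    ((QL_integrable hζ hα hN hV).const_mul _) fun r => ?_
  have hw := wt_pos hζ hN1 r
  set w := wt ζ N r
  simp only
  have h1 : Real.log N - 1 - Real.log V - Real.log w ≤
      Real.log (1 + Real.pi * N / (8 * (V * w))) := by
    have h2 : Real.log (N / (Real.exp 1 * V * w)) = Real.log N - 1 - Real.log V - Real.log w := by
      rw [Real.log_div hN'.ne' (by positivity), Real.log_mul (by positivity) hw.ne',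
        Real.log_mul (by positivity) hV.ne', Real.log_exp]
      ring
    rw [← h2]
    apply Real.log_le_log (by positivity)
    have h3 : N / (Real.exp 1 * V * w) ≤ Real.pi * N / (8 * (V * w)) := by
      rw [div_le_div_iff₀ (by positivity) (by positivity)]
      have h4 : 8 ≤ Real.pi * Real.exp 1 := by
        have := Real.pi_gt_three
        have := Real.exp_one_gt_d9
        nlinarith
      have h5 : 0 < N * (V * w) := by positivity
      nlinarith
    linarith
  have e2 : N * (2 * V * w / (Real.pi * N) * Real.log (1 + Real.pi * N / (8 * (V * w)))) =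
      2 * V / Real.pi * (w * Real.log (1 + Real.pi * N / (8 * (V * w)))) := by
    field_simp
  rw [e2]
  apply mul_le_mul_of_nonneg_left _ (by positivity)
  nlinarith

lemma QL_lower2 {V B : ℝ} (hV : 0 < V) (hB : 0 < B) (hη : 0 ≤ eta ζ α)
    :
    2 * V / Real.pi * ((Ew ζ α N - (B ^ eta ζ α)⁻¹ *
      ∫ r, wt ζ N r ^ (1 + eta ζ α) ∂(radiusLaw ζ α N)) *
        Real.log (1 + Real.pi * N / (8 * (V * B)))) ≤ N * QL ζ α N V := by
  have hN1 : 1 ≤ N := by omega
  have hN' : (0 : ℝ) < N := by exact_mod_cast hN1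
  have hpi := Real.pi_pos
  set L := Real.log (1 + Real.pi * N / (8 * (V * B))) with hL
  have hL0 : 0 ≤ L := by
    rw [hL]
    apply Real.log_nonneg
    have : 0 ≤ Real.pi * N / (8 * (V * B)) := by positivity
    linarith
  have hi1 := rad_integrable hζ hα hN _ (wt_continuous ζ N)
  have hi2 := rad_integrable hζ hα hN _ (wt_rpow_continuous hζ hα hN (1 + eta ζ α))
  have e1 : (Ew ζ α N - (B ^ eta ζ α)⁻¹ *
      ∫ r, wt ζ N r ^ (1 + eta ζ α) ∂(radiusLaw ζ α N)) * L =
      ∫ r, (wt ζ N r - (B ^ eta ζ α)⁻¹ * wt ζ N r ^ (1 + eta ζ α)) * L ∂(radiusLaw ζ α N) := by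
    rw [integral_mul_const, integral_sub hi1 (hi2.const_mul _), integral_const_mul]
    rfl
  rw [e1]
  unfold QL
  rw [← integral_const_mul, ← integral_const_mul]
  refine integral_mono (((hi1.sub (hi2.const_mul _)).mul_const _).const_mul _)
    ((QL_integrable hζ hα hN hV).const_mul _) fun r => ?_
  have hw := wt_pos hζ hN1 r
  set w := wt ζ N r
  simp only [Pi.sub_apply]
  have e2 : N * (2 * V * w / (Real.pi * N) * Real.log (1 + Real.pi * N / (8 * (V * w)))) =
      2 * V / Real.pi * (w * Real.log (1 + Real.pi * N / (8 * (V * w)))) := by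
    field_simp
  rw [e2]
  apply mul_le_mul_of_nonneg_left _ (by positivity)
  have e3 : (B ^ eta ζ α)⁻¹ * w ^ (1 + eta ζ α) = w * (w / B) ^ eta ζ α := by
    rw [Real.rpow_add hw, Real.rpow_one, Real.div_rpow hw.le hB.le]
    field_simp
  rw [e3]
  by_cases hwB : w ≤ B
  · have h1 : L ≤ Real.log (1 + Real.pi * N / (8 * (V * w))) := by
      rw [hL]
      apply Real.log_le_log (by positivity)
      have : Real.pi * N / (8 * (V * B)) ≤ Real.pi * N / (8 * (V * w)) := by
        apply div_le_div_of_nonneg_left (by positivity) (by positivity)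
        nlinarith
      linarith
    have h2 : 0 ≤ w * (w / B) ^ eta ζ α := by positivity
    calc (w - w * (w / B) ^ eta ζ α) * L ≤ w * L := by nlinarith
      _ ≤ _ := mul_le_mul_of_nonneg_left h1 hw.le
  · push Not at hwB
    have h1 : 1 ≤ (w / B) ^ eta ζ α := by
      apply Real.one_le_rpow _ hη
      rw [one_le_div hB]; exact hwB.le
    have h2 : (w - w * (w / B) ^ eta ζ α) * L ≤ 0 := by
      apply mul_nonpos_of_nonpos_of_nonneg _ hL0
      nlinarith
    refine h2.trans (mul_nonneg hw.le (Real.log_nonneg ?_))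
    have : 0 ≤ Real.pi * N / (8 * (V * w)) := by positivity
    linarith

lemma wlogw_le (hη : 0 < eta ζ α) :
    ∫ r, wt ζ N r * Real.log (wt ζ N r) ∂(radiusLaw ζ α N) ≤
      (eta ζ α)⁻¹ * ∫ r, wt ζ N r ^ (1 + eta ζ α) ∂(radiusLaw ζ α N) := by
  have hN1 : 1 ≤ N := by omega
  rw [← integral_const_mul]
  refine integral_mono (rad_integrable hζ hα hN _ (wt_log_continuous hζ hα hN))
    ((rad_integrable hζ hα hN _ (wt_rpow_continuous hζ hα hN (1 + eta ζ α))).const_mul _)
    fun r => ?_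
  have hw := wt_pos hζ hN1 r
  simp only
  have h1 := Real.log_le_rpow_div hw.le hη
  calc wt ζ N r * Real.log (wt ζ N r) ≤ wt ζ N r * (wt ζ N r ^ eta ζ α / eta ζ α) :=
        mul_le_mul_of_nonneg_left h1 hw.le
    _ = _ := by rw [Real.rpow_add hw, Real.rpow_one]; ring

end

variable {ζ α : ℝ}

/-- the constant in front of the logarithm -/
def cc (ζ α : ℝ) : ℝ := 2 * kap ζ α / Real.pi

lemma cc_pos (hα : 0 < α) (h : ζ / 2 < α) : 0 < cc ζ α := by
  unfold cc
  have := kap_pos hα h
  have := Real.pi_pos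
  positivity

/-- bound used for single vertices -/
lemma QL_single (hζ : 0 < ζ) (hα : 0 < α) (h : ζ / 2 < α) :
    ∃ C : ℝ, 0 < C ∧ ∀ᶠ N : ℕ in atTop, ∀ V : ℝ, 1 ≤ V → V ≤ 3 →
      cc ζ α * V * Real.log N - C ≤ N * QL ζ α N V := by
  have hη := eta_pos hζ h
  have hk := kap_pos hα h
  have hCm := Cm_pos hζ hα h
  have hpi := Real.pi_gt_three
  refine ⟨3 * (1 + 3 * (kap ζ α + 1) + (eta ζ α)⁻¹ * Cm ζ α), by positivity, ?_⟩
  filter_upwards [Ew_lower hζ hα h, Ew_upper hζ hα h one_pos, wt_moment hζ hα h,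
    eventually_ge_atTop 2] with N h1 h2 h3 hN V hV1 hV3
  have hV0 : 0 < V := by linarith
  refine le_trans ?_ (QL_lower1 hζ hα hN hV0)
  have h4 := (wlogw_le hζ hα hN hη).trans (mul_le_mul_of_nonneg_left h3 (inv_pos.2 hη).le)
  have hlog : Real.log V ≤ 2 := by
    have := Real.log_le_sub_one_of_pos hV0
    linarith
  have hlog0 : 0 ≤ Real.log V := Real.log_nonneg hV1
  have hE0 : 0 ≤ Ew ζ α N := integral_nonneg fun r => (wt_pos hζ (by omega) r).le
  set I := ∫ r, wt ζ N r * Real.log (wt ζ N r) ∂(radiusLaw ζ α N)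
  have h5 : kap ζ α * Real.log N - (1 + 3 * (kap ζ α + 1) + (eta ζ α)⁻¹ * Cm ζ α) ≤
      Ew ζ α N * (Real.log N - 1 - Real.log V) - I := by
    nlinarith
  have h6 := mul_le_mul_of_nonneg_left h5 (show 0 ≤ 2 * V / Real.pi by positivity)
  refine le_trans ?_ h6
  have h7 : 2 * V / Real.pi * (1 + 3 * (kap ζ α + 1) + (eta ζ α)⁻¹ * Cm ζ α) ≤
      3 * (1 + 3 * (kap ζ α + 1) + (eta ζ α)⁻¹ * Cm ζ α) := by
    apply mul_le_mul_of_nonneg_right _ (by positivity)
    rw [div_le_iff₀ (by positivity)]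
    nlinarith
  have h8 : 2 * V / Real.pi * (kap ζ α * Real.log N -
      (1 + 3 * (kap ζ α + 1) + (eta ζ α)⁻¹ * Cm ζ α)) = cc ζ α * V * Real.log N -
      2 * V / Real.pi * (1 + 3 * (kap ζ α + 1) + (eta ζ α)⁻¹ * Cm ζ α) := by
    unfold cc; ring
  rw [h8]
  linarith

/-- bound used for sets of vertices -/
lemma QL_multi (hζ : 0 < ζ) (hα : 0 < α) (h : ζ / 2 < α) {ε δ : ℝ} (hε : 0 < ε) (hδ : 0 < δ) :
    ∀ᶠ N : ℕ in atTop, ∀ V : ℝ, 0 < V → Real.log V ≤ (1 - δ) * Real.log N →
      (cc ζ α - ε) * V * (Real.log N - Real.log V) ≤ N * QL ζ α N V := by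
  have hη := eta_pos hζ h
  have hk := kap_pos hα h
  have hCm := Cm_pos hζ hα h
  have hpi := Real.pi_gt_three
  -- parameters
  set ε1 := ε / 2 with hε1
  set ε2 := min (1 / 2) (ε / (2 * kap ζ α)) with hε2
  have hε1p : 0 < ε1 := by positivity
  have hε2p : 0 < ε2 := by positivity
  have hε2k : ε2 * kap ζ α ≤ ε / 2 := by
    have : ε2 ≤ ε / (2 * kap ζ α) := min_le_right _ _
    calc ε2 * kap ζ α ≤ ε / (2 * kap ζ α) * kap ζ α := mul_le_mul_of_nonneg_right this hk.le
      _ = ε / 2 := by field_simp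
  have hε2h : ε2 ≤ 1 / 2 := min_le_left _ _
  -- choose B
  obtain ⟨B, hB1, hB2⟩ : ∃ B : ℝ, 1 ≤ B ∧ (B ^ eta ζ α)⁻¹ * Cm ζ α ≤ ε1 / 2 := by
    have h1 : Tendsto (fun B : ℝ => (B ^ eta ζ α)⁻¹ * Cm ζ α) atTop (𝓝 (0 * Cm ζ α)) :=
      ((tendsto_rpow_atTop hη).inv_tendsto_atTop).mul_const _
    rw [zero_mul] at h1
    obtain ⟨B, hB⟩ := ((h1.eventually (ge_mem_nhds (show (0 : ℝ) < ε1 / 2 by positivity))).and
      (eventually_ge_atTop 1)).exists
    exact ⟨B, hB.2, hB.1⟩
  have hB0 : 0 < B := by linarith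
  have hL : Tendsto (fun N : ℕ => ε2 * δ * Real.log N) atTop atTop :=
    log_tendsto.const_mul_atTop (by positivity)
  have hL1 : Tendsto (fun N : ℕ => ε1 / 2 * Real.log N) atTop atTop :=
    log_tendsto.const_mul_atTop (by positivity)
  filter_upwards [Ew_lower hζ hα h, wt_moment hζ hα h,
    eventually_ge_atTop 2, hL.eventually_ge_atTop (Real.log (3 * B)),
    hL1.eventually_ge_atTop 1, log_tendsto.eventually_gt_atTop 0] with N h1 h3 hN h4 h5 hL0
  intro V hV0 hVN
  have hN' : (0 : ℝ) < N := by exact_mod_cast (by omega : 0 < N)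
  by_cases hc : cc ζ α - ε ≤ 0
  · have h6 : (cc ζ α - ε) * V * (Real.log N - Real.log V) ≤ 0 := by
      have : 0 ≤ Real.log N - Real.log V := by nlinarith
      apply mul_nonpos_of_nonpos_of_nonneg _ this
      exact mul_nonpos_of_nonpos_of_nonneg hc hV0.le
    refine h6.trans (mul_nonneg hN'.le (integral_nonneg fun r => ?_))
    have hw := wt_pos hζ (by omega : 1 ≤ N) r
    simp only [Pi.zero_apply]
    apply mul_nonneg (by positivity)
    apply Real.log_nonneg
    have : 0 ≤ Real.pi * N / (8 * (V * wt ζ N r)) := by positivity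
    linarith
  push Not at hc
  refine le_trans ?_ (QL_lower2 hζ hα hN hV0 hB0 hη.le)
  set M := ∫ r, wt ζ N r ^ (1 + eta ζ α) ∂(radiusLaw ζ α N)
  have h6 : kap ζ α - ε1 ≤ Ew ζ α N - (B ^ eta ζ α)⁻¹ * M := by
    have h7 : (B ^ eta ζ α)⁻¹ * M ≤ ε1 / 2 :=
      (mul_le_mul_of_nonneg_left h3 (by positivity)).trans hB2
    have h8 : kap ζ α - ε1 / 2 ≤ Ew ζ α N := by
      by_contra hcon
      push Not at hcon
      nlinarith
    linarith
  set D := Real.log N - Real.log V with hD
  have hD0 : δ * Real.log N ≤ D := by rw [hD]; linarith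
  have hDpos : 0 < D := lt_of_lt_of_le (by positivity) hD0
  have h9 : (1 - ε2) * D ≤ Real.log (1 + Real.pi * N / (8 * (V * B))) := by
    have h10 : D - Real.log (3 * B) ≤ Real.log (1 + Real.pi * N / (8 * (V * B))) := by
      have h11 : Real.log (N / (V * (3 * B))) = D - Real.log (3 * B) := by
        rw [Real.log_div hN'.ne' (by positivity), Real.log_mul hV0.ne' (by positivity)]
        ring
      rw [← h11]
      apply Real.log_le_log (by positivity)
      have : N / (V * (3 * B)) ≤ Real.pi * N / (8 * (V * B)) := by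
        rw [div_le_div_iff₀ (by positivity) (by positivity)]
        have : 0 < N * (V * B) := by positivity
        nlinarith
      linarith
    nlinarith
  have hkε : 0 < kap ζ α - ε1 := by
    have h12 : cc ζ α ≤ kap ζ α := by
      unfold cc
      rw [div_le_iff₀ (by positivity)]
      nlinarith
    rw [hε1]
    linarith
  have h13 : (kap ζ α - ε1) * ((1 - ε2) * D) ≤ (Ew ζ α N - (B ^ eta ζ α)⁻¹ * M) *
      Real.log (1 + Real.pi * N / (8 * (V * B))) := by
    apply mul_le_mul h6 h9 (by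
      have : 0 ≤ 1 - ε2 := by linarith
      positivity) (hkε.le.trans h6)
  have h14 := mul_le_mul_of_nonneg_left h13 (show 0 ≤ 2 * V / Real.pi by positivity)
  refine le_trans ?_ h14
  have h15 : kap ζ α - ε ≤ (kap ζ α - ε1) * (1 - ε2) := by
    rw [hε1]
    nlinarith
  have h16 : (kap ζ α - ε) * D ≤ (kap ζ α - ε1) * (1 - ε2) * D :=
    mul_le_mul_of_nonneg_right h15 hDpos.le
  have h17 : 2 / Real.pi * ε ≤ ε := by
    have : 2 / Real.pi ≤ 1 := by rw [div_le_one (by positivity)]; linarith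
    nlinarith
  have h18 : (cc ζ α - ε) * V * D ≤ 2 * V / Real.pi * ((kap ζ α - ε) * D) := by
    have e : 2 * V / Real.pi * ((kap ζ α - ε) * D) = (cc ζ α - 2 / Real.pi * ε) * V * D := by
      unfold cc; ring
    rw [e]
    apply mul_le_mul_of_nonneg_right _ hDpos.le
    apply mul_le_mul_of_nonneg_right _ hV0.le
    linarith
  refine h18.trans ?_
  apply mul_le_mul_of_nonneg_left _ (by positivity)
  nlinarith

end

end Pool.Agent.Helper49.HRG
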