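import Pool.Agent.Helper49.HRG.SmallProb

open MeasureTheory Set Filter Topology
open scoped ENNReal

namespace Pool.Agent.Helper49.HRG

noncomputable section

section

variable {ζ α : ℝ} (hζ : 0 < ζ) (hα : 0 < α) {N : ℕ} (hN : 2 ≤ N)

include hζ hN

/-- sharp angular bound for two light vertices -/
lemma edge_angle_sharp (r s θ0 : ℝ) (hr : r ∈ Icc 0 (discRadius ζ N))
    (hs : s ∈ Icc 0 (discRadius ζ N)) {ρ0 : ℝ} (hρ0 : 0 < ρ0) (hρ1 : ρ0 ≤ 1)
    (hρ : ρ0 ≤ Real.sqrt ((1 - Real.exp (-(2 * (ζ * r)))) * (1 - Real.exp (-(2 * (ζ * s)))))) :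
    N * ∫ φ, edgeProb ζ 1 N (r, φ) (s, θ0) ∂angleLaw ≤
      wt ζ N r * wt ζ N s / ρ0 * (2 / Real.pi * Real.log N + 2) := by
  have hN1 : 1 ≤ N := by omega
  have hN' : (0 : ℝ) < N := by exact_mod_cast hN1
  have hN2 : (2 : ℝ) ≤ N := by exact_mod_cast hN
  have hpi := Real.pi_gt_three
  have hpi2 := Real.pi_lt_d2
  have hw1 := one_le_wt hζ hN1 hr.2
  have hw2 := one_le_wt hζ hN1 hs.2
  set K := ρ0 * (N / (wt ζ N r * wt ζ N s)) with hK
  have hK0 : 0 < K := by positivity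
  have hKN : K ≤ N := by
    have h1 : N / (wt ζ N r * wt ζ N s) ≤ N := by
      apply div_le_self hN'.le
      nlinarith
    have h2 : 0 < N / (wt ζ N r * wt ζ N s) := by positivity
    rw [hK]
    nlinarith
  have h1 : ∀ φ, edgeProb ζ 1 N (r, φ) (s, θ0) ≤ 1 / (1 + K * sn φ θ0) := by
    intro φ
    refine (edge_upper hζ hN1 (r, φ) (s, θ0) hr.1 hs.1).trans ?_
    have hsn := sn_nonneg φ θ0
    apply one_div_le_one_div_of_le (by positivity)
    simp only
    have h3 : 0 ≤ N * sn φ θ0 / (wt ζ N r * wt ζ N s) := by positivity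
    have h4 := mul_le_mul_of_nonneg_right hρ h3
    have h5 : K * sn φ θ0 = ρ0 * (N * sn φ θ0 / (wt ζ N r * wt ζ N s)) := by rw [hK]; ring
    rw [h5]
    linarith
  have h2 : ∫ φ, edgeProb ζ 1 N (r, φ) (s, θ0) ∂angleLaw ≤
      ∫ φ, 1 / (1 + K * sn φ θ0) ∂angleLaw := by
    refine integral_mono_of_nonneg (Eventually.of_forall fun φ => (edgeProb_pos _ _ _ _ _).le)
      ?_ (Eventually.of_forall h1)
    refine Integrable.of_bound (C := 1) ?_ (Eventually.of_forall fun φ => ?_)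
    · have hc : Continuous (fun φ => 1 / (1 + K * sn φ θ0)) := by
        refine continuous_const.div ?_ fun φ => ?_
        · unfold sn; fun_prop
        · have := sn_nonneg φ θ0
          positivity
      exact hc.aestronglyMeasurable
    · have := sn_nonneg φ θ0
      rw [Real.norm_of_nonneg (by positivity), div_le_one (by positivity)]
      have : 0 ≤ K * sn φ θ0 := by positivity
      linarith
  have h3 := h2.trans (angle_upper K hK0 θ0)
  have h4 : Real.log (1 + Real.pi * K / 2) ≤ Real.log N + 1 := by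
    have h5 : 1 + Real.pi * K / 2 ≤ Real.exp 1 * N := by
      have := Real.exp_one_gt_d9
      norm_num at hpi2
      nlinarith
    have h6 : Real.log (Real.exp 1 * N) = Real.log N + 1 := by
      rw [Real.log_mul (by positivity) hN'.ne', Real.log_exp]; ring
    rw [← h6]
    exact Real.log_le_log (by positivity) h5
  have h5 : 2 / (Real.pi * K) * Real.log (1 + Real.pi * K / 2) + 1 / K ≤
      1 / K * (2 / Real.pi * Real.log N + 2) := by
    have h6 : 2 / (Real.pi * K) * Real.log (1 + Real.pi * K / 2) ≤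
        2 / (Real.pi * K) * (Real.log N + 1) := mul_le_mul_of_nonneg_left h4 (by positivity)
    have h7 : 2 / (Real.pi * K) * (Real.log N + 1) + 1 / K =
        1 / K * (2 / Real.pi * Real.log N + (2 / Real.pi + 1)) := by
      field_simp
      ring
    have h8 : 2 / Real.pi ≤ 1 := by rw [div_le_one (by positivity)]; linarith
    have h9 : 1 / K * (2 / Real.pi * Real.log N + (2 / Real.pi + 1)) ≤
        1 / K * (2 / Real.pi * Real.log N + 2) := by
      apply mul_le_mul_of_nonneg_left _ (by positivity)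
      linarith
    linarith
  have h6 := mul_le_mul_of_nonneg_left (h3.trans h5) hN'.le
  refine h6.trans (le_of_eq ?_)
  rw [hK]
  field_simp

include hα

lemma edge_integrable (x : ℝ × ℝ) : Integrable (fun y => edgeProb ζ 1 N x y) (pointLaw ζ α N) := by
  have := point_prob hζ hα hN
  refine Integrable.of_bound (edge_meas_right ζ 1 N x).aestronglyMeasurable 1
    (Eventually.of_forall fun y => ?_)
  rw [Real.norm_eq_abs, abs_le]
  constructor <;> linarith [edgeProb_pos ζ 1 N x y, edgeProb_le_one ζ 1 N x y]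

lemma qf_unit (x : ℝ × ℝ) : qf ζ α N (fun _ : Unit => x) =
    ∫ y, edgeProb ζ 1 N x y ∂(pointLaw ζ α N) := by
  unfold qf
  refine integral_congr_ae (Eventually.of_forall fun y => ?_)
  simp

lemma q_upper1 {B : ℝ} (hB1 : 1 ≤ B) (hBN : B < N) (hη : 0 < eta ζ α) (x : ℝ × ℝ)
    (hx : x.1 ∈ Icc 0 (discRadius ζ N)) (hxB : wt ζ N x.1 ≤ B) :
    N * qf ζ α N (fun _ : Unit => x) ≤ wt ζ N x.1 *
      (1 / (1 - B / N) * (2 / Real.pi * Real.log N + 2) * Ew ζ α N +
        6 * Real.log N * (B ^ eta ζ α)⁻¹ * ∫ r, wt ζ N r ^ (1 + eta ζ α) ∂(radiusLaw ζ α N)) := by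
  have := rad_prob hζ hα hN
  have hN1 : 1 ≤ N := by omega
  have hN' : (0 : ℝ) < N := by exact_mod_cast hN1
  have hL : 0 ≤ Real.log N := Real.log_nonneg (by exact_mod_cast hN1)
  have hpi := Real.pi_pos
  have hB0 : 0 < B := by linarith
  set ρ0 := 1 - B / N with hρ0def
  have hBN' : B / N < 1 := by rw [div_lt_one hN']; exact hBN
  have hBN0 : 0 < B / N := by positivity
  have hρ0 : 0 < ρ0 := by rw [hρ0def]; linarith
  have hρ1 : ρ0 ≤ 1 := by rw [hρ0def]; linarith
  have hexp : ∀ s, s ∈ Icc 0 (discRadius ζ N) → wt ζ N s ≤ B →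
      Real.exp (-(2 * (ζ * s))) ≤ B / N := by
    intro s hs hsB
    have h1 : Real.exp (-(ζ * s / 2)) ≤ B / N := by
      rw [le_div_iff₀ hN']
      unfold wt at hsB
      linarith
    refine le_trans (Real.exp_le_exp.2 ?_) h1
    have : 0 ≤ ζ * s := mul_nonneg hζ.le hs.1
    linarith
  have hx1 := one_le_wt hζ hN1 hx.2
  set η := eta ζ α with hηdef
  have hpt : ∀ s, s ∈ Icc 0 (discRadius ζ N) →
      N * ∫ θ, edgeProb ζ 1 N x (s, θ) ∂angleLaw ≤
        wt ζ N x.1 * (1 / ρ0 * (2 / Real.pi * Real.log N + 2) * wt ζ N s +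
          6 * Real.log N * (B ^ η)⁻¹ * wt ζ N s ^ (1 + η)) := by
    intro s hs
    have hs1 := one_le_wt hζ hN1 hs.2
    have hs0 : 0 < wt ζ N s := by linarith
    have hsymm : ∀ θ, edgeProb ζ 1 N x (s, θ) = edgeProb ζ 1 N (s, θ) (x.1, x.2) := fun θ =>
      edgeProb_symm ζ 1 N _ _
    simp only [hsymm]
    by_cases hsB : wt ζ N s ≤ B
    · have h1 := edge_angle_sharp hζ hN s x.1 x.2 hs hx hρ0 hρ1 (by
        apply Real.le_sqrt_of_sq_le
        have e1 := hexp s hs hsB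
        have e2 := hexp x.1 hx hxB
        rw [sq]
        apply mul_le_mul _ _ hρ0.le _
        · rw [hρ0def]; linarith
        · rw [hρ0def]; linarith
        · linarith)
      refine h1.trans ?_
      have h2 : 0 ≤ 6 * Real.log N * (B ^ η)⁻¹ * wt ζ N s ^ (1 + η) := by positivity
      have h3 : wt ζ N s * wt ζ N x.1 / ρ0 * (2 / Real.pi * Real.log N + 2) =
          wt ζ N x.1 * (1 / ρ0 * (2 / Real.pi * Real.log N + 2) * wt ζ N s) := by ring
      rw [h3]
      apply mul_le_mul_of_nonneg_left _ (by positivity)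
      linarith
    · push Not at hsB
      have h1 := edge_angle hζ hN s x.1 x.2 hs hx
      have h2 : (N : ℝ) * ∫ θ, edgeProb ζ 1 N (s, θ) (x.1, x.2) ∂angleLaw ≤
          6 * Real.log N * wt ζ N s * wt ζ N x.1 := by
        have := mul_le_mul_of_nonneg_left h1 hN'.le
        rwa [mul_div_cancel₀ _ hN'.ne'] at this
      refine h2.trans ?_
      have h3 : 1 ≤ (B ^ η)⁻¹ * wt ζ N s ^ η := by
        rw [← div_eq_inv_mul, one_le_div (by positivity)]
        exact Real.rpow_le_rpow hB0.le hsB.le hη.le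
      have h4 : wt ζ N s ^ (1 + η) = wt ζ N s * wt ζ N s ^ η := by
        rw [Real.rpow_add hs0, Real.rpow_one]
      rw [h4]
      have h5 : 0 ≤ 1 / ρ0 * (2 / Real.pi * Real.log N + 2) * wt ζ N s := by positivity
      have h6 : 6 * Real.log N * wt ζ N s ≤
          6 * Real.log N * (B ^ η)⁻¹ * (wt ζ N s * wt ζ N s ^ η) := by
        have e : 6 * Real.log N * (B ^ η)⁻¹ * (wt ζ N s * wt ζ N s ^ η) =
          6 * Real.log N * wt ζ N s * ((B ^ η)⁻¹ * wt ζ N s ^ η) := by ring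
        rw [e]
        exact le_mul_of_one_le_right (by positivity) h3
      calc 6 * Real.log N * wt ζ N s * wt ζ N x.1 = wt ζ N x.1 * (6 * Real.log N * wt ζ N s) := by
            ring
        _ ≤ _ := by
            apply mul_le_mul_of_nonneg_left _ (by positivity)
            linarith
  have hint := edge_integrable hζ hα hN x
  rw [qf_unit hζ hα hN]
  have hint2 := hint
  unfold pointLaw at hint2 ⊢
  rw [integral_prod _ hint2, ← integral_const_mul]
  have hi1 := rad_integrable hζ hα hN _ (wt_continuous ζ N)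
  have hi2 := rad_integrable hζ hα hN _ (wt_rpow_continuous hζ hα hN (1 + η))
  have h1 : ∫ s, N * ∫ θ, edgeProb ζ 1 N x (s, θ) ∂angleLaw ∂(radiusLaw ζ α N) ≤
      ∫ s, wt ζ N x.1 * (1 / ρ0 * (2 / Real.pi * Real.log N + 2) * wt ζ N s +
          6 * Real.log N * (B ^ η)⁻¹ * wt ζ N s ^ (1 + η)) ∂(radiusLaw ζ α N) := by
    refine integral_mono_ae (hint2.integral_prod_left.const_mul _)
      (((hi1.const_mul _).add (hi2.const_mul _)).const_mul _) ?_
    filter_upwards [rad_support hζ hα hN] with s hs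
    exact hpt s hs
  refine h1.trans (le_of_eq ?_)
  rw [integral_const_mul, integral_add (hi1.const_mul _) (hi2.const_mul _), integral_const_mul,
    integral_const_mul]
  rfl

end

/-- the upper bound for light vertices -/
lemma q_upper {ζ α : ℝ} (hζ : 0 < ζ) (hα : 0 < α) (h : ζ / 2 < α) (hc : cc ζ α < 1) :
    ∃ ε : ℝ, 0 < ε ∧ ε ≤ 1 ∧ ∀ᶠ N : ℕ in atTop, ∀ x : ℝ × ℝ, x.1 ∈ Icc 0 (discRadius ζ N) →
      wt ζ N x.1 ≤ 1 + ε →
      N * qf ζ α N (fun _ : Unit => x) ≤ (1 + cc ζ α) / 2 * Real.log N := by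
  have hη := eta_pos hζ h
  have hk := kap_pos hα h
  have hCm := Cm_pos hζ hα h
  have hpi := Real.pi_pos
  have hf : Tendsto (fun ε : ℝ => (1 + ε) * (2 / Real.pi * (1 + ε) * (kap ζ α + ε) + ε) + ε)
      (𝓝[>] 0) (𝓝 (cc ζ α)) := by
    have h1 : Continuous (fun ε : ℝ => (1 + ε) * (2 / Real.pi * (1 + ε) * (kap ζ α + ε) + ε) + ε) := by
      fun_prop
    have h2 := (h1.tendsto 0).mono_left (nhdsWithin_le_nhds (s := Ioi 0))
    have h3 : (1 + (0 : ℝ)) * (2 / Real.pi * (1 + 0) * (kap ζ α + 0) + 0) + 0 = cc ζ α := by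
      unfold cc; ring
    rw [h3] at h2
    exact h2
  have hlt : cc ζ α < (1 + cc ζ α) / 2 := by linarith
  have hle1 : ∀ᶠ ε : ℝ in 𝓝[>] 0, ε ≤ 1 :=
    nhdsWithin_le_nhds (ge_mem_nhds (show (0 : ℝ) < 1 by norm_num))
  obtain ⟨ε, ⟨hε2, hε1⟩, hε0⟩ := (((hf.eventually (gt_mem_nhds hlt)).and hle1).and
    (eventually_mem_nhdsWithin (a := (0 : ℝ)) (s := Ioi 0))).exists
  have hε0 : 0 < ε := hε0
  refine ⟨ε, hε0, hε1, ?_⟩
  obtain ⟨B, hB1, hB2⟩ : ∃ B : ℝ, 2 ≤ B ∧ 6 * (B ^ eta ζ α)⁻¹ * Cm ζ α ≤ ε := by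
    have h1 : Tendsto (fun B : ℝ => 6 * (B ^ eta ζ α)⁻¹ * Cm ζ α) atTop
        (𝓝 (6 * 0 * Cm ζ α)) :=
      (((tendsto_rpow_atTop hη).inv_tendsto_atTop).const_mul _).mul_const _
    rw [mul_zero, zero_mul] at h1
    obtain ⟨B, hB⟩ := ((h1.eventually (ge_mem_nhds hε0)).and (eventually_ge_atTop 2)).exists
    exact ⟨B, hB.2, hB.1⟩
  have h1 : Tendsto (fun N : ℕ => 1 / (1 - B / (N : ℝ))) atTop (𝓝 (1 / (1 - 0))) := by
    refine tendsto_const_nhds.div (tendsto_const_nhds.sub ?_) (by norm_num)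
    exact tendsto_natCast_atTop_atTop.const_div_atTop B
  rw [sub_zero, div_one] at h1
  have h2 : Tendsto (fun N : ℕ => ε * Real.log N) atTop atTop := log_tendsto.const_mul_atTop hε0
  filter_upwards [h1.eventually (ge_mem_nhds (show (1 : ℝ) < 1 + ε by linarith)),
    Ew_upper hζ hα h hε0, wt_moment hζ hα h,
    h2.eventually_ge_atTop (2 * (1 + ε) * ((1 + ε) * (kap ζ α + ε))),
    tendsto_natCast_atTop_atTop.eventually_gt_atTop B, eventually_ge_atTop 2]
    with N g1 g2 g3 g4 g5 g6 x hx hxw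
  have hN1 : 1 ≤ N := by omega
  have hN' : (0 : ℝ) < N := by exact_mod_cast hN1
  have hL : 0 ≤ Real.log N := Real.log_nonneg (by exact_mod_cast hN1)
  have hBN' : B / N < 1 := by rw [div_lt_one hN']; exact g5
  have hw1 := one_le_wt hζ hN1 hx.2
  have hE0 : 0 ≤ Ew ζ α N := integral_nonneg fun r => (wt_pos hζ (by omega) r).le
  refine (q_upper1 hζ hα g6 (by linarith) g5 hη x hx (by linarith)).trans ?_
  set M := ∫ r, wt ζ N r ^ (1 + eta ζ α) ∂(radiusLaw ζ α N)
  set L := Real.log N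
  have hρ : 0 ≤ 1 / (1 - B / (N : ℝ)) := by
    have : 0 < 1 - B / (N : ℝ) := by linarith
    positivity
  have e1 : 1 / (1 - B / (N : ℝ)) * (2 / Real.pi * L + 2) * Ew ζ α N ≤
      (1 + ε) * (2 / Real.pi * L + 2) * (kap ζ α + ε) := by
    apply mul_le_mul _ g2 hE0 (by positivity)
    exact mul_le_mul_of_nonneg_right g1 (by positivity)
  have e2 : 6 * L * (B ^ eta ζ α)⁻¹ * M ≤ L * ε := by
    have e3 : 6 * L * (B ^ eta ζ α)⁻¹ * M ≤ 6 * L * (B ^ eta ζ α)⁻¹ * Cm ζ α :=
      mul_le_mul_of_nonneg_left g3 (by positivity)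
    have e4 : 6 * L * (B ^ eta ζ α)⁻¹ * Cm ζ α = L * (6 * (B ^ eta ζ α)⁻¹ * Cm ζ α) := by ring
    rw [e4] at e3
    exact e3.trans (mul_le_mul_of_nonneg_left hB2 hL)
  have e5 : wt ζ N x.1 * (1 / (1 - B / (N : ℝ)) * (2 / Real.pi * L + 2) * Ew ζ α N +
      6 * L * (B ^ eta ζ α)⁻¹ * M) ≤
      (1 + ε) * ((1 + ε) * (2 / Real.pi * L + 2) * (kap ζ α + ε) + L * ε) := by
    apply mul_le_mul hxw (by linarith) _ (by positivity)
    have : 0 ≤ M := integral_nonneg fun r => Real.rpow_nonneg (wt_pos hζ hN1 r).le _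
    have hB0 : 0 < B := by linarith
    positivity
  refine e5.trans ?_
  have e6 : (1 + ε) * ((1 + ε) * (2 / Real.pi * L + 2) * (kap ζ α + ε) + L * ε) =
      ((1 + ε) * (2 / Real.pi * (1 + ε) * (kap ζ α + ε) + ε)) * L +
        2 * (1 + ε) * ((1 + ε) * (kap ζ α + ε)) := by ring
  rw [e6]
  have e7 : ((1 + ε) * (2 / Real.pi * (1 + ε) * (kap ζ α + ε) + ε) + ε) * L ≤
      (1 + cc ζ α) / 2 * L := mul_le_mul_of_nonneg_right hε2.le hL
  linarith

end

end Pool.Agent.Helper49.HRG
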