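import Pool.Agent.Helper49.HRG.SmallDet

open MeasureTheory Set Filter Topology
open scoped ENNReal

namespace Pool.Agent.Helper49.HRG

noncomputable section

lemma Hf_meas (N : ℕ) (δ : ℝ) : Measurable (Hf N δ) := by
  unfold Hf psi
  fun_prop

lemma Hf_pos (N : ℕ) (δ W : ℝ) : 0 < Hf N δ W := Real.exp_pos _

lemma psi_le_N {N : ℕ} (hN : 2 ≤ N) {δ W : ℝ} (hδ : 0 < δ) (hW : 1 ≤ W) :
    0 ≤ psi N δ W * (Real.log N - Real.log (psi N δ W)) := by
  have hL : 0 < Real.log N := Real.log_pos (by exact_mod_cast (by omega : 1 < N))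
  have h0 : 0 < psi N δ W := lt_min (by linarith) (Real.exp_pos _)
  apply mul_nonneg h0.le
  have h1 : Real.log (psi N δ W) ≤ (1 - δ / 2) * Real.log N := by
    rw [← Real.log_exp ((1 - δ / 2) * Real.log N)]
    exact Real.log_le_log h0 (min_le_right _ _)
  nlinarith

lemma Hf_le_one {N : ℕ} (hN : 2 ≤ N) {δ W : ℝ} (hδ : 0 < δ) (hW : 1 ≤ W) : Hf N δ W ≤ 1 := by
  unfold Hf
  apply Real.exp_le_one_iff.2
  have := psi_le_N hN hδ hW
  linarith

/-- choice functions -/
def tset {N : ℕ} (S D : Finset (Fin N)) (u : Fin N) : Finset (Fin N) :=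
  if u ∈ D then S \ D else {u}

lemma sum_choice {N : ℕ} (S D : Finset (Fin N)) (c : ℝ) (w : Fin N → ℝ) :
    ∑ g ∈ Fintype.piFinset (tset S D), ∏ u ∈ D, (c * w u * w (g u) / N) =
      ∏ u ∈ D, (c * w u * (∑ v ∈ S \ D, w v) / N) := by
  classical
  have h1 : ∀ g : Fin N → Fin N, ∏ u ∈ D, (c * w u * w (g u) / N) =
      ∏ u, (if u ∈ D then c * w u * w (g u) / N else 1) := by
    intro g
    rw [Finset.prod_ite_mem, Finset.univ_inter]
  have h2 : ∏ u ∈ D, (c * w u * (∑ v ∈ S \ D, w v) / N) =
      ∏ u, (∑ v ∈ tset S D u, if u ∈ D then c * w u * w v / N else 1) := by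
    have e := Finset.prod_ite_mem Finset.univ D (fun u => c * w u * (∑ v ∈ S \ D, w v) / N)
    rw [Finset.univ_inter] at e
    rw [← e]
    refine Finset.prod_congr rfl fun u _ => ?_
    unfold tset
    by_cases hu : u ∈ D
    · simp only [hu, if_true]
      rw [← Finset.sum_div, ← Finset.mul_sum]
    · simp [hu]
  rw [h2, Finset.prod_univ_sum]
  exact Finset.sum_congr rfl fun g _ => h1 g

section

variable {ζ α : ℝ} (hζ : 0 < ζ) (hα : 0 < α) {N : ℕ} (hN : 2 ≤ N)

include hζ hα hN

/-- exact form of the event probability after integrating out the outside -/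
lemma small_event_eq (S D : Finset (Fin N)) (hD : D ⊆ S) (g : Fin N → Fin N)
    (hg : ∀ u ∈ D, g u ∈ S ∧ g u ∉ D) :
    (muN ζ α N).real {ω | (∀ u ∈ D, (GG ζ N ω).Adj u (g u)) ∧ Iso (GG ζ N ω) S} =
      ∫ x, (∏ u ∈ D, edgeProb ζ 1 N (x u) (x (g u))) *
        (1 - qf ζ α N (fun i : S => x i)) ^ (N - S.card)
        ∂(Measure.pi fun _ : Fin N => pointLaw ζ α N) := by
  classical
  have := point_prob hζ hα hN
  have hc := conn ζ 1 N
  have h1 := iso_prob (pointLaw ζ α N) hc univ MeasurableSet.univ S D hD g hg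
  simp only [mem_univ, true_and, Measure.restrict_univ] at h1
  rw [h1]
  have hm : Measurable (fun w : (Fin N → ℝ × ℝ) × (ℝ × ℝ) =>
      ∏ u ∈ S, (1 - edgeProb ζ 1 N (w.1 u) w.2)) :=
    Finset.measurable_prod _ fun u _ => measurable_const.sub
      (hc.meas_comp ((measurable_pi_apply u).comp measurable_fst) measurable_snd)
  have hmF : Measurable (fun x : Fin N → ℝ × ℝ => ∏ u ∈ D, edgeProb ζ 1 N (x u) (x (g u))) :=
    Finset.measurable_prod _ fun u _ =>
      hc.meas_comp (measurable_pi_apply u) (measurable_pi_apply (g u))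
  have h2 := integral_split_full (pointLaw ζ α N) S
    (fun x => ∏ u ∈ D, edgeProb ζ 1 N (x u) (x (g u)))
    (fun _ x y => ∏ u ∈ S, (1 - edgeProb ζ 1 N (x u) y)) hmF (fun v => hm)
    (fun x y hxy => Finset.prod_congr rfl fun u hu => by
      rw [hxy u (hD hu), hxy (g u) (hg u hu).1])
    (fun v x y hxy => by
      funext z
      exact Finset.prod_congr rfl fun u hu => by rw [hxy u hu])
    1 (fun x => by
      rw [abs_of_nonneg (Finset.prod_nonneg fun u _ => hc.nonneg _ _)]
      exact Finset.prod_le_one (fun u _ => hc.nonneg _ _) fun u _ => hc.le_one _ _)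
    1 (fun v x y => by
      rw [abs_of_nonneg (Finset.prod_nonneg fun u _ => by linarith [hc.le_one (x u) y])]
      exact Finset.prod_le_one (fun u _ => by linarith [hc.le_one (x u) y])
        fun u _ => by linarith [hc.nonneg (x u) y])
  rw [h2]
  refine integral_congr_ae (Eventually.of_forall fun x => ?_)
  simp only
  congr 1
  rw [Finset.prod_const, Finset.card_compl, Fintype.card_fin]
  congr 1
  rw [← integral_prod_eq hζ hα hN (fun i : S => x i)]
  refine integral_congr_ae (Eventually.of_forall fun y => ?_)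
  simp only
  exact (Finset.prod_coe_sort S fun u => 1 - edgeProb ζ 1 N (x u) y).symm

end

/-- The key estimate for small sets. -/
lemma small_event_sum {ζ α : ℝ} (hζ : 0 < ζ) (hα : 0 < α) (h : ζ / 2 < α) (hc : 1 ≤ cc ζ α)
    {δ : ℝ} (hδ0 : 0 < δ) (hδ1 : δ < 1) : ∀ᶠ N : ℕ in atTop,
    ∀ (S D : Finset (Fin N)), D ⊆ S → 1 ≤ S.card → S.card ≤ 2 * D.card →
      (S.card : ℝ) ≤ Real.exp ((1 - δ) * Real.log N) →
      ∑ g ∈ Fintype.piFinset (tset S D),
        (muN ζ α N).real {ω | (∀ u ∈ D, (GG ζ N ω).Adj u (g u)) ∧ Iso (GG ζ N ω) S} ≤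
        beta N δ S.card := by
  have hexp : Tendsto (fun N : ℕ => Real.exp (-(δ * Real.log N))) atTop (𝓝 0) :=
    Real.tendsto_exp_neg_atTop_nhds_zero.comp (log_tendsto.const_mul_atTop hδ0)
  filter_upwards [small_det hδ0 hδ1, QL_multi hζ hα h (ε := 1 / 20) (δ := δ / 2) (by norm_num)
    (by positivity), hexp.eventually (ge_mem_nhds (show (0 : ℝ) < 1 / 20 by norm_num)),
    eventually_ge_atTop 2] with N hdet hQ hk20 hN S D hDS hS1 hSD hSk
  have hN1 : 1 ≤ N := by omega
  have hN' : (0 : ℝ) < N := by exact_mod_cast hN1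
  have hcn := conn ζ 1 N
  have hp := point_prob hζ hα hN
  have hr := rad_prob hζ hα hN
  have hL : 0 < Real.log N := Real.log_pos (by exact_mod_cast (by omega : 1 < N))
  set W : (Fin N → ℝ) → ℝ := fun r => ∑ v ∈ S, wt ζ N (r v) with hW
  have hWc : Measurable W := Finset.measurable_sum _ fun v _ =>
    (wt_continuous ζ N).measurable.comp (measurable_pi_apply v)
  have hk1 : (1 : ℝ) ≤ S.card := by exact_mod_cast hS1
  have hkN : (S.card : ℝ) ≤ 1 / 20 * N := by
    refine hSk.trans ?_
    have : Real.exp ((1 - δ) * Real.log N) = N * Real.exp (-(δ * Real.log N)) := by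
      rw [show (1 - δ) * Real.log N = Real.log N + -(δ * Real.log N) by ring, Real.exp_add,
        Real.exp_log hN']
    rw [this]
    nlinarith
  have hW1 : ∀ r : Fin N → ℝ, (∀ u, r u ∈ Icc 0 (discRadius ζ N)) → 1 ≤ W r := by
    intro r hr
    rw [hW]
    have := Finset.card_nsmul_le_sum S (fun v => wt ζ N (r v)) 1 fun u _ =>
      one_le_wt hζ hN1 (hr u).2
    simp only [nsmul_eq_mul, mul_one] at this
    exact hk1.trans this
  -- isolation bound
  have hiso : ∀ x : Fin N → ℝ × ℝ, (∀ u, (x u).1 ∈ Icc 0 (discRadius ζ N)) →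
      (1 - qf ζ α N (fun i : S => x i)) ^ (N - S.card) ≤ Hf N δ (W fun u => (x u).1) := by
    intro x hx
    set q := qf ζ α N (fun i : S => x i) with hq
    have hq0 : 0 ≤ q := qf_nonneg hζ hα hN _
    have hq1 : q ≤ 1 := qf_le_one hζ hα hN _
    set V := psi N δ (W fun u => (x u).1) with hV
    have hW1' := hW1 (fun u => (x u).1) hx
    have hV0 : 0 < V := lt_min (by linarith) (Real.exp_pos _)
    have h3 : QL ζ α N V ≤ q := by
      apply q_lower hζ hα hN (fun i : S => x i) (fun i => hx i) hV0
      refine (min_le_left _ _).trans (le_of_eq ?_)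
      rw [hW]
      exact (Finset.sum_coe_sort S fun u => wt ζ N (x u).1).symm
    have hVlog : Real.log V ≤ (1 - δ / 2) * Real.log N := by
      rw [← Real.log_exp ((1 - δ / 2) * Real.log N)]
      exact Real.log_le_log hV0 (min_le_right _ _)
    have h4 := hQ V hV0 hVlog
    have hD0 : 0 ≤ V * (Real.log N - Real.log V) := psi_le_N hN hδ0 hW1'
    have h5 : 19 / 20 * (V * (Real.log N - Real.log V)) ≤ N * q := by
      have e1 : N * QL ζ α N V ≤ N * q := mul_le_mul_of_nonneg_left h3 hN'.le
      have e2 : 19 / 20 * (V * (Real.log N - Real.log V)) ≤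
          (cc ζ α - 1 / 20) * V * (Real.log N - Real.log V) := by
        rw [mul_assoc]
        exact mul_le_mul_of_nonneg_right (by linarith) hD0
      linarith
    have h6 : (1 - q) ^ (N - S.card) ≤ Real.exp (-q) ^ (N - S.card) := by
      apply pow_le_pow_left₀ (by linarith)
      have := Real.add_one_le_exp (-q)
      linarith
    have hle : S.card ≤ N := by
      have := Finset.card_le_univ S
      simpa using this
    have h7 : Real.exp (-q) ^ (N - S.card) = Real.exp (-((N - S.card) * q)) := by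
      rw [← Real.exp_nat_mul]
      congr 1
      rw [Nat.cast_sub hle]
      ring
    rw [h7] at h6
    refine h6.trans ?_
    unfold Hf
    rw [← hV]
    apply Real.exp_le_exp.2
    have h8 : 19 / 20 * (N * q) ≤ (N - S.card) * q := by
      have : 19 / 20 * N ≤ N - (S.card : ℝ) := by linarith
      nlinarith
    nlinarith
  -- each term
  have hterm : ∀ g ∈ Fintype.piFinset (tset S D),
      (muN ζ α N).real {ω | (∀ u ∈ D, (GG ζ N ω).Adj u (g u)) ∧ Iso (GG ζ N ω) S} ≤
      ∫ r, (∏ u ∈ D, (6 * Real.log N * wt ζ N (r u) * wt ζ N (r (g u)) / N)) * Hf N δ (W r)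
        ∂(Measure.pi fun _ : Fin N => radiusLaw ζ α N) := by
    intro g hg
    have hg' : ∀ u ∈ D, g u ∈ S ∧ g u ∉ D := by
      intro u hu
      have := Fintype.mem_piFinset.1 hg u
      simp only [tset, hu, if_true, Finset.mem_sdiff] at this
      exact this
    rw [small_event_eq hζ hα hN S D hDS g hg']
    have hmF : Measurable (fun w : (Fin N → ℝ) × (Fin N → ℝ) =>
        ∏ u ∈ D, edgeProb ζ 1 N (w.1 u, w.2 u) (w.1 (g u), w.2 (g u))) :=
      Finset.measurable_prod _ fun u _ => hcn.meas_comp
        (((measurable_pi_apply u).comp measurable_fst).prodMk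
          ((measurable_pi_apply u).comp measurable_snd))
        (((measurable_pi_apply (g u)).comp measurable_fst).prodMk
          ((measurable_pi_apply (g u)).comp measurable_snd))
    have hmG : Measurable (Function.uncurry fun (r θ : Fin N → ℝ) =>
        (∏ u ∈ D, edgeProb ζ 1 N (r u, θ u) (r (g u), θ (g u))) * Hf N δ (W r)) :=
      hmF.mul ((Hf_meas N δ).comp (hWc.comp measurable_fst))
    have hprod01 : ∀ r θ : Fin N → ℝ,
        ∏ u ∈ D, edgeProb ζ 1 N (r u, θ u) (r (g u), θ (g u)) ∈ Icc (0 : ℝ) 1 := fun r θ =>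
      ⟨Finset.prod_nonneg fun u _ => hcn.nonneg _ _,
        Finset.prod_le_one (fun u _ => hcn.nonneg _ _) fun u _ => hcn.le_one _ _⟩
    have hbd : ∀ᵐ x ∂(Measure.pi fun _ : Fin N => pointLaw ζ α N),
        |(∏ u ∈ D, edgeProb ζ 1 N ((x u).1, (x u).2) ((x (g u)).1, (x (g u)).2)) *
          Hf N δ (W fun u => (x u).1)| ≤ 1 := by
      filter_upwards [pi_support hζ hα hN] with x hx
      have h01 := hprod01 (fun u => (x u).1) (fun u => (x u).2)
      have hH := Hf_le_one hN hδ0 (hW1 (fun u => (x u).1) hx)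
      rw [abs_of_nonneg (mul_nonneg h01.1 (Hf_pos _ _ _).le)]
      exact mul_le_one₀ h01.2 (Hf_pos _ _ _).le hH
    have hfub := pi_fubini hζ hα hN (fun r θ =>
        (∏ u ∈ D, edgeProb ζ 1 N (r u, θ u) (r (g u), θ (g u))) * Hf N δ (W r)) hmG 1 hbd
    have hstep1 : ∫ x, (∏ u ∈ D, edgeProb ζ 1 N (x u) (x (g u))) *
        (1 - qf ζ α N (fun i : S => x i)) ^ (N - S.card)
        ∂(Measure.pi fun _ : Fin N => pointLaw ζ α N) ≤
        ∫ x, (∏ u ∈ D, edgeProb ζ 1 N ((x u).1, (x u).2) ((x (g u)).1, (x (g u)).2)) *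
          Hf N δ (W fun u => (x u).1) ∂(Measure.pi fun _ : Fin N => pointLaw ζ α N) := by
      refine integral_mono_of_nonneg ?_ ?_ ?_
      · filter_upwards with x
        simp only [Pi.zero_apply]
        refine mul_nonneg (Finset.prod_nonneg fun u _ => hcn.nonneg _ _) (pow_nonneg ?_ _)
        linarith [qf_le_one hζ hα hN (fun i : S => x i)]
      · refine Integrable.of_bound (C := 1) ?_ ?_
        · have e := hmG.comp (f := fun x : Fin N → ℝ × ℝ =>
            ((fun u => (x u).1 : Fin N → ℝ), (fun u => (x u).2 : Fin N → ℝ))) (by fun_prop)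
          exact e.aestronglyMeasurable
        · filter_upwards [hbd] with x hx
          rw [Real.norm_eq_abs]
          exact hx
      · filter_upwards [pi_support hζ hα hN] with x hx
        exact mul_le_mul_of_nonneg_left (hiso x hx)
          (Finset.prod_nonneg fun u _ => hcn.nonneg _ _)
    refine hstep1.trans ?_
    rw [hfub]
    refine integral_mono_of_nonneg ?_ ?_ ?_
    · filter_upwards with r
      simp only [Pi.zero_apply]
      exact integral_nonneg fun θ => mul_nonneg (hprod01 r θ).1 (Hf_pos _ _ _).le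
    · obtain ⟨CC, hCC⟩ : ∃ CC : ℝ, ∀ r : Fin N → ℝ, (∀ u, r u ∈ Icc 0 (discRadius ζ N)) →
          |(∏ u ∈ D, (6 * Real.log N * wt ζ N (r u) * wt ζ N (r (g u)) / N)) * Hf N δ (W r)|
            ≤ CC := by
        refine ⟨∏ u ∈ D, (6 * Real.log N * N * N / N), fun r hr => ?_⟩
        have h0 : ∀ u ∈ D, 0 ≤ 6 * Real.log N * wt ζ N (r u) * wt ζ N (r (g u)) / N := by
          intro u _
          have := wt_pos hζ hN1 (r u)
          have := wt_pos hζ hN1 (r (g u))
          positivity
        rw [abs_of_nonneg (mul_nonneg (Finset.prod_nonneg h0) (Hf_pos _ _ _).le)]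
        refine (mul_le_of_le_one_right (Finset.prod_nonneg h0)
          (Hf_le_one hN hδ0 (hW1 r hr))).trans (Finset.prod_le_prod h0 fun u _ => ?_)
        have e1 := wt_pos hζ hN1 (r u)
        have e2 := wt_pos hζ hN1 (r (g u))
        have e3 := wt_le hζ (N := N) (hr u).1
        have e4 := wt_le hζ (N := N) (hr (g u)).1
        apply div_le_div_of_nonneg_right _ hN'.le
        apply mul_le_mul (mul_le_mul_of_nonneg_left e3 (by positivity)) e4 e2.le (by positivity)
      refine Integrable.of_bound (C := CC) ?_ ?_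
      · have e : Measurable (fun r : Fin N → ℝ =>
            (∏ u ∈ D, (6 * Real.log N * wt ζ N (r u) * wt ζ N (r (g u)) / N)) * Hf N δ (W r)) := by
          refine Measurable.mul (Finset.measurable_prod _ fun u _ => ?_) ((Hf_meas N δ).comp hWc)
          have e1 := (wt_continuous ζ N).measurable.comp (measurable_pi_apply (X := fun _ => ℝ) u)
          have e2 := (wt_continuous ζ N).measurable.comp
            (measurable_pi_apply (X := fun _ => ℝ) (g u))
          exact ((measurable_const.mul e1).mul e2).div_const _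
        exact e.aestronglyMeasurable
      · filter_upwards [pi_rad_support hζ hα hN] with r hr
        rw [Real.norm_eq_abs]
        exact hCC r hr
    · filter_upwards [pi_rad_support hζ hα hN] with r hr
      rw [integral_mul_const]
      exact mul_le_mul_of_nonneg_right (angles_prod hζ hN r hr D g fun u hu => (hg' u hu).2)
        (Hf_pos _ _ _).le
  refine (Finset.sum_le_sum hterm).trans ?_
  -- integrability of each term
  have hint : ∀ g ∈ Fintype.piFinset (tset S D), Integrable (fun r : Fin N → ℝ =>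
      (∏ u ∈ D, (6 * Real.log N * wt ζ N (r u) * wt ζ N (r (g u)) / N)) * Hf N δ (W r))
      (Measure.pi fun _ : Fin N => radiusLaw ζ α N) := by
    intro g _
    refine Integrable.of_bound (C := ∏ u ∈ D, (6 * Real.log N * N * N / N)) ?_ ?_
    · have e : Measurable (fun r : Fin N → ℝ =>
          (∏ u ∈ D, (6 * Real.log N * wt ζ N (r u) * wt ζ N (r (g u)) / N)) * Hf N δ (W r)) := by
        refine Measurable.mul (Finset.measurable_prod _ fun u _ => ?_) ((Hf_meas N δ).comp hWc)
        have e1 := (wt_continuous ζ N).measurable.comp (measurable_pi_apply (X := fun _ => ℝ) u)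
        have e2 := (wt_continuous ζ N).measurable.comp
          (measurable_pi_apply (X := fun _ => ℝ) (g u))
        exact ((measurable_const.mul e1).mul e2).div_const _
      exact e.aestronglyMeasurable
    · filter_upwards [pi_rad_support hζ hα hN] with r hr
      have h0 : ∀ u ∈ D, 0 ≤ 6 * Real.log N * wt ζ N (r u) * wt ζ N (r (g u)) / N := by
        intro u _
        have := wt_pos hζ hN1 (r u)
        have := wt_pos hζ hN1 (r (g u))
        positivity
      rw [Real.norm_of_nonneg (mul_nonneg (Finset.prod_nonneg h0) (Hf_pos _ _ _).le)]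
      refine (mul_le_of_le_one_right (Finset.prod_nonneg h0)
        (Hf_le_one hN hδ0 (hW1 r hr))).trans (Finset.prod_le_prod h0 fun u _ => ?_)
      have e1 := wt_pos hζ hN1 (r u)
      have e2 := wt_pos hζ hN1 (r (g u))
      have e3 := wt_le hζ (N := N) (hr u).1
      have e4 := wt_le hζ (N := N) (hr (g u)).1
      apply div_le_div_of_nonneg_right _ hN'.le
      apply mul_le_mul (mul_le_mul_of_nonneg_left e3 (by positivity)) e4 e2.le (by positivity)
  rw [← integral_finsetSum _ hint]
  have hfinal : ∀ᵐ r ∂(Measure.pi fun _ : Fin N => radiusLaw ζ α N),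
      ∑ g ∈ Fintype.piFinset (tset S D),
        (∏ u ∈ D, (6 * Real.log N * wt ζ N (r u) * wt ζ N (r (g u)) / N)) * Hf N δ (W r) ≤
        beta N δ S.card := by
    filter_upwards [pi_rad_support hζ hα hN] with r hr
    rw [← Finset.sum_mul, sum_choice S D (6 * Real.log N) (fun u => wt ζ N (r u))]
    refine le_trans ?_ (hdet S D (fun u => wt ζ N (r u)) hDS hS1 hSD hSk fun u =>
      ⟨one_le_wt hζ hN1 (hr u).2, wt_le hζ (hr u).1⟩)
    apply mul_le_mul_of_nonneg_right _ (Hf_pos _ _ _).le
    have hsum0 : 0 ≤ ∑ v ∈ S \ D, wt ζ N (r v) :=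
      Finset.sum_nonneg fun v _ => (wt_pos hζ hN1 (r v)).le
    refine Finset.prod_le_prod (fun u _ => ?_) fun u _ => ?_
    · have := wt_pos hζ hN1 (r u)
      positivity
    · have := wt_pos hζ hN1 (r u)
      apply div_le_div_of_nonneg_right _ hN'.le
      apply mul_le_mul_of_nonneg_left _ (by positivity)
      exact Finset.sum_le_sum_of_subset_of_nonneg Finset.sdiff_subset
        fun v _ _ => (wt_pos hζ hN1 (r v)).le
  calc _ ≤ ∫ _r : Fin N → ℝ, beta N δ S.card ∂(Measure.pi fun _ : Fin N => radiusLaw ζ α N) :=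
        integral_mono_ae (integrable_finsetSum _ hint) (integrable_const _) hfinal
    _ = _ := by simp

end

end Pool.Agent.Helper49.HRG
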