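import Pool.Agent.Helper49.HRG.SmallProb

open MeasureTheory Set Filter Topology
open scoped ENNReal

namespace Pool.Agent.Helper49.HRG

noncomputable section

/-- capped total weight -/
def psi (N : ℕ) (δ W : ℝ) : ℝ := min W (Real.exp ((1 - δ / 2) * Real.log N))

/-- bound for the isolation probability -/
def Hf (N : ℕ) (δ W : ℝ) : ℝ :=
  Real.exp (-(9 / 10 * (psi N δ W * (Real.log N - Real.log (psi N δ W)))))

/-- target bound -/
def beta (N : ℕ) (δ k : ℝ) : ℝ :=
  Real.exp (k * (Real.log k - 1 - Real.log 2 - Real.log N - 3 / 10 * δ * Real.log N))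

lemma small_det {δ : ℝ} (hδ0 : 0 < δ) (hδ1 : δ < 1) : ∀ᶠ N : ℕ in atTop,
    ∀ (S D : Finset (Fin N)) (w : Fin N → ℝ), D ⊆ S → 1 ≤ S.card → S.card ≤ 2 * D.card →
      (S.card : ℝ) ≤ Real.exp ((1 - δ) * Real.log N) → (∀ u, 1 ≤ w u ∧ w u ≤ N) →
      (∏ u ∈ D, (6 * Real.log N * w u * (∑ v ∈ S, w v) / N)) * Hf N δ (∑ v ∈ S, w v) ≤
        beta N δ S.card := by
  have hloglog : Tendsto (fun N : ℕ => Real.log (6 * Real.log N) - 1 / 10 * δ * Real.log N)
      atTop atBot := by
    have h1 : Tendsto (fun x : ℝ => Real.log (6 * x) - 1 / 10 * δ * x) atTop atBot := by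
      have h2 : (fun x : ℝ => Real.log x) =o[atTop] (fun x : ℝ => x) := Real.isLittleO_log_id_atTop
      have h3 : Tendsto (fun x : ℝ => x * (Real.log x / x)) atTop atTop := by
        refine Real.tendsto_log_atTop.congr' ?_
        filter_upwards [eventually_gt_atTop 0] with x hx
        field_simp
      have h4 : Tendsto (fun x : ℝ => Real.log x / x) atTop (𝓝 0) := h2.tendsto_div_nhds_zero
      have h5 : Tendsto (fun x : ℝ => x * (1 / 10 * δ - Real.log x / x) - Real.log 6) atTop
          atTop := by
        have h6 : Tendsto (fun x : ℝ => 1 / 10 * δ - Real.log x / x) atTop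
          (𝓝 (1 / 10 * δ - 0)) := tendsto_const_nhds.sub h4
        rw [sub_zero] at h6
        have h7 := (tendsto_id.atTop_mul_pos (by positivity : 0 < 1 / 10 * δ) h6)
        exact tendsto_atTop_add_const_right _ _ h7
      have h8 := tendsto_neg_atTop_atBot.comp h5
      refine h8.congr' ?_
      filter_upwards [eventually_gt_atTop 0] with x hx
      simp only [Function.comp]
      rw [Real.log_mul (by norm_num) hx.ne']
      field_simp
      ring
    exact h1.comp log_tendsto
  have hexp : Tendsto (fun N : ℕ => 6 * Real.exp (-(δ / 2 * Real.log N))) atTop (𝓝 (6 * 0)) := by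
    refine Tendsto.const_mul _ ?_
    exact Real.tendsto_exp_neg_atTop_nhds_zero.comp (log_tendsto.const_mul_atTop (by positivity))
  rw [mul_zero] at hexp
  filter_upwards [hloglog.eventually_le_atBot (-4),
    hexp.eventually (ge_mem_nhds (show (0 : ℝ) < 9 / 20 * δ by positivity)),
    (log_tendsto.const_mul_atTop (show (0 : ℝ) < δ / 2 by positivity)).eventually_ge_atTop 4,
    eventually_ge_atTop 2]
    with N h1 h2 h3 hN2 S D w hDS hS1 hSD hSk hw
  have hN1 : 1 ≤ N := by omega
  have hN' : (0 : ℝ) < N := by exact_mod_cast hN1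
  set L := Real.log N with hL
  have hL0 : 4 ≤ L := by nlinarith
  have hδL : 0 ≤ δ * L := mul_nonneg hδ0.le (by linarith)
  have hδL1 : δ * L ≤ L := mul_le_of_le_one_left (by linarith) hδ1.le
  set k : ℝ := (S.card : ℝ) with hk
  have hk1 : 1 ≤ k := by rw [hk]; exact_mod_cast hS1
  have hk0 : 0 < k := by linarith
  set m : ℝ := (D.card : ℝ) with hm
  have hmk : m ≤ k := by rw [hm, hk]; exact_mod_cast Finset.card_le_card hDS
  have hmk2 : k ≤ 2 * m := by rw [hm, hk]; exact_mod_cast hSD
  have hm0 : 0 ≤ m := by positivity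
  set W := ∑ v ∈ S, w v with hW
  have hkW : k ≤ W := by
    rw [hk, hW]
    have := Finset.card_nsmul_le_sum S w 1 fun u _ => (hw u).1
    simpa using this
  have hWk : W ≤ k * N := by
    rw [hk, hW]
    have := Finset.sum_le_card_nsmul S w N fun u _ => (hw u).2
    simpa using this
  have hW0 : 0 < W := by linarith
  have hlogk : Real.log k ≤ (1 - δ) * L := by
    rw [← Real.log_exp ((1 - δ) * L)]
    exact Real.log_le_log hk0 hSk
  have hlogk0 : 0 ≤ Real.log k := Real.log_nonneg hk1
  have hprod : ∏ u ∈ D, (6 * L * w u * W / N) =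
      Real.exp (m * (Real.log (6 * L) + Real.log W - L) + ∑ u ∈ D, Real.log (w u)) := by
    have e : ∀ u ∈ D, 6 * L * w u * W / N =
        Real.exp ((Real.log (6 * L) + Real.log W - L) + Real.log (w u)) := by
      intro u _
      have hwu : 0 < w u := by linarith [(hw u).1]
      have e1 : Real.log (6 * L) + Real.log W - L + Real.log (w u) =
          Real.log (6 * L * w u * W / N) := by
        rw [Real.log_div (by positivity) hN'.ne', Real.log_mul (by positivity) hW0.ne',
          Real.log_mul (by positivity) hwu.ne']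
        ring
      rw [e1, Real.exp_log (by positivity)]
    rw [Finset.prod_congr rfl e, ← Real.exp_sum, Finset.sum_add_distrib, Finset.sum_const,
      nsmul_eq_mul]
  have hlog2 : Real.log 2 ≤ 1 := by
    have := Real.log_two_lt_d9; linarith
  have hlog20 : 0 ≤ Real.log 2 := Real.log_nonneg (by norm_num)
  unfold Hf beta
  rw [hprod, ← Real.exp_add]
  apply Real.exp_le_exp.2
  rw [← hL]
  by_cases hcase : Real.log W ≤ (1 - δ / 2) * L
  · have hpsi : psi N δ W = W := by
      unfold psi
      apply min_eq_left
      rw [← hL, ← Real.exp_log hW0]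
      exact Real.exp_le_exp.2 hcase
    rw [hpsi]
    have e1 : ∑ u ∈ D, Real.log (w u) ≤ W - k := by
      calc ∑ u ∈ D, Real.log (w u) ≤ ∑ u ∈ S, Real.log (w u) :=
            Finset.sum_le_sum_of_subset_of_nonneg hDS fun u _ _ => Real.log_nonneg (hw u).1
        _ ≤ ∑ u ∈ S, (w u - 1) := Finset.sum_le_sum fun u _ =>
            Real.log_le_sub_one_of_pos (by linarith [(hw u).1])
        _ = W - k := by rw [Finset.sum_sub_distrib, Finset.sum_const, nsmul_eq_mul, mul_one]
    have e2 : Real.log W - Real.log k ≤ W / k - 1 := by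
      rw [← Real.log_div hW0.ne' hk0.ne']
      exact Real.log_le_sub_one_of_pos (by positivity)
    have e3 : k * (Real.log W - Real.log k) ≤ W - k := by
      have := mul_le_mul_of_nonneg_left e2 hk0.le
      have e : k * (W / k - 1) = W - k := by field_simp
      linarith
    set a := Real.log (6 * L) + Real.log k - L with ha
    have ha0 : a ≤ 0 := by
      rw [ha]; linarith
    have e4 : m * (Real.log (6 * L) + Real.log W - L) ≤ k / 2 * a + (W - k) := by
      have f1 : m * (Real.log (6 * L) + Real.log W - L) = m * a +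
          m * (Real.log W - Real.log k) := by rw [ha]; ring
      have f2 : m * a ≤ k / 2 * a := mul_le_mul_of_nonpos_right (by linarith) ha0
      have f3 : m * (Real.log W - Real.log k) ≤ W - k := by
        have : 0 ≤ Real.log W - Real.log k := by
          have := Real.log_le_log hk0 hkW
          linarith
        have g := mul_le_mul_of_nonneg_right hmk this
        linarith
      linarith
    have e5 : 4 ≤ L - Real.log W := by linarith
    have e6 : k * (L - Real.log k) + 3 * (W - k) ≤ W * (L - Real.log W) := by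
      have g : 0 ≤ (W - k) * (L - Real.log W - 4) := mul_nonneg (by linarith) (by linarith)
      linarith
    have e7 : δ * L ≤ L - Real.log k := by linarith
    have e8 : 0 ≤ W - k := by linarith
    have e9 : k / 2 * a = k * (1 / 2 * Real.log (6 * L) - 1 / 2 * (L - Real.log k)) := by
      rw [ha]; ring
    have e10 : k * (1 / 2 * Real.log (6 * L)) ≤ k * (1 / 10 * δ * L - 2) := by
      apply mul_le_mul_of_nonneg_left _ hk0.le
      linarith
    have e11 : k * (δ * L) ≤ k * (L - Real.log k) := mul_le_mul_of_nonneg_left e7 hk0.le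
    have e12 : k * (1 + Real.log 2) ≤ k * 2 := mul_le_mul_of_nonneg_left (by linarith) hk0.le
    linarith
  · push Not at hcase
    have hpsi : psi N δ W = Real.exp ((1 - δ / 2) * L) := by
      unfold psi
      apply min_eq_right
      rw [← hL]
      conv_rhs => rw [← Real.exp_log hW0]
      exact Real.exp_le_exp.2 hcase.le
    rw [hpsi, Real.log_exp]
    have e1 : ∑ u ∈ D, Real.log (w u) ≤ m * L := by
      rw [hm]
      have := Finset.sum_le_card_nsmul D (fun u => Real.log (w u)) L fun u _ =>
        Real.log_le_log (by linarith [(hw u).1]) (hw u).2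
      simpa using this
    have e2 : Real.log W ≤ Real.log k + L := by
      rw [hL, ← Real.log_mul hk0.ne' hN'.ne']
      exact Real.log_le_log hW0 hWk
    have e3 : Real.log (6 * L) ≤ 1 / 10 * δ * L := by linarith
    have e4 : m * (Real.log (6 * L) + Real.log W - L) + ∑ u ∈ D, Real.log (w u) ≤
        m * (3 * L) := by
      have f1 : Real.log (6 * L) + Real.log W - L ≤ 2 * L := by linarith
      have f2 := mul_le_mul_of_nonneg_left f1 hm0
      linarith
    have e5 : m * (3 * L) ≤ k * (3 * L) := by
      apply mul_le_mul_of_nonneg_right hmk; positivity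
    set P := Real.exp ((1 - δ / 2) * L) with hP
    have hP0 : 0 < P := Real.exp_pos _
    have e6 : 6 * k ≤ 9 / 20 * δ * P := by
      have f1 : k ≤ P * Real.exp (-(δ / 2 * L)) := by
        rw [hP, ← Real.exp_add]
        refine hSk.trans (Real.exp_le_exp.2 ?_)
        linarith
      have f2 := mul_le_mul_of_nonneg_left h2 hP0.le
      linarith
    have e7 : 6 * k * L ≤ 9 / 20 * δ * P * L := mul_le_mul_of_nonneg_right e6 (by linarith)
    have e8 : 0 ≤ k * Real.log k := by positivity
    have e9 : k * (1 + Real.log 2 + 3 / 10 * δ * L) ≤ k * (2 * L) := by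
      apply mul_le_mul_of_nonneg_left _ hk0.le
      linarith
    linarith

end

end Pool.Agent.Helper49.HRG
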