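import Pool.Agent.Helper49.HRG.IsoVert

open MeasureTheory Set Filter Topology
open scoped ENNReal

namespace Pool.Agent.Helper49.HRG

noncomputable section

section

variable {ζ α : ℝ} (hζ : 0 < ζ) (hα : 0 < α) {N : ℕ} (hN : 2 ≤ N)

include hζ hN

lemma edge_angle (r s θ0 : ℝ) (hr : r ∈ Icc 0 (discRadius ζ N)) (hs : s ∈ Icc 0 (discRadius ζ N)) :
    ∫ φ, edgeProb ζ 1 N (r, φ) (s, θ0) ∂angleLaw ≤
      6 * Real.log N * wt ζ N r * wt ζ N s / N := by
  have hN1 : 1 ≤ N := by omega
  have hN' : (0 : ℝ) < N := by exact_mod_cast hN1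
  have hN2 : (2 : ℝ) ≤ N := by exact_mod_cast hN
  have hw1 := one_le_wt hζ hN1 hr.2
  have hw2 := one_le_wt hζ hN1 hs.2
  set K := N / (wt ζ N r * wt ζ N s) with hK
  have hK0 : 0 < K := by positivity
  have h1 : ∀ φ, edgeProb ζ 1 N (r, φ) (s, θ0) ≤ 3 * (1 / (1 + K * sn φ θ0)) := by
    intro φ
    refine (edge_crude hζ hN1 (r, φ) (s, θ0) hr hs).trans (le_of_eq ?_)
    rw [hK]
    simp only
    ring
  have h2 : ∫ φ, edgeProb ζ 1 N (r, φ) (s, θ0) ∂angleLaw ≤
      ∫ φ, 3 * (1 / (1 + K * sn φ θ0)) ∂angleLaw := by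
    refine integral_mono_of_nonneg (Eventually.of_forall fun φ => (edgeProb_pos _ _ _ _ _).le)
      ?_ (Eventually.of_forall h1)
    refine Integrable.const_mul ?_ _
    refine Integrable.of_bound (C := 1) ?_ (Eventually.of_forall fun φ => ?_)
    · have hc : Continuous (fun φ => 1 / (1 + K * sn φ θ0)) := by
        refine continuous_const.div ?_ fun φ => ?_
        · unfold sn; fun_prop
        · have := sn_nonneg φ θ0
          positivity
      exact hc.aestronglyMeasurable
    · have := sn_nonneg φ θ0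
      rw [Real.norm_of_nonneg (by positivity), div_le_one (by positivity)]
      have : 0 ≤ K * sn φ θ0 := by positivity
      linarith
  refine h2.trans ?_
  rw [integral_const_mul]
  have h3 := angle_crude K hK0 θ0
  have h4 : Real.log (1 + K) ≤ 2 * Real.log N := by
    have h5 : 1 + K ≤ N ^ 2 := by
      have : K ≤ N := by
        rw [hK]
        apply div_le_self hN'.le
        nlinarith
      nlinarith
    calc Real.log (1 + K) ≤ Real.log (N ^ 2) := Real.log_le_log (by positivity) h5
      _ = 2 * Real.log N := by rw [Real.log_pow]; norm_num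
  calc 3 * ∫ φ, 1 / (1 + K * sn φ θ0) ∂angleLaw ≤ 3 * (1 / K * Real.log (1 + K)) := by
        apply mul_le_mul_of_nonneg_left h3 (by norm_num)
    _ ≤ 3 * (1 / K * (2 * Real.log N)) := by
        apply mul_le_mul_of_nonneg_left _ (by norm_num)
        exact mul_le_mul_of_nonneg_left h4 (by positivity)
    _ = _ := by
        rw [hK]
        field_simp
        ring

lemma angles_prod (r : Fin N → ℝ) (hr : ∀ u, r u ∈ Icc 0 (discRadius ζ N))
    (D : Finset (Fin N)) (g : Fin N → Fin N) (hg : ∀ u ∈ D, g u ∉ D) :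
    ∫ θ, ∏ u ∈ D, edgeProb ζ 1 N (r u, θ u) (r (g u), θ (g u))
        ∂(Measure.pi fun _ : Fin N => angleLaw) ≤
      ∏ u ∈ D, (6 * Real.log N * wt ζ N (r u) * wt ζ N (r (g u)) / N) := by
  classical
  have hc := conn ζ 1 N
  have hm : ∀ u : Fin N, Measurable (fun w : (Fin N → ℝ) × ℝ =>
      if g u ∈ D then (0 : ℝ) else edgeProb ζ 1 N (r u, w.2) (r (g u), w.1 (g u))) := by
    intro u
    split_ifs
    · exact measurable_const
    · exact hc.meas_comp (measurable_const.prodMk measurable_snd)
        (measurable_const.prodMk ((measurable_pi_apply (g u)).comp measurable_fst))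
  have h1 := integral_split_full angleLaw (Dᶜ) (fun _ => 1)
    (fun u θ φ => if g u ∈ D then (0 : ℝ) else edgeProb ζ 1 N (r u, φ) (r (g u), θ (g u)))
    measurable_const (fun u => hm u) (fun _ _ _ => rfl) (fun u x y hxy => by
      funext φ
      by_cases hgu : g u ∈ D
      · simp [hgu]
      · simp only [hgu, if_false]
        rw [hxy (g u) (by simpa using hgu)]) 1 (by simp) 1 (fun u x y => by
      split_ifs
      · simp
      · have h0 := hc.nonneg (r u, y) (r (g u), x (g u))
        have h1 := hc.le_one (r u, y) (r (g u), x (g u))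
        rw [abs_le]; constructor <;> linarith)
  simp only [one_mul, compl_compl] at h1
  have h2 : ∀ θ : Fin N → ℝ, ∏ u ∈ D, edgeProb ζ 1 N (r u, θ u) (r (g u), θ (g u)) =
      ∏ u ∈ D, (if g u ∈ D then (0 : ℝ) else edgeProb ζ 1 N (r u, θ u) (r (g u), θ (g u))) := by
    intro θ
    refine Finset.prod_congr rfl fun u hu => ?_
    rw [if_neg (hg u hu)]
  simp only [h2]
  rw [h1]
  have h3 : ∀ θ : Fin N → ℝ, ∏ u ∈ D, (∫ φ, (if g u ∈ D then (0 : ℝ) else
      edgeProb ζ 1 N (r u, φ) (r (g u), θ (g u))) ∂angleLaw) ≤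
      ∏ u ∈ D, (6 * Real.log N * wt ζ N (r u) * wt ζ N (r (g u)) / N) := by
    intro θ
    refine Finset.prod_le_prod (fun u hu => integral_nonneg fun φ => ?_) fun u hu => ?_
    · simp only [Pi.zero_apply]
      split_ifs
      · exact le_rfl
      · exact (edgeProb_pos _ _ _ _ _).le
    · simp only [hg u hu, if_false]
      exact edge_angle hζ hN (r u) (r (g u)) (θ (g u)) (hr u) (hr (g u))
  have h4 : (0 : ℝ) ≤ ∏ u ∈ D, (6 * Real.log N * wt ζ N (r u) * wt ζ N (r (g u)) / N) := by
    refine Finset.prod_nonneg fun u _ => ?_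
    have hL : 0 ≤ Real.log N := Real.log_nonneg (by exact_mod_cast (by omega : 1 ≤ N))
    have := wt_pos hζ (by omega : 1 ≤ N) (r u)
    have := wt_pos hζ (by omega : 1 ≤ N) (r (g u))
    positivity
  calc _ ≤ ∫ _θ : Fin N → ℝ, ∏ u ∈ D, (6 * Real.log N * wt ζ N (r u) * wt ζ N (r (g u)) / N)
        ∂(Measure.pi fun _ : Fin N => angleLaw) := by
        refine integral_mono_of_nonneg (Eventually.of_forall fun θ => ?_) (integrable_const _)
          (Eventually.of_forall h3)
        refine Finset.prod_nonneg fun u _ => integral_nonneg fun φ => ?_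
        simp only [Pi.zero_apply]
        split_ifs
        · exact le_rfl
        · exact (edgeProb_pos _ _ _ _ _).le
    _ = _ := by simp

include hα

lemma pi_support : ∀ᵐ x ∂(Measure.pi fun _ : Fin N => pointLaw ζ α N),
    ∀ u, (x u).1 ∈ Icc 0 (discRadius ζ N) := by
  have := point_prob hζ hα hN
  rw [ae_all_iff]
  intro u
  exact (measurePreserving_eval (fun _ : Fin N => pointLaw ζ α N) u).quasiMeasurePreserving.ae
    (point_support hζ hα hN)

lemma pi_rad_support : ∀ᵐ r ∂(Measure.pi fun _ : Fin N => radiusLaw ζ α N),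
    ∀ u, r u ∈ Icc 0 (discRadius ζ N) := by
  have := rad_prob hζ hα hN
  rw [ae_all_iff]
  intro u
  exact (measurePreserving_eval (fun _ : Fin N => radiusLaw ζ α N) u).quasiMeasurePreserving.ae
    (rad_support hζ hα hN)

lemma pi_fubini (G : (Fin N → ℝ) → (Fin N → ℝ) → ℝ) (hG : Measurable (Function.uncurry G))
    (C : ℝ) (hC : ∀ᵐ x ∂(Measure.pi fun _ : Fin N => pointLaw ζ α N),
      |G (fun u => (x u).1) (fun u => (x u).2)| ≤ C) :
    ∫ x, G (fun u => (x u).1) (fun u => (x u).2) ∂(Measure.pi fun _ : Fin N => pointLaw ζ α N) =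
      ∫ r, ∫ θ, G r θ ∂(Measure.pi fun _ : Fin N => angleLaw)
        ∂(Measure.pi fun _ : Fin N => radiusLaw ζ α N) := by
  have := rad_prob hζ hα hN
  have := point_prob hζ hα hN
  have hmp := measurePreserving_arrowProdEquivProdArrow ℝ ℝ (Fin N)
    (fun _ => radiusLaw ζ α N) (fun _ => angleLaw)
  set e := MeasurableEquiv.arrowProdEquivProdArrow ℝ ℝ (Fin N) with he
  have h1 : ∫ x, G (fun u => (x u).1) (fun u => (x u).2)
      ∂(Measure.pi fun _ : Fin N => pointLaw ζ α N) =
      ∫ w, Function.uncurry G w ∂((Measure.pi fun _ : Fin N => radiusLaw ζ α N).prod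
        (Measure.pi fun _ : Fin N => angleLaw)) := by
    rw [← hmp.integral_comp e.measurableEmbedding (Function.uncurry G)]
    rfl
  rw [h1, integral_prod]
  · rfl
  · rw [← hmp.integrable_comp_emb e.measurableEmbedding]
    refine Integrable.of_bound (hG.comp e.measurable).aestronglyMeasurable C ?_
    filter_upwards [hC] with x hx
    rw [Real.norm_eq_abs]
    exact hx

end

end

end Pool.Agent.Helper49.HRG
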