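import Pool.Agent.Helper49.HRG.Angle

open MeasureTheory Set Filter Topology
open scoped ENNReal

namespace Pool.Agent.Helper49.HRG

noncomputable section

lemma discRadius_pos {ζ : ℝ} (hζ : 0 < ζ) {N : ℕ} (hN : 2 ≤ N) : 0 < discRadius ζ N := by
  unfold discRadius
  have : 0 < Real.log N := Real.log_pos (by exact_mod_cast (by omega : 1 < N))
  positivity

section rad

variable {ζ α : ℝ} (hζ : 0 < ζ) (hα : 0 < α) {N : ℕ} (hN : 2 ≤ N)

include hζ hα hN

lemma den_pos : 0 < Real.cosh (α * discRadius ζ N) - 1 := by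
  have h := discRadius_pos hζ hN
  have : 1 < Real.cosh (α * discRadius ζ N) := Real.one_lt_cosh.2 (by positivity)
  linarith

lemma dens_nonneg {r : ℝ} (hr : 0 ≤ r) :
    0 ≤ α * Real.sinh (α * r) / (Real.cosh (α * discRadius ζ N) - 1) := by
  have h := den_pos hζ hα hN
  have : 0 ≤ Real.sinh (α * r) := Real.sinh_nonneg_iff.2 (by positivity)
  positivity

lemma rad_Icc {a : ℝ} (ha0 : 0 ≤ a) (ha : a ≤ discRadius ζ N) :
    radiusLaw ζ α N (Icc 0 a) =
      ENNReal.ofReal ((Real.cosh (α * a) - 1) / (Real.cosh (α * discRadius ζ N) - 1)) := by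
  have hD := den_pos hζ hα hN
  unfold radiusLaw
  rw [withDensity_apply _ measurableSet_Icc, Measure.restrict_restrict measurableSet_Icc]
  have h1 : Icc 0 a ∩ Icc 0 (discRadius ζ N) = Icc 0 a := by
    apply inter_eq_left.2
    exact Icc_subset_Icc_right ha
  rw [h1, ← ofReal_integral_eq_lintegral_ofReal]
  · rw [integral_Icc_eq_integral_Ioc, ← intervalIntegral.integral_of_le ha0]
    congr 1
    have h2 : ∀ r ∈ uIcc 0 a, HasDerivAt
        (fun r => Real.cosh (α * r) / (Real.cosh (α * discRadius ζ N) - 1))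
        (α * Real.sinh (α * r) / (Real.cosh (α * discRadius ζ N) - 1)) r := by
      intro r _
      have e1 : HasDerivAt (fun r => α * r) α r := by
        simpa using (hasDerivAt_id r).const_mul α
      have e2 := (e1.cosh).div_const (Real.cosh (α * discRadius ζ N) - 1)
      rw [mul_comm (Real.sinh (α * r)) α] at e2
      exact e2
    rw [intervalIntegral.integral_eq_sub_of_hasDerivAt h2]
    · simp only [mul_zero, Real.cosh_zero]
      ring
    · apply Continuous.intervalIntegrable
      fun_prop
  · apply Continuous.integrableOn_Icc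
    fun_prop
  · filter_upwards [ae_restrict_mem measurableSet_Icc] with r hr
    exact dens_nonneg hζ hα hN hr.1

lemma rad_prob : IsProbabilityMeasure (radiusLaw ζ α N) := by
  constructor
  have hR := discRadius_pos hζ hN
  have hD := den_pos hζ hα hN
  have h1 : radiusLaw ζ α N univ = radiusLaw ζ α N (Icc 0 (discRadius ζ N)) := by
    unfold radiusLaw
    rw [withDensity_apply _ MeasurableSet.univ, withDensity_apply _ measurableSet_Icc,
      Measure.restrict_univ, Measure.restrict_restrict measurableSet_Icc, inter_self]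
  rw [h1, rad_Icc hζ hα hN hR.le le_rfl, div_self hD.ne', ENNReal.ofReal_one]

lemma rad_support : ∀ᵐ r ∂(radiusLaw ζ α N), r ∈ Icc 0 (discRadius ζ N) := by
  unfold radiusLaw
  exact (withDensity_absolutelyContinuous _ _).ae_le (ae_restrict_mem measurableSet_Icc)

lemma rad_integral (f : ℝ → ℝ) :
    ∫ r, f r ∂(radiusLaw ζ α N) = ∫ r in (0 : ℝ)..(discRadius ζ N),
      f r * (α * Real.sinh (α * r) / (Real.cosh (α * discRadius ζ N) - 1)) := by
  have hR := discRadius_pos hζ hN
  unfold radiusLaw
  rw [integral_withDensity_eq_integral_toReal_smul, intervalIntegral.integral_of_le hR.le,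
    ← integral_Icc_eq_integral_Ioc]
  · refine setIntegral_congr_fun measurableSet_Icc fun r hr => ?_
    simp only [smul_eq_mul]
    rw [ENNReal.toReal_ofReal (dens_nonneg hζ hα hN hr.1), mul_comm]
  · exact (by fun_prop : Measurable fun r : ℝ =>
      α * Real.sinh (α * r) / (Real.cosh (α * discRadius ζ N) - 1)).ennreal_ofReal
  · exact Filter.Eventually.of_forall fun _ => ENNReal.ofReal_lt_top

/-- exponential moments of the distance to the boundary -/
lemma rad_moment {σ : ℝ} (hσ : 0 ≤ σ) (hσα : σ < α) :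
    ∫ r, Real.exp (σ * (discRadius ζ N - r)) ∂(radiusLaw ζ α N) =
      α / (2 * (Real.cosh (α * discRadius ζ N) - 1)) *
      ((Real.exp (α * discRadius ζ N) - Real.exp (σ * discRadius ζ N)) / (α - σ) -
        (Real.exp (σ * discRadius ζ N) - Real.exp (-(α * discRadius ζ N))) / (α + σ)) := by
  have hD := den_pos hζ hα hN
  set R := discRadius ζ N with hR
  have hs : 0 < α - σ := by linarith
  have hs' : 0 < α + σ := by linarith
  rw [rad_integral hζ hα hN]
  have h2 : ∀ r ∈ uIcc 0 R, HasDerivAt
      (fun r => α / (2 * (Real.cosh (α * R) - 1)) *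
        (Real.exp (σ * R + (α - σ) * r) / (α - σ) + Real.exp (σ * R - (α + σ) * r) / (α + σ)))
      (Real.exp (σ * (R - r)) * (α * Real.sinh (α * r) / (Real.cosh (α * R) - 1))) r := by
    intro r _
    have e1 : HasDerivAt (fun r => σ * R + (α - σ) * r) (α - σ) r := by
      simpa using ((hasDerivAt_id r).const_mul (α - σ)).const_add (σ * R)
    have e2 : HasDerivAt (fun r => σ * R - (α + σ) * r) (-(α + σ)) r := by
      simpa using ((hasDerivAt_id r).const_mul (α + σ)).const_sub (σ * R)
    have e3 := ((e1.exp.div_const (α - σ)).add (e2.exp.div_const (α + σ))).const_mul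
      (α / (2 * (Real.cosh (α * R) - 1)))
    have e4 : α / (2 * (Real.cosh (α * R) - 1)) *
        (Real.exp (σ * R + (α - σ) * r) * (α - σ) / (α - σ) +
          Real.exp (σ * R - (α + σ) * r) * -(α + σ) / (α + σ)) =
        Real.exp (σ * (R - r)) * (α * Real.sinh (α * r) / (Real.cosh (α * R) - 1)) := by
      rw [mul_div_cancel_right₀ _ hs.ne', mul_neg, neg_div, mul_div_cancel_right₀ _ hs'.ne',
        Real.sinh_eq, show σ * R + (α - σ) * r = σ * (R - r) + α * r by ring,
        show σ * R - (α + σ) * r = σ * (R - r) + -(α * r) by ring, Real.exp_add, Real.exp_add]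
      field_simp
      ring
    rw [e4] at e3
    exact e3
  rw [intervalIntegral.integral_eq_sub_of_hasDerivAt h2]
  · rw [show σ * R + (α - σ) * R = α * R by ring, show σ * R - (α + σ) * R = -(α * R) by ring]
    simp only [mul_zero, add_zero, sub_zero]
    rw [← mul_sub]
    congr 1
    ring
  · apply Continuous.intervalIntegrable
    fun_prop

lemma rad_moment_upper {σ : ℝ} (hσ : 0 ≤ σ) (hσα : σ < α)
    (h2 : 2 < Real.exp (α * discRadius ζ N)) :
    ∫ r, Real.exp (σ * (discRadius ζ N - r)) ∂(radiusLaw ζ α N) ≤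
      α / (α - σ) * (Real.exp (α * discRadius ζ N) / (Real.exp (α * discRadius ζ N) - 2)) := by
  have hD := den_pos hζ hα hN
  have hR0 := discRadius_pos hζ hN
  rw [rad_moment hζ hα hN hσ hσα]
  set R := discRadius ζ N with hR
  have hs : 0 < α - σ := by linarith
  have hs' : 0 < α + σ := by linarith
  have e0 : 2 * (Real.cosh (α * R) - 1) = Real.exp (α * R) + Real.exp (-(α * R)) - 2 := by
    rw [Real.cosh_eq]; ring
  have e1 : Real.exp (α * R) - 2 ≤ 2 * (Real.cosh (α * R) - 1) := by
    rw [e0]; have := Real.exp_pos (-(α * R)); linarith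
  have e2 : (Real.exp (α * R) - Real.exp (σ * R)) / (α - σ) -
        (Real.exp (σ * R) - Real.exp (-(α * R))) / (α + σ) ≤ Real.exp (α * R) / (α - σ) := by
    have h3 : 0 ≤ (Real.exp (σ * R) - Real.exp (-(α * R))) / (α + σ) := by
      apply div_nonneg _ hs'.le
      have : Real.exp (-(α * R)) ≤ Real.exp (σ * R) := Real.exp_le_exp.2 (by
        have := mul_nonneg hσ hR0.le
        have := mul_pos hα hR0
        linarith)
      linarith
    have h4 : (Real.exp (α * R) - Real.exp (σ * R)) / (α - σ) ≤ Real.exp (α * R) / (α - σ) := by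
      apply div_le_div_of_nonneg_right _ hs.le
      have := Real.exp_pos (σ * R)
      linarith
    linarith
  calc _ ≤ α / (2 * (Real.cosh (α * R) - 1)) * (Real.exp (α * R) / (α - σ)) :=
        mul_le_mul_of_nonneg_left e2 (by positivity)
    _ ≤ α / (Real.exp (α * R) - 2) * (Real.exp (α * R) / (α - σ)) := by
        apply mul_le_mul_of_nonneg_right _ (by positivity)
        apply div_le_div_of_nonneg_left hα.le (by linarith) e1
    _ = _ := by
        have : Real.exp (α * R) - 2 ≠ 0 := by linarith
        field_simp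

lemma rad_moment_lower {σ : ℝ} (hσ : 0 ≤ σ) (hσα : σ < α) :
    α / (α - σ) * (1 - 2 * Real.exp (-((α - σ) * discRadius ζ N))) ≤
    ∫ r, Real.exp (σ * (discRadius ζ N - r)) ∂(radiusLaw ζ α N) := by
  have hD := den_pos hζ hα hN
  have hR0 := discRadius_pos hζ hN
  by_cases hneg : 1 - 2 * Real.exp (-((α - σ) * discRadius ζ N)) ≤ 0
  · refine le_trans (mul_nonpos_of_nonneg_of_nonpos ?_ hneg) (integral_nonneg fun r => ?_)
    · apply div_nonneg hα.le; linarith
    · positivity
  push Not at hneg
  rw [rad_moment hζ hα hN hσ hσα]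
  set R := discRadius ζ N with hR
  have hs : 0 < α - σ := by linarith
  have hs' : 0 < α + σ := by linarith
  have e0 : 2 * (Real.cosh (α * R) - 1) = Real.exp (α * R) + Real.exp (-(α * R)) - 2 := by
    rw [Real.cosh_eq]; ring
  have e1 : 2 * (Real.cosh (α * R) - 1) ≤ Real.exp (α * R) := by
    rw [e0]
    have : Real.exp (-(α * R)) ≤ 1 := Real.exp_le_one_iff.2 (by
        have := mul_pos hα hR0
        linarith)
    linarith
  have e2 : (Real.exp (α * R) - 2 * Real.exp (σ * R)) / (α - σ) ≤
      (Real.exp (α * R) - Real.exp (σ * R)) / (α - σ) -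
        (Real.exp (σ * R) - Real.exp (-(α * R))) / (α + σ) := by
    have h3 : (Real.exp (σ * R) - Real.exp (-(α * R))) / (α + σ) ≤
        Real.exp (σ * R) / (α - σ) := by
      apply div_le_div₀ (Real.exp_pos _).le _ hs (by linarith)
      have := Real.exp_pos (-(α * R))
      linarith
    have h4 : (Real.exp (α * R) - 2 * Real.exp (σ * R)) / (α - σ) =
        (Real.exp (α * R) - Real.exp (σ * R)) / (α - σ) - Real.exp (σ * R) / (α - σ) := by ring
    rw [h4]
    linarith
  have e3 : Real.exp (α * R) - 2 * Real.exp (σ * R) =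
      Real.exp (α * R) * (1 - 2 * Real.exp (-((α - σ) * R))) := by
    have : Real.exp (σ * R) = Real.exp (α * R) * Real.exp (-((α - σ) * R)) := by
      rw [← Real.exp_add]; congr 1; ring
    rw [this]; ring
  have e4 : 0 ≤ (Real.exp (α * R) - 2 * Real.exp (σ * R)) / (α - σ) := by
    rw [e3]; positivity
  calc α / (α - σ) * (1 - 2 * Real.exp (-((α - σ) * R)))
      = α / Real.exp (α * R) * ((Real.exp (α * R) - 2 * Real.exp (σ * R)) / (α - σ)) := by
        rw [e3]; field_simp
    _ ≤ α / (2 * (Real.cosh (α * R) - 1)) *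
        ((Real.exp (α * R) - 2 * Real.exp (σ * R)) / (α - σ)) := by
        apply mul_le_mul_of_nonneg_right _ e4
        exact div_le_div_of_nonneg_left hα.le (by positivity) e1
    _ ≤ _ := mul_le_mul_of_nonneg_left e2 (by positivity)

end rad

lemma discRadius_tendsto {ζ : ℝ} (hζ : 0 < ζ) : Tendsto (fun N : ℕ => discRadius ζ N) atTop atTop := by
  unfold discRadius
  have h1 : Tendsto (fun N : ℕ => Real.log N) atTop atTop :=
    Real.tendsto_log_atTop.comp tendsto_natCast_atTop_atTop
  exact (h1.const_mul_atTop (by norm_num : (0 : ℝ) < 2)).atTop_div_const hζ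

end

end Pool.Agent.Helper49.HRG
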