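import Pool.Agent.Helper49.HRG.Weight

open MeasureTheory Set Filter Topology
open scoped ENNReal

namespace Pool.Agent.Helper49.HRG

noncomputable section

variable {ζ α : ℝ}

/-- limiting mean weight -/
def kap (ζ α : ℝ) : ℝ := α / (α - ζ / 2)

/-- mean weight -/
def Ew (ζ α : ℝ) (N : ℕ) : ℝ := ∫ r, wt ζ N r ∂(radiusLaw ζ α N)

lemma kap_pos (hα : 0 < α) (h : ζ / 2 < α) : 0 < kap ζ α := by
  unfold kap
  have : 0 < α - ζ / 2 := by linarith
  positivity

lemma wt_eq' (hζ : 0 < ζ) {N : ℕ} (hN : 1 ≤ N) (r : ℝ) :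
    wt ζ N r = Real.exp (ζ / 2 * (discRadius ζ N - r)) := by
  rw [wt_eq hζ hN]; congr 1; ring

lemma log_tendsto : Tendsto (fun N : ℕ => Real.log N) atTop atTop :=
    Real.tendsto_log_atTop.comp tendsto_natCast_atTop_atTop

lemma Ew_lower (hζ : 0 < ζ) (hα : 0 < α) (h : ζ / 2 < α) :
    ∀ᶠ N : ℕ in atTop, kap ζ α * Real.log N - 1 ≤ Ew ζ α N * Real.log N := by
  have hk := kap_pos hα h
  have hc : 0 < α - ζ / 2 := by linarith
  have hb : 0 < (α - ζ / 2) * 2 / ζ := by positivity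
  have h1 : Tendsto (fun x : ℝ => x ^ 1 * Real.exp (-((α - ζ / 2) * 2 / ζ * x))) atTop (𝓝 0) := by
    have h0 := Real.tendsto_pow_mul_exp_neg_atTop_nhds_zero 1
    have h2 : Tendsto (fun x : ℝ => (α - ζ / 2) * 2 / ζ * x) atTop atTop :=
      tendsto_id.const_mul_atTop hb
    have h3 := (h0.comp h2).const_mul (((α - ζ / 2) * 2 / ζ)⁻¹)
    rw [mul_zero] at h3
    refine h3.congr fun x => ?_
    simp only [Function.comp]
    rw [pow_one, pow_one, ← mul_assoc, inv_mul_cancel_left₀ hb.ne']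
  have h2 := (h1.comp log_tendsto).const_mul (2 * kap ζ α)
  rw [mul_zero] at h2
  filter_upwards [h2.eventually (ge_mem_nhds one_pos), eventually_ge_atTop 2] with N hN1 hN2
  have h3 := rad_moment_lower hζ hα hN2 (σ := ζ / 2) (by positivity) h
  have h4 : Ew ζ α N = ∫ r, Real.exp (ζ / 2 * (discRadius ζ N - r)) ∂(radiusLaw ζ α N) := by
    unfold Ew
    refine integral_congr_ae (Eventually.of_forall fun r => ?_)
    exact wt_eq' hζ (by omega) r
  rw [← h4] at h3
  have hL : 0 ≤ Real.log N := Real.log_nonneg (by exact_mod_cast (by omega : 1 ≤ N))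
  simp only [Function.comp] at hN1
  have h5 : (α - ζ / 2) * discRadius ζ N = (α - ζ / 2) * 2 / ζ * Real.log N := by
    unfold discRadius; field_simp
  rw [h5] at h3
  have h6 := mul_le_mul_of_nonneg_right h3 hL
  change kap ζ α * _ * _ ≤ _ at h6
  nlinarith

lemma exp_div_tendsto (hζ : 0 < ζ) (hα : 0 < α) :
    Tendsto (fun N : ℕ => Real.exp (α * discRadius ζ N) / (Real.exp (α * discRadius ζ N) - 2))
      atTop (𝓝 1) := by
  have h1 : Tendsto (fun N : ℕ => Real.exp (α * discRadius ζ N)) atTop atTop :=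
    Real.tendsto_exp_atTop.comp ((discRadius_tendsto hζ).const_mul_atTop hα)
  have h2 : Tendsto (fun N : ℕ => 2 / Real.exp (α * discRadius ζ N)) atTop (𝓝 0) :=
    h1.const_div_atTop 2
  have h3 : Tendsto (fun N : ℕ => 1 / (1 - 2 / Real.exp (α * discRadius ζ N))) atTop
      (𝓝 (1 / (1 - 0))) := by
    refine tendsto_const_nhds.div (tendsto_const_nhds.sub h2) (by norm_num)
  rw [sub_zero, div_one] at h3
  refine h3.congr fun N => ?_
  have := Real.exp_pos (α * discRadius ζ N)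
  rw [one_sub_div this.ne', one_div_div]

lemma moment_upper (hζ : 0 < ζ) (hα : 0 < α) {σ : ℝ} (hσ : 0 ≤ σ) (hσα : σ < α)
    {ε : ℝ} (hε : 0 < ε) :
    ∀ᶠ N : ℕ in atTop, ∫ r, Real.exp (σ * (discRadius ζ N - r)) ∂(radiusLaw ζ α N) ≤
      α / (α - σ) + ε := by
  have h1 := (exp_div_tendsto hζ hα).const_mul (α / (α - σ))
  rw [mul_one] at h1
  have h2 : Tendsto (fun N : ℕ => Real.exp (α * discRadius ζ N)) atTop atTop :=
    Real.tendsto_exp_atTop.comp ((discRadius_tendsto hζ).const_mul_atTop hα)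
  filter_upwards [h1.eventually (ge_mem_nhds (show α / (α - σ) < α / (α - σ) + ε by linarith)),
    h2.eventually_gt_atTop 2, eventually_ge_atTop 2] with N hN1 hN2 hN3
  exact (rad_moment_upper hζ hα hN3 hσ hσα hN2).trans hN1

lemma Ew_upper (hζ : 0 < ζ) (hα : 0 < α) (h : ζ / 2 < α) {ε : ℝ} (hε : 0 < ε) :
    ∀ᶠ N : ℕ in atTop, Ew ζ α N ≤ kap ζ α + ε := by
  filter_upwards [moment_upper hζ hα (σ := ζ / 2) (by positivity) h hε, eventually_ge_atTop 2]
    with N hN1 hN2
  have h4 : Ew ζ α N = ∫ r, Real.exp (ζ / 2 * (discRadius ζ N - r)) ∂(radiusLaw ζ α N) := by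
    unfold Ew
    refine integral_congr_ae (Eventually.of_forall fun r => ?_)
    exact wt_eq' hζ (by omega) r
  rw [h4]
  exact hN1

/-- the exponent gap -/
def eta (ζ α : ℝ) : ℝ := (α - ζ / 2) / ζ

lemma eta_pos (hζ : 0 < ζ) (h : ζ / 2 < α) : 0 < eta ζ α := by
  unfold eta
  have : 0 < α - ζ / 2 := by linarith
  positivity

/-- constant for the moment of order `1 + eta` -/
def Cm (ζ α : ℝ) : ℝ := α / (α - (1 + eta ζ α) * (ζ / 2)) + 1

lemma eta_lt (hζ : 0 < ζ) (h : ζ / 2 < α) : (1 + eta ζ α) * (ζ / 2) < α := by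
  unfold eta
  have h1 : (1 + (α - ζ / 2) / ζ) * (ζ / 2) = (α + ζ / 2) / 2 := by field_simp; ring
  rw [h1]; linarith

lemma Cm_pos (hζ : 0 < ζ) (hα : 0 < α) (h : ζ / 2 < α) : 0 < Cm ζ α := by
  unfold Cm
  have := eta_lt hζ h
  have : 0 < α - (1 + eta ζ α) * (ζ / 2) := by linarith
  positivity

lemma wt_rpow (hζ : 0 < ζ) {N : ℕ} (hN : 1 ≤ N) (r s : ℝ) :
    wt ζ N r ^ s = Real.exp (s * (ζ / 2) * (discRadius ζ N - r)) := by
  rw [wt_eq' hζ hN, ← Real.exp_mul]; congr 1; ring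

lemma wt_moment (hζ : 0 < ζ) (hα : 0 < α) (h : ζ / 2 < α) :
    ∀ᶠ N : ℕ in atTop, ∫ r, wt ζ N r ^ (1 + eta ζ α) ∂(radiusLaw ζ α N) ≤ Cm ζ α := by
  have h1 := eta_pos hζ h
  filter_upwards [moment_upper hζ hα (σ := (1 + eta ζ α) * (ζ / 2)) (by positivity)
    (eta_lt hζ h) one_pos, eventually_ge_atTop 2] with N hN1 hN2
  have h4 : ∫ r, wt ζ N r ^ (1 + eta ζ α) ∂(radiusLaw ζ α N) =
      ∫ r, Real.exp ((1 + eta ζ α) * (ζ / 2) * (discRadius ζ N - r)) ∂(radiusLaw ζ α N) := by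
    refine integral_congr_ae (Eventually.of_forall fun r => ?_)
    exact wt_rpow hζ (by omega) r _
  rw [h4]
  exact hN1

lemma rad_cdf (hζ : 0 < ζ) (hα : 0 < α) {t : ℝ} (ht : 0 ≤ t) :
    Tendsto (fun N : ℕ => (radiusLaw ζ α N).real (Icc 0 (discRadius ζ N - t))) atTop
      (𝓝 (Real.exp (-(α * t)))) := by
  have hR := discRadius_tendsto hζ
  have h0 : Tendsto (fun N : ℕ => Real.exp (-(α * discRadius ζ N))) atTop (𝓝 0) :=
    Real.tendsto_exp_neg_atTop_nhds_zero.comp (hR.const_mul_atTop hα)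
  have h1 : Tendsto (fun N : ℕ => (Real.exp (-(α * t)) +
      Real.exp (α * t) * (Real.exp (-(α * discRadius ζ N)) * Real.exp (-(α * discRadius ζ N))) -
        2 * Real.exp (-(α * discRadius ζ N))) / (1 + Real.exp (-(α * discRadius ζ N)) *
        Real.exp (-(α * discRadius ζ N)) - 2 * Real.exp (-(α * discRadius ζ N)))) atTop
      (𝓝 ((Real.exp (-(α * t)) + Real.exp (α * t) * (0 * 0) - 2 * 0) / (1 + 0 * 0 - 2 * 0))) := by
    refine Tendsto.div ?_ ?_ (by norm_num)
    · exact (tendsto_const_nhds.add ((h0.mul h0).const_mul _)).sub (h0.const_mul 2)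
    · exact (tendsto_const_nhds.add (h0.mul h0)).sub (h0.const_mul 2)
  have e : (Real.exp (-(α * t)) + Real.exp (α * t) * (0 * 0) - 2 * 0) / (1 + 0 * 0 - 2 * 0) =
    Real.exp (-(α * t)) := by norm_num
  rw [e] at h1
  refine h1.congr' ?_
  filter_upwards [hR.eventually_gt_atTop t, eventually_ge_atTop 2] with N hN1 hN2
  have hD := den_pos hζ hα hN2
  rw [measureReal_def, rad_Icc hζ hα hN2 (by linarith) (by linarith), ENNReal.toReal_ofReal]
  · rw [Real.cosh_eq, Real.cosh_eq] at *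
    set R := discRadius ζ N
    have hE : Real.exp (α * R) * Real.exp (-(α * R)) = 1 := by rw [← Real.exp_add]; simp
    have hE' : Real.exp (α * t) * Real.exp (-(α * t)) = 1 := by rw [← Real.exp_add]; simp
    have hp := Real.exp_pos (α * R)
    have hp' := Real.exp_pos (-(α * R))
    have e1 : Real.exp (α * (R - t)) = Real.exp (α * R) * Real.exp (-(α * t)) := by
      rw [← Real.exp_add]; congr 1; ring
    have e2 : Real.exp (-(α * (R - t))) = Real.exp (-(α * R)) * Real.exp (α * t) := by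
      rw [← Real.exp_add]; congr 1; ring
    rw [e1, e2]
    have hd : 1 + Real.exp (-(α * R)) * Real.exp (-(α * R)) - 2 * Real.exp (-(α * R)) =
        2 * Real.exp (-(α * R)) * ((Real.exp (α * R) + Real.exp (-(α * R))) / 2 - 1) := by
      linear_combination (-1 : ℝ) * hE
    have hn : Real.exp (-(α * t)) +
      Real.exp (α * t) * (Real.exp (-(α * R)) * Real.exp (-(α * R))) -
        2 * Real.exp (-(α * R)) = 2 * Real.exp (-(α * R)) *
        ((Real.exp (α * R) * Real.exp (-(α * t)) + Real.exp (-(α * R)) * Real.exp (α * t)) / 2 -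
          1) := by
      linear_combination (-Real.exp (-(α * t))) * hE
    rw [hd, hn, mul_div_mul_left _ _ (by positivity)]
  · apply div_nonneg _ hD.le
    have := Real.one_le_cosh (α * (discRadius ζ N - t))
    linarith

end

end Pool.Agent.Helper49.HRG
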